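import Pool.Agent.Helper17_EU.DefsR

/-! # Basic lemmas on walks and assembling -/

open Set Metric Topology unitInterval

noncomputable section

namespace Pool.Agent.EU

universe u v

section lists

variable {X : Type u} {ι : Type v}

@[simp] theorem items_nil : items ([] : List (Step X ι)) = [] := rfl

@[simp] theorem items_append (w w' : List (Step X ι)) :
    items (w ++ w') = items w ++ items w' := by
  simp [items]

@[simp] theorem Step.rev_rev (s : Step X ι) : s.rev.rev = s := by
  cases s <;> simp [Step.rev]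

@[simp] theorem Step.item_rev (s : Step X ι) : s.rev.item = s.item := by
  cases s <;> simp [Step.rev, Step.item]

@[simp] theorem revW_nil : revW ([] : List (Step X ι)) = [] := rfl

@[simp] theorem revW_append (w w' : List (Step X ι)) :
    revW (w ++ w') = revW w' ++ revW w := by
  simp [revW]

@[simp] theorem revW_revW (w : List (Step X ι)) : revW (revW w) = w := by
  simp [revW, Function.comp_def]

theorem revW_cons (s : Step X ι) (w : List (Step X ι)) :
    revW (s :: w) = revW w ++ [s.rev] := by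
  simp [revW]

@[simp] theorem items_revW (w : List (Step X ι)) : items (revW w) = (items w).reverse := by
  simp only [items, revW, List.filterMap_reverse, List.filterMap_map]
  congr 2
  funext s
  simp

theorem mem_items_revW (w : List (Step X ι)) (x : ι ⊕ ℕ) : x ∈ items (revW w) ↔ x ∈ items w := by
  simp

theorem items_flatten (L : List (List (Step X ι))) :
    items L.flatten = (L.map items).flatten := by
  induction L with
  | nil => rfl
  | cons a L ih => simp [ih]

theorem mem_items {w : List (Step X ι)} {x : ι ⊕ ℕ} :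
    x ∈ items w ↔ ∃ s ∈ w, s.item = some x := by
  simp [items]

theorem mem_items_inl {w : List (Step X ι)} {i : ι} :
    (Sum.inl i : ι ⊕ ℕ) ∈ items w ↔ ∃ b, Step.edge i b ∈ w := by
  rw [mem_items]
  constructor
  · rintro ⟨s, hs, h⟩
    cases s with
    | edge j b =>
      simp only [Step.item, Option.some.injEq, Sum.inl.injEq] at h
      subst h
      exact ⟨b, hs⟩
    | jump x y => simp [Step.item] at h
    | mark k x => simp [Step.item] at h
  · rintro ⟨b, hb⟩
    exact ⟨_, hb, rfl⟩

theorem mem_items_inr {w : List (Step X ι)} {k : ℕ} :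
    (Sum.inr k : ι ⊕ ℕ) ∈ items w ↔ ∃ x, Step.mark k x ∈ w := by
  rw [mem_items]
  constructor
  · rintro ⟨s, hs, h⟩
    cases s with
    | edge j b => simp [Step.item] at h
    | jump x y => simp [Step.item] at h
    | mark j x =>
      simp only [Step.item, Option.some.injEq, Sum.inr.injEq] at h
      subst h
      exact ⟨x, hs⟩
  · rintro ⟨b, hb⟩
    exact ⟨_, hb, rfl⟩

end lists

namespace EdgeSys

variable {X : Type u} [MetricSpace X] {ι : Type v} (𝓔 : EdgeSys X ι)

theorem Small.mono {r r' : ℝ} {A B : Set X} (h : Small r B) (hA : A ⊆ B) (hr : r ≤ r') :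
    Small r' A := fun y hy z hz => (h y (hA hy) z (hA hz)).trans hr

theorem Small.union {r r' : ℝ} {A B : Set X} (h : Small r A) (h' : Small r' B) {x : X}
    (hx : x ∈ A) (hx' : x ∈ B) (hr : 0 ≤ r) (hr' : 0 ≤ r') : Small (r + r') (A ∪ B) := by
  rintro y (hy | hy) z (hz | hz)
  · linarith [h y hy z hz]
  · linarith [h y hy x hx, h' x hx' z hz, dist_triangle y x z]
  · linarith [h' y hy x hx', h x hx z hz, dist_triangle y x z]
  · linarith [h' y hy z hz]

theorem Small.of_closedBall {r : ℝ} {A : Set X} {x : X} (h : A ⊆ closedBall x r) :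
    Small (2 * r) A := by
  intro y hy z hz
  have h1 := mem_closedBall.1 (h hy)
  have h2 := mem_closedBall'.1 (h hz)
  linarith [dist_triangle y x z]

@[simp] theorem src_rev (s : Step X ι) : 𝓔.src s.rev = 𝓔.tgt s := by
  rcases s with ⟨i, b⟩ | ⟨x, y⟩ | ⟨k, x⟩
  · cases b <;> simp [Step.rev, src, tgt]
  · simp [Step.rev, src, tgt]
  · simp [Step.rev, src, tgt]

@[simp] theorem tgt_rev (s : Step X ι) : 𝓔.tgt s.rev = 𝓔.src s := by
  rcases s with ⟨i, b⟩ | ⟨x, y⟩ | ⟨k, x⟩
  · cases b <;> simp [Step.rev, src, tgt]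
  · simp [Step.rev, src, tgt]
  · simp [Step.rev, src, tgt]

@[simp] theorem supp_rev (s : Step X ι) : 𝓔.supp s.rev = 𝓔.supp s := by
  rcases s with ⟨i, b⟩ | ⟨x, y⟩ | ⟨k, x⟩
  · cases b <;> simp [Step.rev, supp]
  · simp [Step.rev, supp, Set.pair_comm]
  · simp [Step.rev, supp]

theorem src_mem_supp (s : Step X ι) : 𝓔.src s ∈ 𝓔.supp s := by
  rcases s with ⟨i, b⟩ | ⟨x, y⟩ | ⟨k, x⟩
  · cases b <;> simp [src, supp, c]
  · simp [src, supp]
  · simp [src, supp]

theorem tgt_mem_supp (s : Step X ι) : 𝓔.tgt s ∈ 𝓔.supp s := by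
  rcases s with ⟨i, b⟩ | ⟨x, y⟩ | ⟨k, x⟩
  · cases b <;> simp [tgt, supp, c]
  · simp [tgt, supp]
  · simp [tgt, supp]

@[simp] theorem supW_nil : 𝓔.supW [] = ∅ := by simp [supW]

@[simp] theorem supW_cons (s : Step X ι) (w : List (Step X ι)) :
    𝓔.supW (s :: w) = 𝓔.supp s ∪ 𝓔.supW w := by
  ext z; simp [supW]

@[simp] theorem supW_append (w w' : List (Step X ι)) :
    𝓔.supW (w ++ w') = 𝓔.supW w ∪ 𝓔.supW w' := by
  ext z
  simp only [supW, List.mem_append, mem_ofPred_eq, mem_union]
  constructor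
  · rintro ⟨s, hs | hs, h⟩
    · exact Or.inl ⟨s, hs, h⟩
    · exact Or.inr ⟨s, hs, h⟩
  · rintro (⟨s, hs, h⟩ | ⟨s, hs, h⟩)
    · exact ⟨s, Or.inl hs, h⟩
    · exact ⟨s, Or.inr hs, h⟩

@[simp] theorem supW_revW (w : List (Step X ι)) : 𝓔.supW (revW w) = 𝓔.supW w := by
  ext z
  simp only [supW, revW, List.mem_reverse, List.mem_map, mem_ofPred_eq]
  constructor
  · rintro ⟨s, ⟨t, ht, rfl⟩, h⟩
    exact ⟨t, ht, by simpa using h⟩
  · rintro ⟨s, hs, h⟩
    exact ⟨s.rev, ⟨s, hs, rfl⟩, by simpa using h⟩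

theorem supW_flatten {L : List (List (Step X ι))} {z : X} :
    z ∈ 𝓔.supW L.flatten ↔ ∃ w ∈ L, z ∈ 𝓔.supW w := by
  induction L with
  | nil => simp
  | cons a L ih => simp [ih]

variable {𝓔}

theorem IsW.nil_iff {x y : X} : 𝓔.IsW x [] y ↔ x = y := by
  constructor
  · rintro ⟨⟩
    rfl
  · rintro rfl
    exact IsW.nil _

theorem IsW.cons_iff {x y : X} {s : Step X ι} {w : List (Step X ι)} :
    𝓔.IsW x (s :: w) y ↔ x = 𝓔.src s ∧ 𝓔.IsW (𝓔.tgt s) w y := by
  constructor
  · rintro ⟨⟩
    exact ⟨rfl, by assumption⟩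
  · rintro ⟨rfl, h⟩
    exact IsW.cons _ _ _ h

theorem IsW.single (s : Step X ι) : 𝓔.IsW (𝓔.src s) [s] (𝓔.tgt s) :=
  IsW.cons _ _ _ (IsW.nil _)

theorem IsW.append_iff {x z : X} {w w' : List (Step X ι)} :
    𝓔.IsW x (w ++ w') z ↔ ∃ y, 𝓔.IsW x w y ∧ 𝓔.IsW y w' z := by
  induction w generalizing x with
  | nil => simp [IsW.nil_iff]
  | cons s w ih =>
    simp only [List.cons_append, IsW.cons_iff, ih]
    constructor
    · rintro ⟨h, y, h1, h2⟩
      exact ⟨y, ⟨h, h1⟩, h2⟩
    · rintro ⟨y, ⟨h, h1⟩, h2⟩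
      exact ⟨h, y, h1, h2⟩

theorem IsW.append {x y z : X} {w w' : List (Step X ι)} (h : 𝓔.IsW x w y) (h' : 𝓔.IsW y w' z) :
    𝓔.IsW x (w ++ w') z := IsW.append_iff.2 ⟨y, h, h'⟩

theorem IsW.rev {x y : X} {w : List (Step X ι)} (h : 𝓔.IsW x w y) : 𝓔.IsW y (revW w) x := by
  induction h with
  | nil x => exact IsW.nil _
  | cons s w y h ih =>
    rw [revW_cons]
    refine ih.append ?_
    have := IsW.single (𝓔 := 𝓔) s.rev
    simpa using this

theorem IsW.rev_iff {x y : X} {w : List (Step X ι)} : 𝓔.IsW y (revW w) x ↔ 𝓔.IsW x w y := by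
  refine ⟨fun h => ?_, fun h => h.rev⟩
  simpa using h.rev

/-- the end is determined by the start -/
theorem IsW.end_unique {x y y' : X} {w : List (Step X ι)} (h : 𝓔.IsW x w y)
    (h' : 𝓔.IsW x w y') : y = y' := by
  induction h with
  | nil x => exact IsW.nil_iff.1 h'
  | cons s w y h ih => exact ih (IsW.cons_iff.1 h').2

theorem IsW.start_unique {x x' y y' : X} {w : List (Step X ι)} (hw : w ≠ []) (h : 𝓔.IsW x w y)
    (h' : 𝓔.IsW x' w y') : x = x' := by
  cases w with
  | nil => exact absurd rfl hw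
  | cons s w =>
    rw [IsW.cons_iff] at h h'
    rw [h.1, h'.1]

theorem IsW.start_mem {x y : X} {w : List (Step X ι)} (hw : w ≠ []) (h : 𝓔.IsW x w y) :
    x ∈ 𝓔.supW w := by
  cases w with
  | nil => exact absurd rfl hw
  | cons s w =>
    rw [IsW.cons_iff] at h
    rw [h.1, supW_cons]
    exact Or.inl (𝓔.src_mem_supp s)

theorem IsW.end_mem {x y : X} {w : List (Step X ι)} (hw : w ≠ []) (h : 𝓔.IsW x w y) :
    y ∈ 𝓔.supW w := by
  have := h.rev.start_mem (by
    intro h0
    apply hw
    have := congrArg revW h0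
    simpa using this)
  simpa using this

theorem GoodStep.rev {η : ℝ} {s : Step X ι} (h : 𝓔.GoodStep η s) : 𝓔.GoodStep η s.rev := by
  rcases s with ⟨i, b⟩ | ⟨x, y⟩ | ⟨k, x⟩
  · trivial
  · obtain ⟨h1, h2, h3⟩ := h
    exact ⟨h2, h1, by rwa [dist_comm]⟩
  · exact h

theorem GoodStep.revW {η : ℝ} {w : List (Step X ι)} (h : ∀ s ∈ w, 𝓔.GoodStep η s) :
    ∀ s ∈ revW w, 𝓔.GoodStep η s := by
  intro s hs
  simp only [Pool.Agent.EU.revW, List.mem_reverse, List.mem_map] at hs
  obtain ⟨t, ht, rfl⟩ := hs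
  exact (h t ht).rev

end EdgeSys

/-! ## assembling -/

section asm

variable {X : Type u} {ι : Type v} {P Q R P' Q' : Multiset (List (Step X ι))}

theorem Asm.refl (P : Multiset (List (Step X ι))) : Asm P P := Relation.ReflTransGen.refl

theorem Asm.of_eq (h : P = Q) : Asm P Q := h ▸ Asm.refl P

theorem Asm.trans (h : Asm P Q) (h' : Asm Q R) : Asm P R := Relation.ReflTransGen.trans h h'

theorem AMove.add_right (h : AMove P Q) (R : Multiset (List (Step X ι))) :
    AMove (P + R) (Q + R) := by
  cases h with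
  | rev w P =>
    simp only [Multiset.cons_add]
    exact AMove.rev w _
  | join w w' P =>
    simp only [Multiset.cons_add]
    exact AMove.join w w' _
  | nil P =>
    simp only [Multiset.cons_add]
    exact AMove.nil _

theorem Asm.add_right (h : Asm P Q) (R : Multiset (List (Step X ι))) :
    Asm (P + R) (Q + R) := by
  induction h with
  | refl => exact Asm.refl _
  | tail _ h ih => exact ih.trans (Relation.ReflTransGen.single (h.add_right R))

theorem Asm.add_left (R : Multiset (List (Step X ι))) (h : Asm P Q) :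
    Asm (R + P) (R + Q) := by
  rw [add_comm R P, add_comm R Q]
  exact h.add_right R

theorem Asm.add (h : Asm P Q) (h' : Asm P' Q') : Asm (P + P') (Q + Q') :=
  (h.add_right P').trans (Asm.add_left Q h')

theorem Asm.cons (w : List (Step X ι)) (h : Asm P Q) : Asm (w ::ₘ P) (w ::ₘ Q) := by
  rw [← Multiset.singleton_add, ← Multiset.singleton_add]
  exact Asm.add_left _ h

theorem Asm.rev1 (w : List (Step X ι)) : Asm {w} {revW w} := by
  have := Relation.ReflTransGen.single (AMove.rev w 0)
  exact this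

theorem Asm.join2 (w w' : List (Step X ι)) : Asm ({w} + {w'}) {w ++ w'} := by
  have := Relation.ReflTransGen.single (AMove.join w w' 0)
  exact this

theorem Asm.nil0 : Asm (0 : Multiset (List (Step X ι))) {[]} := by
  have := Relation.ReflTransGen.single (AMove.nil (0 : Multiset (List (Step X ι))))
  exact this

theorem Asm.zero_add_nil (P : Multiset (List (Step X ι))) : Asm P ([] ::ₘ P) :=
  Relation.ReflTransGen.single (AMove.nil P)

theorem Asm.flatten (L : List (List (Step X ι))) :
    Asm (Multiset.ofList L) {L.flatten} := by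
  induction L with
  | nil => simpa using Asm.nil0
  | cons a L ih =>
    have h1 : Asm (Multiset.ofList (a :: L)) ({a} + {L.flatten}) := by
      rw [← Multiset.cons_coe, ← Multiset.singleton_add]
      exact Asm.add_left _ ih
    exact h1.trans (by simpa using Asm.join2 a L.flatten)

/-- total items -/
def tit (P : Multiset (List (Step X ι))) : Multiset (ι ⊕ ℕ) :=
  (P.map (fun w => (items w : Multiset (ι ⊕ ℕ)))).sum

@[simp] theorem tit_zero : tit (0 : Multiset (List (Step X ι))) = 0 := by simp [tit]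

@[simp] theorem tit_cons (w : List (Step X ι)) (P : Multiset (List (Step X ι))) :
    tit (w ::ₘ P) = (items w : Multiset (ι ⊕ ℕ)) + tit P := by simp [tit]

@[simp] theorem tit_singleton (w : List (Step X ι)) :
    tit ({w} : Multiset (List (Step X ι))) = (items w : Multiset (ι ⊕ ℕ)) := by simp [tit]

@[simp] theorem tit_add (P Q : Multiset (List (Step X ι))) : tit (P + Q) = tit P + tit Q := by
  simp [tit]

theorem mem_tit {P : Multiset (List (Step X ι))} {x : ι ⊕ ℕ} :
    x ∈ tit P ↔ ∃ w ∈ P, x ∈ items w := by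
  induction P using Multiset.induction_on with
  | empty => simp
  | cons w P ih => simp [ih]

theorem AMove.tit_eq (h : AMove P Q) : tit P = tit Q := by
  cases h with
  | rev w P => simp
  | join w w' P => simp [← Multiset.coe_add, add_assoc]
  | nil P => simp

theorem Asm.tit_eq (h : Asm P Q) : tit P = tit Q := by
  induction h with
  | refl => rfl
  | tail _ h ih => exact ih.trans h.tit_eq

/-- a property of steps stable under reversal is preserved -/
theorem AMove.forall_step {p : Step X ι → Prop} (hp : ∀ s, p s → p s.rev) (h : AMove P Q)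
    (hP : ∀ w ∈ P, ∀ s ∈ w, p s) : ∀ w ∈ Q, ∀ s ∈ w, p s := by
  cases h with
  | rev w P =>
    intro w' hw'
    rcases Multiset.mem_cons.1 hw' with rfl | hw'
    · intro s hs
      simp only [revW, List.mem_reverse, List.mem_map] at hs
      obtain ⟨t, ht, rfl⟩ := hs
      exact hp _ (hP w (Multiset.mem_cons_self _ _) t ht)
    · exact hP w' (Multiset.mem_cons_of_mem hw')
  | join w w' P =>
    intro w'' hw''
    rcases Multiset.mem_cons.1 hw'' with rfl | hw''
    · intro s hs
      rcases List.mem_append.1 hs with hs | hs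
      · exact hP w (Multiset.mem_cons_self _ _) s hs
      · exact hP w' (Multiset.mem_cons_of_mem (Multiset.mem_cons_self _ _)) s hs
    · exact hP w'' (Multiset.mem_cons_of_mem (Multiset.mem_cons_of_mem hw''))
  | nil P =>
    intro w hw
    rcases Multiset.mem_cons.1 hw with rfl | hw
    · simp
    · exact hP w hw

theorem Asm.forall_step {p : Step X ι → Prop} (hp : ∀ s, p s → p s.rev) (h : Asm P Q)
    (hP : ∀ w ∈ P, ∀ s ∈ w, p s) : ∀ w ∈ Q, ∀ s ∈ w, p s := by
  induction h with
  | refl => exact hP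
  | tail _ h ih => exact h.forall_step hp ih

/-- steps (up to reversal) survive -/
theorem AMove.exists_step (h : AMove P Q) {s : Step X ι} (hs : ∃ w ∈ P, s ∈ w ∨ s.rev ∈ w) :
    ∃ w ∈ Q, s ∈ w ∨ s.rev ∈ w := by
  have key : ∀ (w : List (Step X ι)), (s ∈ w ∨ s.rev ∈ w) → (s ∈ revW w ∨ s.rev ∈ revW w) := by
    intro w h
    simp only [revW, List.mem_reverse, List.mem_map]
    rcases h with h | h
    · exact Or.inr ⟨s, h, rfl⟩
    · exact Or.inl ⟨s.rev, h, by simp⟩
  cases h with
  | rev w P =>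
    obtain ⟨w', hw', h⟩ := hs
    rcases Multiset.mem_cons.1 hw' with rfl | hw'
    · exact ⟨_, Multiset.mem_cons_self _ _, key _ h⟩
    · exact ⟨w', Multiset.mem_cons_of_mem hw', h⟩
  | join w w' P =>
    obtain ⟨w'', hw'', h⟩ := hs
    rcases Multiset.mem_cons.1 hw'' with rfl | hw''
    · refine ⟨_, Multiset.mem_cons_self _ _, ?_⟩
      rcases h with h | h
      · exact Or.inl (List.mem_append_left _ h)
      · exact Or.inr (List.mem_append_left _ h)
    · rcases Multiset.mem_cons.1 hw'' with rfl | hw''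
      · refine ⟨_, Multiset.mem_cons_self _ _, ?_⟩
        rcases h with h | h
        · exact Or.inl (List.mem_append_right _ h)
        · exact Or.inr (List.mem_append_right _ h)
      · exact ⟨w'', Multiset.mem_cons_of_mem hw'', h⟩
  | nil P =>
    obtain ⟨w', hw', h⟩ := hs
    exact ⟨w', Multiset.mem_cons_of_mem hw', h⟩

theorem Asm.exists_step (h : Asm P Q) {s : Step X ι} (hs : ∃ w ∈ P, s ∈ w ∨ s.rev ∈ w) :
    ∃ w ∈ Q, s ∈ w ∨ s.rev ∈ w := by
  induction h with
  | refl => exact hs
  | tail _ h ih => exact h.exists_step ih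

end asm

section und

variable {X : Type u} {ι : Type v}

@[simp] theorem EdgeSys.und_zero : EdgeSys.und (0 : Multiset (TW X ι)) = 0 := rfl

@[simp] theorem EdgeSys.und_add (P Q : Multiset (TW X ι)) :
    EdgeSys.und (P + Q) = EdgeSys.und P + EdgeSys.und Q := by simp [EdgeSys.und]

@[simp] theorem EdgeSys.und_cons (w : TW X ι) (P : Multiset (TW X ι)) :
    EdgeSys.und (w ::ₘ P) = w.2.1 ::ₘ EdgeSys.und P := by simp [EdgeSys.und]

@[simp] theorem EdgeSys.degW_zero (v : X) : EdgeSys.degW (0 : Multiset (TW X ι)) v = 0 := by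
  simp [EdgeSys.degW]

@[simp] theorem EdgeSys.degW_add (P Q : Multiset (TW X ι)) (v : X) :
    EdgeSys.degW (P + Q) v = EdgeSys.degW P v + EdgeSys.degW Q v := by
  simp only [EdgeSys.degW, Multiset.countP_add]
  omega

open Classical in
theorem EdgeSys.degW_cons (w : TW X ι) (P : Multiset (TW X ι)) (v : X) :
    EdgeSys.degW (w ::ₘ P) v =
      (if w.1 = v then 1 else 0) + (if w.2.2 = v then 1 else 0) + EdgeSys.degW P v := by
  simp only [EdgeSys.degW, Multiset.countP_cons]
  split_ifs <;> omega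

end und

end Pool.Agent.EU
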