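import Pool.Agent.Helper17_EU.Defs

/-! # Topological modules: statements -/

open Set Metric Topology unitInterval

noncomputable section

namespace Pool.Agent.EU

universe u v

/-! ## general topology (no edges) -/

/-- TOUCH. `C` compact connected, `D` open, `P` closed and contains the closure of `D`, `C` meets
`P`: every component of `C \ D` meets `P`. -/
def TouchStmt (X : Type u) [MetricSpace X] : Prop :=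
  ∀ (C D P : Set X), IsCompact C → IsPreconnected C → IsOpen D → IsClosed P → closure D ⊆ P →
    (C ∩ P).Nonempty → ∀ x ∈ C \ D, (connectedComponentIn (C \ D) x ∩ P).Nonempty

/-- BB, boundary bumping for balls. -/
def BBStmt (X : Type u) [MetricSpace X] : Prop :=
  ∀ (Z : Set X) (u y : X) (r : ℝ), IsCompact Z → IsPreconnected Z → y ∈ Z → dist y u < r →
    ¬ Z ⊆ ball u r → ∃ k ∈ connectedComponentIn (Z ∩ closedBall u r) y, dist k u = r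

/-- SEP. In a compact set `H`, two closed subsets `P`, `Q` not met by a common component are
separated by a clopen subset. -/
def SepStmt (X : Type u) [MetricSpace X] : Prop :=
  ∀ (H P Q : Set X), IsCompact H → P ⊆ H → Q ⊆ H → IsClosed P → IsClosed Q →
    (∀ x ∈ P, Disjoint (connectedComponentIn H x) Q) →
    ∃ K ⊆ H, IsClosed K ∧ IsClosed (H \ K) ∧ P ⊆ K ∧ Disjoint K Q

/-- PA. Every path contains an arc. -/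
def PathArcStmt (X : Type u) [MetricSpace X] : Prop :=
  ∀ (f : C(I, X)), f 0 ≠ f 1 → ∃ g : C(I, X), Function.Injective g ∧ g 0 = f 0 ∧ g 1 = f 1 ∧
    range g ⊆ range f

namespace EdgeSys

variable {X : Type u} [MetricSpace X] {ι : Type v} (𝓔 : EdgeSys X ι)

/-! ## T0: basic facts on edges and arcs -/

/-- only finitely many edges of diameter more than `ε` -/
def NullStmt : Prop := ∀ ε > 0, {i | ¬ Small ε (𝓔.c i)}.Finite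

def CrossFinStmt : Prop := ∀ K, 𝓔.ClopenG K → (𝓔.cross K).Finite

/-- an arc contains an open edge or is disjoint from it -/
def ArcDichStmt : Prop := ∀ (a : 𝓔.Arc) (i : ι), i ∈ a.E ∨ Disjoint (𝓔.o i) (range a.f)

/-- sub-arcs between ground points -/
def SubArcStmt : Prop := ∀ (a : 𝓔.Arc) (s t : I), s < t → a.f s ∈ 𝓔.G → a.f t ∈ 𝓔.G →
  ∃ b : 𝓔.Arc, b.f 0 = a.f s ∧ b.f 1 = a.f t ∧ range b.f = a.f '' Icc s t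

def ArcRunsStmt : Prop := ∀ (a : 𝓔.Arc) (i : ι), i ∈ a.E → ∃ b s t, a.Runs i b s t

/-! ## T1: thin sets of edges (Lemma R) -/

def ThinArcStmt : Prop := ∀ a : 𝓔.Arc, 𝓔.Thin a.E

def ThinUnionStmt : Prop := ∀ S T, 𝓔.Thin S → 𝓔.Thin T → 𝓔.Thin (S ∪ T)

def Y1Stmt : Prop := ∀ S, 𝓔.Thin S → ∀ θ > 0, ∃ δ > 0, ∀ x y, x ∈ 𝓔.Y S → y ∈ 𝓔.comp S x →
  dist x y < δ → ∃ C ⊆ 𝓔.Y S, IsPreconnected C ∧ x ∈ C ∧ y ∈ C ∧ Small θ C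

def Y2Stmt : Prop := ∀ S, 𝓔.Thin S → ∀ θ > 0,
  {Z | ∃ x ∈ 𝓔.Y S, Z = 𝓔.comp S x ∧ ¬ Small θ Z}.Finite

def Y3Stmt : Prop := ∀ S, S.Nonempty → ∀ x ∈ 𝓔.Y S, (𝓔.comp S x ∩ 𝓔.R S).Nonempty

/-! ## ARC -/

def ArcStmt : Prop := ∀ S, 𝓔.Thin S → ∀ C ⊆ 𝓔.Y S, IsPreconnected C → ∀ x ∈ C, ∀ y ∈ C,
  x ∈ 𝓔.G → y ∈ 𝓔.G → x ≠ y → ∀ ε > 0,
  ∃ a : 𝓔.Arc, a.f 0 = x ∧ a.f 1 = y ∧ range a.f ⊆ 𝓔.Y S ∩ thickening ε C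

/-! ## NET, RL, DH -/

def NetStmt : Prop := ∀ S, 𝓔.Thin S → ∀ θ > 0, ∃ W : Set X, W.Finite ∧ W ⊆ 𝓔.G ∧
  𝓔.Rooted S W θ

/-- RL: after removing the edges of finitely many arcs `l`, add finitely many ground points of
these arcs as new roots. -/
def RLStmt : Prop := ∀ (S : Set ι) (V : Set X) (r : ℝ) (l : List 𝓔.Arc),
  𝓔.Thin S → V.Finite → 0 < r → 𝓔.Rooted S V r → 𝓔.RL l ⊆ 𝓔.Y S → ∀ θ > 0, ∃ B : Set X,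
    B.Finite ∧ B ⊆ 𝓔.G ∩ 𝓔.RL l ∧ 𝓔.Rooted (S ∪ 𝓔.EL l) (V ∪ B) (r + θ)

/-- DH: removing a thin set of edges contained in a tiny ball is harmless. -/
def DHStmt : Prop := ∀ (S S' : Set ι) (V : Set X) (θ : ℝ) (u : X) (ρ : ℝ),
  𝓔.Thin S → 𝓔.Thin S' → S ⊆ S' → 0 < θ → 0 < ρ → ρ ≤ θ / 2 →
  𝓔.Rooted S V θ → 𝓔.BigEnds S V θ → (∀ i ∈ S' \ S, 𝓔.c i ⊆ ball u ρ) →
  𝓔.Rooted S' V (12 * θ)

/-! ## FG: finite graphs -/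

/-- FG1: finitely many arcs from points outside `T` to `T`, meeting `T` only at their end, are
replaced by finitely many pairwise edge-disjoint arcs. -/
def FG1Stmt : Prop := ∀ (T : Set X) (l : List 𝓔.Arc) (r : ℝ), T.Finite → 0 ≤ r →
  (∀ a ∈ l, Small r (range a.f) ∧ a.f 1 ∈ T ∧ ∀ t, a.f t ∈ T → t = 1) →
  ∃ (l' : List 𝓔.Arc) (W : Set X), W.Finite ∧ Disjoint W T ∧ W ⊆ 𝓔.G ∧
    (∀ a ∈ l, a.f 0 ∈ W) ∧ 𝓔.EDisj l' ∧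
    (∀ b ∈ l', ∃ a ∈ l, range b.f ⊆ range a.f) ∧
    (∀ b ∈ l', b.f 0 ∈ W ∪ T ∧ b.f 1 ∈ W ∪ T ∧ (b.f 0 ∈ W ∨ b.f 1 ∈ W)) ∧
    (∀ b ∈ l', ∀ t, b.f t ∈ T → t = 0 ∨ t = 1) ∧
    (∀ w ∈ W, 𝓔.RPath l' T (3 * r) w)

/-- FG2: subdivision at finitely many further ground points. -/
def FG2Stmt : Prop := ∀ (T : Set X) (l' : List 𝓔.Arc) (W B : Set X) (r : ℝ), 0 ≤ r →
  W.Finite → B.Finite →
  Disjoint W T → W ⊆ 𝓔.G → 𝓔.EDisj l' → (∀ b ∈ l', Small r (range b.f)) →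
  (∀ b ∈ l', b.f 0 ∈ W ∪ T ∧ b.f 1 ∈ W ∪ T ∧ (b.f 0 ∈ W ∨ b.f 1 ∈ W)) →
  (∀ b ∈ l', ∀ t, b.f t ∈ T → t = 0 ∨ t = 1) →
  (∀ w ∈ W, 𝓔.RPath l' T (3 * r) w) →
  B ⊆ 𝓔.G ∩ 𝓔.RL l' → Disjoint B T →
  ∃ (l : List 𝓔.Arc) (W' : Set X), W'.Finite ∧ W ⊆ W' ∧ B ⊆ W' ∧ Disjoint W' T ∧ W' ⊆ 𝓔.G ∧
    𝓔.EDisj l ∧ (∀ b ∈ l, ∃ a ∈ l', range b.f ⊆ range a.f) ∧ 𝓔.EL l = 𝓔.EL l' ∧
    (∀ b ∈ l, b.f 0 ∈ W' ∪ T ∧ b.f 1 ∈ W' ∪ T ∧ (b.f 0 ∈ W' ∨ b.f 1 ∈ W')) ∧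
    (∀ w ∈ W', 𝓔.RPath l T (4 * r) w)

/-! ## STEPB: one stage of the reservation of arcs -/

def StepBStmt : Prop := ∀ (S : Set ι) (V : Set X) (r : ℝ) (W : Set X) (θ : ℝ),
  𝓔.Thin S → V.Finite → V.Nonempty → V ⊆ 𝓔.G → 0 < r → W.Finite → W ⊆ 𝓔.G → 0 < θ →
  𝓔.Rooted S V r →
  ∃ (l : List 𝓔.Arc) (U P : Set X), U.Finite ∧ U ⊆ 𝓔.G ∧ Disjoint U V ∧ P ⊆ U ∧ W ⊆ V ∪ U ∧
    (∀ p ∈ P, p ∈ 𝓔.R S ∧ ∀ v ∈ V ∪ P, v ∈ 𝓔.comp S p → v = p) ∧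
    𝓔.EDisj l ∧ 𝓔.RL l ⊆ 𝓔.Y S ∧ (∀ b ∈ l, Small (3 * r) (range b.f)) ∧
    (∀ b ∈ l, b.f 0 ∈ V ∪ U ∧ b.f 1 ∈ V ∪ U ∧ (b.f 0 ∈ U \ P ∨ b.f 1 ∈ U \ P)) ∧
    (∀ u ∈ U \ P, 𝓔.RPath l (V ∪ P) (12 * r) u) ∧
    𝓔.Thin (S ∪ 𝓔.EL l) ∧ 𝓔.Rooted (S ∪ 𝓔.EL l) (V ∪ U) θ ∧ 𝓔.BigEnds (S ∪ 𝓔.EL l) (V ∪ U) θ

/-! ## DECO: finitely many decorations -/

def DecoStmt : Prop := ∀ (M : Set X), 𝓔.Oracle M → ∀ (S : Set ι) (V : Set X) (θ ε : ℝ)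
  (us : List X), 𝓔.Thin S → 0 < θ → 0 < ε → 𝓔.Rooted S V θ → 𝓔.BigEnds S V θ →
  (∀ u ∈ us, u ∈ 𝓔.G ∧ 𝓔.Rich u) →
  ∃ Ds : List 𝓔.RawDeco, Ds.map (fun D => D.base) = us ∧ (∀ D ∈ Ds, D.OK S M ε) ∧
    𝓔.EDisj (Ds.flatMap (fun D => D.pre ++ D.post)) ∧
    𝓔.Thin (S ∪ 𝓔.EL (Ds.flatMap (fun D => D.pre ++ D.post))) ∧
    𝓔.Rooted (S ∪ 𝓔.EL (Ds.flatMap (fun D => D.pre ++ D.post))) V (12 ^ us.length * θ) ∧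
    𝓔.BigEnds (S ∪ 𝓔.EL (Ds.flatMap (fun D => D.pre ++ D.post))) V (12 ^ us.length * θ)

/-! ## PAR: parity -/

def ParArcStmt : Prop := ∀ (a : 𝓔.Arc) (K : Set X), 𝓔.ClopenG K →
  (Even ((𝓔.cross K ∩ a.E).ncard) ↔ (a.f 0 ∈ K ↔ a.f 1 ∈ K))

def ParAddStmt : Prop := ∀ (S : Set ι) (V V' : Finset X) (d : X → ℕ) (l : List 𝓔.Arc),
  𝓔.Par S V d → V ⊆ V' → (∀ v ∉ V, d v = 0) → 𝓔.EDisj l → 𝓔.RL l ⊆ 𝓔.Y S →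
  (∀ a ∈ l, a.f 0 ∈ V' ∧ a.f 1 ∈ V') → 𝓔.Par (S ∪ 𝓔.EL l) V' (fun v => d v + 𝓔.degL l v)

def ParChainStmt : Prop := ∀ (S : Set ι) (V : Finset X) (d : X → ℕ) (l : List 𝓔.Arc) (x : X),
  𝓔.Par S V d → 𝓔.EDisj l → 𝓔.RL l ⊆ 𝓔.Y S → 𝓔.ChainA x l x → 𝓔.Par (S ∪ 𝓔.EL l) V d

/-- parity for clopen subsets of the ground part of a component -/
def ParCompStmt : Prop := ∀ (S : Set ι) (V : Finset X) (d : X → ℕ), ↑V ⊆ 𝓔.G → 𝓔.Par S V d →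
  ∀ x ∈ 𝓔.G, ∀ A ⊆ 𝓔.comp S x ∩ 𝓔.G, IsClosed A → IsClosed ((𝓔.comp S x ∩ 𝓔.G) \ A) →
  {i | i ∉ S ∧ 𝓔.c i ⊆ 𝓔.comp S x ∧ i ∈ 𝓔.cross A}.Finite ∧
  Even ({i | i ∉ S ∧ 𝓔.c i ⊆ 𝓔.comp S x ∧ i ∈ 𝓔.cross A}.ncard + ∑ v ∈ V, A.indicator d v)

/-! ## landmarks on arcs -/

def RichArcStmt : Prop := ∀ (a : 𝓔.Arc) (τ : I), τ ∈ interior (a.f ⁻¹' 𝓔.G) → 𝓔.Rich (a.f τ)

def FineStmt : Prop := ∀ (a : 𝓔.Arc), ∀ ε > 0, ∃ (F : Set ι) (T : Set I), F.Finite ∧ F ⊆ a.E ∧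
  T.Finite ∧ T ⊆ interior (a.f ⁻¹' 𝓔.G) ∧ 𝓔.Fine a F T ε

end EdgeSys

end Pool.Agent.EU
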