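import Mathlib

/-! # Eulerian Peano continua: definitions

All definitions used by the modules of the squad MP_0dbebf_gt. -/

open Set Metric Topology unitInterval

noncomputable section

namespace Pool.Agent.EU

universe u v

/-- A set of diameter at most `r` (pointwise form). -/
def Small {X : Type u} [MetricSpace X] (r : ℝ) (A : Set X) : Prop :=
  ∀ y ∈ A, ∀ z ∈ A, dist y z ≤ r

/-- A family of pairwise disjoint open free arcs with distinct end points,
given by parametrisations of their closures. The arcs need not be maximal. -/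
structure EdgeSys (X : Type u) [MetricSpace X] (ι : Type v) where
  φ : ι → C(I, X)
  inj : ∀ i, Function.Injective (φ i)
  opn : ∀ i, IsOpen (φ i '' Ioo 0 1)
  disj : ∀ i j, i ≠ j → Disjoint (φ i '' Ioo 0 1) (φ j '' Ioo 0 1)

namespace EdgeSys

variable {X : Type u} [MetricSpace X] {ι : Type v} (𝓔 : EdgeSys X ι)

/-- the open edge -/
def o (i : ι) : Set X := 𝓔.φ i '' Ioo 0 1

/-- the closed edge -/
def c (i : ι) : Set X := range (𝓔.φ i)

/-- the ground space -/
def G : Set X := (⋃ i, 𝓔.o i)ᶜ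

/-- the space with the open edges in `S` removed -/
def Y (S : Set ι) : Set X := (⋃ i ∈ S, 𝓔.o i)ᶜ

/-- the closure of the union of the edges in `S` -/
def R (S : Set ι) : Set X := closure (⋃ i ∈ S, 𝓔.o i)

/-- thin sets of edges: their closure meets the ground space in a totally disconnected set -/
def Thin (S : Set ι) : Prop :=
  ∀ C : Set X, C ⊆ 𝓔.G → C ⊆ 𝓔.R S → IsPreconnected C → C.Subsingleton

/-- component of `x` in `Y S` -/
def comp (S : Set ι) (x : X) : Set X := connectedComponentIn (𝓔.Y S) x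

/-- clopen subsets of the ground space -/
def ClopenG (K : Set X) : Prop := K ⊆ 𝓔.G ∧ IsClosed K ∧ IsClosed (𝓔.G \ K)

/-- edges with exactly one end point in `K` -/
def cross (K : Set X) : Set ι := {i | ¬ (𝓔.φ i 0 ∈ K ↔ 𝓔.φ i 1 ∈ K)}

/-- the even cut condition -/
def EvenCuts : Prop := ∀ K, 𝓔.ClopenG K → Even (𝓔.cross K).ncard

/-- Every ground point is either connected in `Y S` to a point of `V` by a connected set of
diameter at most `r`, or its component in `Y S` has diameter at most `r` and misses `V`. -/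
def Rooted (S : Set ι) (V : Set X) (r : ℝ) : Prop :=
  ∀ x ∈ 𝓔.G,
    (∃ C ⊆ 𝓔.Y S, IsPreconnected C ∧ x ∈ C ∧ (∃ v ∈ V, v ∈ C) ∧ Small r C) ∨
    ((∀ v ∈ V, v ∉ 𝓔.comp S x) ∧ Small r (𝓔.comp S x))

/-- every edge outside `S` of diameter more than `r` has both ends in `V` -/
def BigEnds (S : Set ι) (V : Set X) (r : ℝ) : Prop :=
  ∀ i, i ∉ S → ¬ Small r (𝓔.c i) → 𝓔.φ i 0 ∈ V ∧ 𝓔.φ i 1 ∈ V

/-- points lying in arbitrarily small nondegenerate connected subsets of the ground space -/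
def Rich (u : X) : Prop :=
  ∀ ρ > 0, ∃ L ⊆ 𝓔.G ∩ ball u ρ, IsPreconnected L ∧ u ∈ L ∧ L.Nontrivial

/-- arcs with ends in the ground space -/
structure Arc where
  f : C(I, X)
  inj : Function.Injective f
  h0 : f 0 ∈ 𝓔.G
  h1 : f 1 ∈ 𝓔.G

variable {𝓔}

/-- the edges contained in an arc -/
def Arc.E (a : 𝓔.Arc) : Set ι := {i | 𝓔.o i ⊆ range a.f}

/-- `[s,t]` is the interval on which the arc runs through the edge `i`
(`b = true`: in the direction of the parametrisation). -/
def Arc.Runs (a : 𝓔.Arc) (i : ι) (b : Bool) (s t : I) : Prop :=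
  s < t ∧ a.f '' Icc s t = 𝓔.c i ∧ a.f '' Ioo s t = 𝓔.o i ∧
    (if b then a.f s = 𝓔.φ i 0 ∧ a.f t = 𝓔.φ i 1 else a.f s = 𝓔.φ i 1 ∧ a.f t = 𝓔.φ i 0)

variable (𝓔)

/-- a chain of arcs from `x` to `y` -/
inductive ChainA : X → List 𝓔.Arc → X → Prop
  | nil (x : X) : ChainA x [] x
  | cons (a : 𝓔.Arc) (l : List 𝓔.Arc) (y : X) : ChainA (a.f 1) l y → ChainA (a.f 0) (a :: l) y

/-- the edges of a list of arcs -/
def EL (l : List 𝓔.Arc) : Set ι := {i | ∃ a ∈ l, i ∈ a.E}

/-- the union of the ranges of a list of arcs -/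
def RL (l : List 𝓔.Arc) : Set X := {x | ∃ a ∈ l, x ∈ range a.f}

/-- pairwise edge-disjoint list of arcs -/
def EDisj (l : List 𝓔.Arc) : Prop := l.Pairwise (fun a b => Disjoint a.E b.E)

/-- undirected reachability by a chain of arcs of `l` (each arc may be traversed in both
directions) inside a set of diameter at most `r` -/
inductive UChain (l : List 𝓔.Arc) : X → List (𝓔.Arc × Bool) → X → Prop
  | nil (x : X) : UChain l x [] x
  | fwd (a : 𝓔.Arc) (w : List (𝓔.Arc × Bool)) (y : X) : a ∈ l → UChain l (a.f 1) w y →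
      UChain l (a.f 0) ((a, true) :: w) y
  | bwd (a : 𝓔.Arc) (w : List (𝓔.Arc × Bool)) (y : X) : a ∈ l → UChain l (a.f 0) w y →
      UChain l (a.f 1) ((a, false) :: w) y

/-- union of the ranges of the arcs of a chain -/
def chainSet (w : List (𝓔.Arc × Bool)) : Set X := {x | ∃ p ∈ w, x ∈ range p.1.f}

/-- `v` is joined to `T` by a chain of arcs of `l` whose union has diameter at most `r` -/
def RPath (l : List 𝓔.Arc) (T : Set X) (r : ℝ) (v : X) : Prop :=
  ∃ w : List (𝓔.Arc × Bool), ∃ t ∈ T, UChain 𝓔 l v w t ∧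
    Small r ({v} ∪ 𝓔.chainSet w)

/-- parity of all cuts of `Y S`, with weights `d` on the points of `V` -/
def Par (S : Set ι) (V : Finset X) (d : X → ℕ) : Prop :=
  ∀ K, 𝓔.ClopenG K → Even ((𝓔.cross K \ S).ncard + ∑ v ∈ V, K.indicator d v)

/-- fineness: no landmark strictly inside means small -/
def Fine (a : 𝓔.Arc) (F : Set ι) (T : Set I) (ε : ℝ) : Prop :=
  ∀ s t : I, s ≤ t → a.f s ∈ 𝓔.G → a.f t ∈ 𝓔.G →
    (∀ i ∈ F, ∀ b s' t', a.Runs i b s' t' → ¬ (s ≤ s' ∧ t' ≤ t)) →
    (∀ τ ∈ T, ¬ (s < τ ∧ τ < t)) → Small ε (a.f '' Icc s t)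

open Classical in
/-- number of ends of the arcs of `l` at `v` -/
def degL (l : List 𝓔.Arc) (v : X) : ℕ :=
  l.countP (fun a => a.f 0 = v) + l.countP (fun a => a.f 1 = v)

/-- reversed arc -/
def Arc.rev {𝓔 : EdgeSys X ι} (a : 𝓔.Arc) : 𝓔.Arc where
  f := a.f.comp ⟨σ, unitInterval.continuous_symm⟩
  inj := a.inj.comp (Function.LeftInverse.injective unitInterval.symm_symm)
  h0 := by simpa using a.h1
  h1 := by simpa using a.h0

/-- A raw decoration at `base`: a closed chain of arcs `pre ++ post` based at `base` together with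
the junction point `pt`. If `lmE = none` there is a marker at `pt`, if `lmE = some i` then the edge
`i` (contained in one of the arcs) is the landmark. -/
structure RawDeco where
  base : X
  pre : List 𝓔.Arc
  pt : X
  post : List 𝓔.Arc
  lmE : Option ι

/-- admissible decorations: outside `S`, inside the ball of radius `ε`, markers only in `M` -/
def RawDeco.OK {𝓔 : EdgeSys X ι} (D : 𝓔.RawDeco) (S : Set ι) (M : Set X) (ε : ℝ) : Prop :=
  𝓔.ChainA D.base D.pre D.pt ∧ 𝓔.ChainA D.pt D.post D.base ∧ 𝓔.EDisj (D.pre ++ D.post) ∧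
  𝓔.RL (D.pre ++ D.post) ⊆ 𝓔.Y S ∩ ball D.base ε ∧ D.base ∈ 𝓔.G ∧ D.pt ∈ 𝓔.G ∩ ball D.base ε ∧
  (∀ i, D.lmE = some i → i ∈ 𝓔.EL (D.pre ++ D.post)) ∧ (D.lmE = none → D.pt ∈ M)

/-- decorations exist at all rich ground points, arbitrarily small and outside every thin set -/
def Oracle (M : Set X) : Prop :=
  ∀ S, 𝓔.Thin S → ∀ u ∈ 𝓔.G, 𝓔.Rich u → ∀ ε > 0, ∃ D : 𝓔.RawDeco, D.base = u ∧ D.OK S M ε

end EdgeSys

end Pool.Agent.EU
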