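import Pool.Agent.Helper17_EU.DefsW

/-! # Combinatorial modules: definitions and statements

The stage theorem for finite multigraphs and its version for typed walks. -/

open Set Metric Topology unitInterval

noncomputable section

namespace Pool.Agent.EU

universe u v w w'

section graph

variable {X : Type u} {n : ℕ} (src tgt : Fin n → X)

/-- source of a directed edge -/
def dsrc (d : Fin n × Bool) : X := if d.2 then src d.1 else tgt d.1

/-- target of a directed edge -/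
def dtgt (d : Fin n × Bool) : X := if d.2 then tgt d.1 else src d.1

/-- trails (walks) in the multigraph -/
inductive IsTr : X → List (Fin n × Bool) → X → Prop
  | nil (x : X) : IsTr x [] x
  | cons (d : Fin n × Bool) (l : List (Fin n × Bool)) (y : X) : IsTr (dtgt src tgt d) l y →
      IsTr (dsrc src tgt d) (d :: l) y

open Classical in
/-- degree of a vertex, loops count twice -/
def degF (x : X) : ℕ :=
  (Finset.univ.filter (fun e => src e = x)).card + (Finset.univ.filter (fun e => tgt e = x)).card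

/-- support of a list of directed edges -/
def spL (sp : Fin n → Set X) (l : List (Fin n × Bool)) : Set X := {x | ∃ d ∈ l, x ∈ sp d.1}

end graph

/-- multigraph on `A ∪ U` with supports -/
def GraphOK {X : Type u} {n : ℕ} (src tgt : Fin n → X) (sp : Fin n → Set X) (A U : Finset X) :
    Prop :=
  (∀ x ∈ A, x ∉ U) ∧ (∀ e, (src e ∈ A ∨ src e ∈ U) ∧ (tgt e ∈ A ∨ tgt e ∈ U)) ∧
    (∀ e, src e ∈ sp e ∧ tgt e ∈ sp e)

/-- all members of `L` are trails from `A` to `A` through `U` -/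
def OpenTrails {X : Type u} {n : ℕ} (src tgt : Fin n → X) (A U : Finset X)
    (L : List (List (Fin n × Bool))) : Prop :=
  ∀ l ∈ L, (∃ a ∈ A, ∃ b ∈ A, IsTr src tgt a l b) ∧ 2 ≤ l.length ∧
        ∀ l1 d l2, l = l1 ++ d :: l2 → l1 ≠ [] → dsrc src tgt d ∈ U

/-- all members of `M` are nonempty closed trails with all vertices in `U` -/
def ClosedTrails {X : Type u} {n : ℕ} (src tgt : Fin n → X) (U : Finset X)
    (M : List (List (Fin n × Bool))) : Prop :=
  ∀ l ∈ M, (∃ a, IsTr src tgt a l a) ∧ l ≠ [] ∧ ∀ d ∈ l, dsrc src tgt d ∈ U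

/-- the lists in `L` use exactly the edges incident with `U`, each of them once -/
def CoversInc {X : Type u} {n : ℕ} (src tgt : Fin n → X) (U : Finset X)
    (L : List (List (Fin n × Bool))) : Prop :=
  (L.flatten.map Prod.fst).Nodup ∧
    ∀ e, e ∈ L.flatten.map Prod.fst ↔ (src e ∈ U ∨ tgt e ∈ U)

open Classical in
/-- number of non-closed trails -/
def openCount {X : Type u} {n : ℕ} (src tgt : Fin n → X) (L : List (List (Fin n × Bool))) : ℕ :=
  L.countP (fun l => decide (¬ ∃ a, IsTr src tgt a l a))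

/-- a forest on `U` rooted in `A`, everything within distance `δ` of the roots -/
def ForestOK {X : Type u} [MetricSpace X] {n : ℕ} (src tgt : Fin n → X) (sp : Fin n → Set X)
    (A U : Finset X) (par : X → Fin n × X) (root : X → X) (rk : X → ℕ) (δ : ℝ) : Prop :=
  (∀ a ∈ A, root a = a) ∧ ∀ u ∈ U,
    ((src (par u).1 = u ∧ tgt (par u).1 = (par u).2) ∨
      (tgt (par u).1 = u ∧ src (par u).1 = (par u).2)) ∧
    ((par u).2 ∈ A ∨ (par u).2 ∈ U) ∧ root u = root (par u).2 ∧ rk (par u).2 < rk u ∧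
    root u ∈ A ∧ u ∈ closedBall (root u) δ ∧ sp (par u).1 ⊆ closedBall (root u) δ

/-- The stage property: in a finite multigraph on `A ∪ U` embedded in `X`, with even degrees on
`U`, small edges at `U` and every vertex of `U` joined to `A` by a small path, the edges incident
with `U` can be arranged into small trails from `A` to `A` through `U`, few of them not closed. -/
def StageOK (X : Type u) [MetricSpace X] (s ρ : ℝ) : Prop :=
  ∀ (n : ℕ) (src tgt : Fin n → X) (sp : Fin n → Set X) (A U : Finset X),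
    GraphOK src tgt sp A U →
    (∀ e, (src e ∈ U ∨ tgt e ∈ U) → Small ρ (sp e)) →
    (∀ u ∈ U, Even (degF src tgt u)) →
    (∀ u ∈ U, ∃ a ∈ A, ∃ l, IsTr src tgt u l a ∧ Small ρ (spL sp l)) →
    ∃ L : List (List (Fin n × Bool)), OpenTrails src tgt A U L ∧ CoversInc src tgt U L ∧
      (∀ l ∈ L, Small s (spL sp l)) ∧ openCount src tgt L ≤ 3 * (A.card + U.card) ^ 2

def StageStmt (X : Type u) [MetricSpace X] : Prop :=
  (∀ s > 0, ∃ ρ > 0, StageOK X s ρ) ∧ (∀ s, Small s (univ : Set X) → ∀ ρ, StageOK X s ρ)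

/-! ## sub-modules of the stage theorem (suggested) -/

/-- SF, small forests. -/
def SFStmt (X : Type u) [MetricSpace X] : Prop :=
  ∀ (K : ℕ) (D : Fin K → Set X) (sg ε : ℝ), 0 ≤ ε → (∀ j, Small sg (D j)) → (⋃ j, D j) = univ →
    2 ^ (K + 3) * ε ≤ sg →
    ∀ (V : Type w) (E : Type w') [Finite V] [Finite E] [Nonempty E] (e1 e2 : E → V) (pos : V → X) (sv : V → Set X)
      (se : E → Set X) (A : Set V),
      (∀ v, pos v ∈ sv v) →
      (∀ e, Small ε (sv (e1 e) ∪ se e ∪ sv (e2 e))) →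
      -- every vertex has a path to `A` of size at most `ε`
      (∀ v, ∃ (l : List (E × V)) (a : V), a ∈ A ∧
        List.IsChain (fun p q : E × V => (e1 q.1 = p.2 ∧ e2 q.1 = q.2) ∨
          (e2 q.1 = p.2 ∧ e1 q.1 = q.2)) l ∧
        (∀ p ∈ l.head?, (e1 p.1 = v ∧ e2 p.1 = p.2) ∨ (e2 p.1 = v ∧ e1 p.1 = p.2)) ∧
        ((l.getLast?.map Prod.snd).getD v = a) ∧
        Small ε (sv v ∪ {x | ∃ p ∈ l, x ∈ se p.1 ∪ sv p.2})) →
      ∃ (par : V → E × V) (root : V → V) (rk : V → ℕ),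
        (∀ a ∈ A, root a = a) ∧ (∀ v, root v ∈ A) ∧
        (∀ v, v ∉ A → ((e1 (par v).1 = v ∧ e2 (par v).1 = (par v).2) ∨
          (e2 (par v).1 = v ∧ e1 (par v).1 = (par v).2)) ∧
          root v = root (par v).2 ∧ rk (par v).2 < rk v) ∧
        (∀ v, sv v ⊆ closedBall (pos (root v)) (2 * sg)) ∧
        (∀ v, v ∉ A → se (par v).1 ⊆ closedBall (pos (root v)) (2 * sg))

/-- TDEC, trail decomposition along a pairing of the edge ends at the vertices of `C`.
Darts `(e, b)`: `(e, true)` sits at `tgt e`, `(e, false)` sits at `src e`. -/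
def TDecStmt (X : Type u) : Prop :=
  ∀ (n : ℕ) (src tgt : Fin n → X) (C : Set X) (π : Fin n × Bool → Fin n × Bool),
    (∀ d, dtgt src tgt d ∈ C → dtgt src tgt (π d) = dtgt src tgt d ∧ π (π d) = d ∧ π d ≠ d) →
    ∃ (L M : List (List (Fin n × Bool))),
      -- open trails
      (∀ l ∈ L, ∃ a b, IsTr src tgt a l b ∧ a ∉ C ∧ b ∉ C ∧ l ≠ []) ∧
      -- closed trails inside `C`
      (∀ l ∈ M, ∃ a ∈ C, IsTr src tgt a l a ∧ l ≠ [] ∧ ∀ d ∈ l, dsrc src tgt d ∈ C) ∧
      -- consecutive edges are paired, inner vertices are in `C`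
      (∀ l ∈ L ++ M, List.IsChain (fun d d' => dtgt src tgt d ∈ C ∧ π d = (d'.1, !d'.2)) l) ∧
      (∀ l ∈ M, ∀ d ∈ l.getLast?, ∀ d' ∈ l.head?, π d = (d'.1, !d'.2)) ∧
      -- every edge exactly once
      ((L ++ M).flatten.map Prod.fst).Nodup ∧ (∀ e, e ∈ (L ++ M).flatten.map Prod.fst)

/-- ELIM, elimination of the vertices of `U` cell by cell. -/
def ElimStmt (X : Type u) [MetricSpace X] : Prop :=
  ∀ (K : ℕ) (D : Fin K → Set X) (sg δ : ℝ), 0 ≤ δ → (∀ j, Small sg (D j)) →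
    (⋃ j, D j) = univ → 2 ^ (K + 4) * δ ≤ sg →
    ∀ (n : ℕ) (src tgt : Fin n → X) (sp : Fin n → Set X) (A U : Finset X),
      GraphOK src tgt sp A U → (∀ e, (src e ∈ U ∨ tgt e ∈ U) → Small δ (sp e)) →
      (∀ u ∈ U, Even (degF src tgt u)) →
      ∀ (par : X → Fin n × X) (root : X → X) (rk : X → ℕ),
        ForestOK src tgt sp A U par root rk δ →
        ∃ L M : List (List (Fin n × Bool)), OpenTrails src tgt A U L ∧
          ClosedTrails src tgt U M ∧ CoversInc src tgt U (L ++ M) ∧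
          (∀ l ∈ L ++ M, Small (4 * sg) (spL sp l)) ∧
          openCount src tgt L ≤ 3 * (A.card + U.card) ^ 2

/-- INS, insertion of the closed trails into the open ones. -/
def InsStmt (X : Type u) [MetricSpace X] : Prop :=
  ∀ (K : ℕ) (D : Fin K → Set X) (sg s' : ℝ), 0 ≤ s' → (∀ j, Small sg (D j)) →
    (⋃ j, D j) = univ → 2 ^ (K + 3) * (8 * s') ≤ sg →
    ∀ (n : ℕ) (src tgt : Fin n → X) (sp : Fin n → Set X) (A U : Finset X),
      GraphOK src tgt sp A U →
      ∀ (par : X → Fin n × X) (root : X → X) (rk : X → ℕ),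
        ForestOK src tgt sp A U par root rk s' →
        ∀ L M : List (List (Fin n × Bool)), OpenTrails src tgt A U L →
          ClosedTrails src tgt U M → CoversInc src tgt U (L ++ M) →
          (∀ l ∈ L ++ M, Small s' (spL sp l)) →
          ∃ L' : List (List (Fin n × Bool)), OpenTrails src tgt A U L' ∧
            CoversInc src tgt U L' ∧ (∀ l ∈ L', Small (4 * sg) (spL sp l)) ∧
            openCount src tgt L' ≤ openCount src tgt L

/-! ## the stage theorem for typed walks -/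

namespace EdgeSys

variable {X : Type u} [MetricSpace X] {ι : Type v} (𝓔 : EdgeSys X ι)

/-- support of a typed walk, including its ends -/
def tsup (w : TW X ι) : Set X := 𝓔.supW w.2.1 ∪ {w.1, w.2.2}

/-- a typed walk is incident with `U` -/
def Inc (U : Set X) (w : TW X ι) : Prop := w.1 ∈ U ∨ w.2.2 ∈ U

open Classical in
/-- walk version of the stage property, with a multiset `D` of closed walks based at points of
`U` (decorations) which have to be inserted; non-closed results through a vertex `u` carrying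
many decorations receive one of them. -/
def StageW (s ρ : ℝ) : Prop :=
  ∀ (P D : Multiset (TW X ι)) (A U : Finset X) (δ : ℝ), 0 ≤ δ →
    (∀ x ∈ A, x ∉ U) →
    (∀ w ∈ P, 𝓔.TWok w ∧ (w.1 ∈ A ∨ w.1 ∈ U) ∧ (w.2.2 ∈ A ∨ w.2.2 ∈ U)) →
    (∀ w ∈ D, 𝓔.TWok w ∧ w.1 ∈ U ∧ w.2.2 = w.1 ∧ 𝓔.supW w.2.1 ⊆ closedBall w.1 δ) →
    (∀ w ∈ P, Inc (↑U : Set X) w → Small ρ (𝓔.tsup w)) →
    (∀ u ∈ U, Even (degW P u)) →
    (∀ u ∈ U, ∃ a ∈ A, ∃ l, WChain P u l a ∧ Small ρ ({u} ∪ {x | ∃ w ∈ l, x ∈ 𝓔.tsup w})) →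
    ∃ Q : Multiset (TW X ι),
      (∀ w ∈ Q, 𝓔.TWok w ∧ w.1 ∈ A ∧ w.2.2 ∈ A ∧ Small (s + 2 * δ) (𝓔.tsup w)) ∧
      Asm (und (P.filter (Inc (↑U : Set X))) + und D) (und Q) ∧
      (∀ v ∈ A, degW Q v = degW (P.filter (Inc (↑U : Set X))) v) ∧
      (∀ r : Setoid X, (∀ w ∈ P, r w.1 w.2.2) → ∀ w ∈ Q, r w.1 w.2.2) ∧
      (∀ w ∈ Q, w.1 ≠ w.2.2 → ∃ u ∈ U, ∃ w1 w2, w.2.1 = w1 ++ w2 ∧ 𝓔.IsW w.1 w1 u ∧
        (3 * (A.card + U.card) ^ 2 ≤ D.countP (fun d => d.1 = u) →
          ∃ d ∈ D, d.1 = u ∧ ∀ i ∈ items d.2.1, i ∈ items w.2.1))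

def StageWStmt : Prop := ∀ s ρ, StageOK X s ρ → 𝓔.StageW s ρ

end EdgeSys

end Pool.Agent.EU
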