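import Pool.Agent.Helper17_EU.DefsC

/-! # Towers of reserved arcs and the run at level `m` -/

open Set Metric Topology unitInterval

noncomputable section

namespace Pool.Agent.EU

universe u v

/-- decoration of a tower: arcs are given by their indices at the level of the decoration -/
structure Deco (X : Type u) (ι : Type v) where
  base : X
  pre : List ℕ
  mrk : Option ℕ
  pt : X
  post : List ℕ
  lm : ι ⊕ ℕ

namespace EdgeSys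

variable {X : Type u} [MetricSpace X] {ι : Type v} (𝓔 : EdgeSys X ι)

/-- Tower data. At every level `n`: vertices `U n`, free arcs `FA n`, decorations `DV n` based at
points of `U (n-1)`, decorations `DS n` attached to arcs of lower levels (host, time), pocket roots
`PK n` (points of `U n` lying on arcs of lower levels (host, time)). -/
structure Tower where
  arc : ℕ → ℕ → 𝓔.Arc
  U : ℕ → Finset X
  FA : ℕ → List ℕ
  DV : ℕ → List (Deco X ι)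
  DS : ℕ → List (Deco X ι × (ℕ × ℕ) × I)
  PK : ℕ → List (X × (ℕ × ℕ) × I)
  κ : ℕ → ℝ
  ρ : ℕ → ℝ
  r : ℕ → ℝ

namespace Tower

variable {𝓔} (T : 𝓔.Tower)

/-- indices of the reserved arcs of level `n` -/
def ids (n : ℕ) : List ℕ :=
  T.FA n ++ (T.DV n).flatMap (fun D => D.pre ++ D.post) ++
    (T.DS n).flatMap (fun D => D.1.pre ++ D.1.post)

/-- reserved arcs of level `n` -/
def arcs (n : ℕ) : List 𝓔.Arc := (T.ids n).map (T.arc n)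

/-- edges reserved at levels `≤ n` -/
def S (n : ℕ) : Set ι := {i | ∃ l ≤ n, i ∈ 𝓔.EL (T.arcs l)}

open Classical in
/-- vertices of levels `1, ..., n` -/
def V (n : ℕ) : Finset X := (Finset.Icc 1 n).biUnion T.U

open Classical in
/-- pocket roots of level `n` -/
def P (n : ℕ) : Finset X := ((T.PK n).map Prod.fst).toFinset

open Classical in
/-- vertices of level `n` which are not pocket roots -/
def U' (n : ℕ) : Finset X := (T.U n).filter (fun x => x ∉ T.P n)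

/-- degree in the free arcs of levels `≤ n` -/
def dA (n : ℕ) (v : X) : ℕ := ∑ l ∈ Finset.range (n + 1), 𝓔.degL ((T.FA l).map (T.arc l)) v

/-- markers of level `n` (with their positions) -/
def marks (n : ℕ) : List (ℕ × X) :=
  (T.DV n).filterMap (fun D => D.mrk.map (fun k => (k, D.pt))) ++
    (T.DS n).filterMap (fun D => D.1.mrk.map (fun k => (k, D.1.pt)))

/-- conditions on a decoration of level `n` with base point `D.base` -/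
def DecoOK (M : Set X) (n : ℕ) (D : Deco X ι) : Prop :=
  𝓔.ChainA D.base (D.pre.map (T.arc n)) D.pt ∧ 𝓔.ChainA D.pt (D.post.map (T.arc n)) D.base ∧
  𝓔.RL ((D.pre ++ D.post).map (T.arc n)) ⊆ closedBall D.base (T.κ (n + 1)) ∧
  D.base ∈ 𝓔.G ∧ D.pt ∈ 𝓔.G ∩ closedBall D.base (T.κ (n + 1)) ∧
  (∀ k, D.mrk = some k → D.lm = Sum.inr k ∧ D.pt ∈ M) ∧
  (D.mrk = none → ∃ i ∈ 𝓔.EL ((D.pre ++ D.post).map (T.arc n)), D.lm = Sum.inl i)

/-- slots of level `n`: (host, time) -/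
def slots (n : ℕ) : List ((ℕ × ℕ) × I) := (T.DS n).map Prod.snd ++ (T.PK n).map Prod.snd

/-- `(l, j)` is a reserved arc of a level `< n` -/
def IsHost (n : ℕ) (h : ℕ × ℕ) : Prop := 2 ≤ h.1 ∧ h.1 < n ∧ h.2 ∈ T.ids h.1

open Classical in
/-- Conditions on level `n ≥ 2` of the tower (all levels `< n` being given) which also hold for the
bottom level. -/
structure LevelA (n : ℕ) : Prop where
  UG : ∀ x ∈ T.U n, x ∈ 𝓔.G
  Udisj : ∀ x ∈ T.U n, x ∉ T.V (n - 1)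
  PU : ∀ p ∈ T.P n, p ∈ T.U n
  Pnodup : ((T.PK n).map Prod.fst).Nodup
  Phost : ∀ p ∈ T.PK n, T.IsHost n p.2.1 ∧ (T.arc p.2.1.1 p.2.1.2).f p.2.2 = p.1
  Piso : ∀ p ∈ T.P n, ∀ v, (v ∈ T.V (n - 1) ∨ v ∈ T.P n) → v ∈ 𝓔.comp (T.S (n - 1)) p → v = p
  big : 𝓔.BigEnds (T.S (n - 1)) (↑(T.V (n - 1))) (T.r n)
  stage : StageOK X (T.κ n / 4) (T.ρ n)
  ρκ : T.ρ n ≤ T.κ n
  κpos : 0 < T.κ n
  rpos : 0 < T.r n
  rρ : 16 * T.r n ≤ T.ρ n

open Classical in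
/-- Further conditions on the levels `n ≥ 2` above the bottom level. `M` is the set of points where
markers are allowed. -/
structure LevelB (M : Set X) (n : ℕ) : Prop where
  idsNodup : (T.ids n).Nodup
  disjLow : ∀ j ∈ T.ids n, Disjoint (T.arc n j).E (T.S (n - 1))
  disjSame : ∀ j ∈ T.ids n, ∀ j' ∈ T.ids n, j ≠ j' → Disjoint (T.arc n j).E (T.arc n j').E
  rangeY : ∀ j ∈ T.ids n, range (T.arc n j).f ⊆ 𝓔.Y (T.S (n - 1))
  FAends : ∀ j ∈ T.FA n, (T.arc n j).f 0 ∈ T.V n ∧ (T.arc n j).f 1 ∈ T.V n ∧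
    ((T.arc n j).f 0 ∈ T.U' n ∨ (T.arc n j).f 1 ∈ T.U' n)
  FAsmall : ∀ j ∈ T.FA n, Small (3 * T.r n) (range (T.arc n j).f)
  rooted : ∀ u ∈ T.U' n, 𝓔.RPath ((T.FA n).map (T.arc n)) (↑(T.V (n - 1)) ∪ ↑(T.P n))
    (12 * T.r n) u
  DVok : ∀ D ∈ T.DV n, T.DecoOK M n D ∧ D.base ∈ T.U (n - 1) ∧ 3 ≤ n
  DSok : ∀ D ∈ T.DS n, T.DecoOK M n D.1 ∧ T.IsHost n D.2.1 ∧
    (T.arc D.2.1.1 D.2.1.2).f D.2.2 = D.1.base
  κρ : 8 * T.κ (n + 1) ≤ T.ρ n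
  κκ : 8 * T.κ (n + 1) ≤ T.κ n
  κpos' : 0 < T.κ (n + 1)
  κd : ∀ x ∈ T.V (n - 1), ∀ y ∈ T.V (n - 1), x ≠ y → T.κ (n + 1) < dist x y
  marksNodup : ((T.marks n).map Prod.fst).Nodup
  marksLow : ∀ l < n, ∀ k ∈ (T.marks n).map Prod.fst, k ∉ (T.marks l).map Prod.fst

/-- Bottom level data `C0` at level `m`: -/
structure BottomOK (m : ℕ) (η : ℝ) (F : Set ι) (C0 : Multiset (TW X ι)) : Prop where
  noFA : T.FA m = [] 
  noDV : T.DV m = []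
  noDV' : T.DV (m + 1) = []
  noDS : T.DS m = []
  ends : ∀ w ∈ C0, 𝓔.TWok w ∧ w.1 ∈ T.V m ∧ w.2.2 ∈ T.V m ∧ w.2.2 ∈ 𝓔.comp (T.S (m - 1)) w.1
  good : ∀ w ∈ C0, ∀ s ∈ w.2.1, 𝓔.GoodStep η s
  single : ∀ w ∈ C0, w.1 ∈ T.V (m - 1) → w.2.2 ∈ T.V (m - 1) →
    ∃ i b, w.2.1 = [Step.edge i b]
  small : ∀ w ∈ C0, (∃ i b, w.2.1 = [Step.edge i b]) ∨ Small (2 * T.r m) (𝓔.tsup w)
  items : ∀ x ∈ (C0.map (fun w => (items w.2.1 : Multiset (ι ⊕ ℕ)))).sum, ∃ i, x = Sum.inl i ∧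
    i ∉ T.S (m - 1)
  nodup : (C0.map (fun w => (Pool.Agent.EU.items w.2.1 : Multiset (ι ⊕ ℕ)))).sum.Nodup
  even : ∀ v ∈ T.V m, Even (degW C0 v + T.dA (m - 1) v)
  rooted : ∀ u ∈ T.U' m, ∃ a, (a ∈ T.V (m - 1) ∨ a ∈ T.P m) ∧ ∃ l, WChain C0 u l a ∧
    Small (16 * T.r m) ({u} ∪ {x | ∃ w ∈ l, x ∈ 𝓔.tsup w})

/-! ### contents of arcs and decorations -/

/-- a choice of base walks for all arcs -/
abbrev BW (X : Type u) (ι : Type v) := ℕ → ℕ → I → I → List (Step X ι)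

/-- the base walks run along the arcs of the levels `< m` -/
def BWok (m : ℕ) (η : ℝ) (F : Set ι) (bw : BW X ι) : Prop :=
  ∀ n < m, ∀ j ∈ T.ids n, ∀ s t : I, s ≤ t → (T.arc n j).f s ∈ 𝓔.G → (T.arc n j).f t ∈ 𝓔.G →
    𝓔.Along (T.arc n j) η F s (bw n j s t) t

end Tower

/-- run along an arc and insert closed walks at the given (sorted) times -/
def build {X : Type u} {ι : Type v} (bw : I → I → List (Step X ι)) :
    I → List (I × ℕ × List (Step X ι)) → List (Step X ι)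
  | s, [] => bw s 1
  | s, (t, _, w) :: L => bw s t ++ w ++ build bw t L

namespace Tower

variable {𝓔} (T : 𝓔.Tower)

open Classical in
/-- the slots on the arc `(n, j)` coming from the levels `l` with `n < l ≤ m`, with the closed
walks `SW` put into them: (time, level, walk) -/
def slotsOn (m : ℕ) (SW : ℕ → List (List (Step X ι))) (n j : ℕ) :
    List (I × ℕ × List (Step X ι)) :=
  (List.range (m + 1)).flatMap (fun l =>
    ((T.slots l).zip (SW l)).filterMap (fun p =>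
      if n < l ∧ p.1.1 = (n, j) then some (p.1.2, l, p.2) else none))

open Classical in
/-- content of the arc `(n, j)` -/
def cont (m : ℕ) (bw : BW X ι) (SW : ℕ → List (List (Step X ι))) (n j : ℕ) : List (Step X ι) :=
  build (bw n j) 0 ((T.slotsOn m SW n j).insertionSort (fun a b => a.1 ≤ b.1))

/-- content of a decoration of level `n` -/
def dcont (m : ℕ) (bw : BW X ι) (SW : ℕ → List (List (Step X ι))) (n : ℕ) (D : Deco X ι) :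
    List (Step X ι) :=
  D.pre.flatMap (T.cont m bw SW n) ++
    (match D.mrk with
      | none => []
      | some k => [Step.mark k D.pt]) ++
    D.post.flatMap (T.cont m bw SW n)

/-- all closed walks in the slots of level `n` are closed walks at the right point, of size at most
`κ n` -/
def SWok (SW : ℕ → List (List (Step X ι))) (n : ℕ) : Prop :=
  List.Forall₂ (fun (h : (ℕ × ℕ) × I) (w : List (Step X ι)) =>
    𝓔.IsW ((T.arc h.1.1 h.1.2).f h.2) w ((T.arc h.1.1 h.1.2).f h.2) ∧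
    𝓔.supW w ⊆ closedBall ((T.arc h.1.1 h.1.2).f h.2) (T.κ n)) (T.slots n) (SW n)

open Classical in
/-- properties of the walks over `V n`, `n < m` -/
def COK (m : ℕ) (bw : BW X ι) (SW : ℕ → List (List (Step X ι))) (C : Multiset (TW X ι)) (n : ℕ) :
    Prop :=
  ∀ w ∈ C, 𝓔.TWok w ∧ w.1 ∈ T.V n ∧ w.2.2 ∈ T.V n ∧
    ((∃ i b, w.2.1 = [Step.edge i b]) ∨ Small (T.κ (n + 1)) (𝓔.tsup w)) ∧
    ((∃ i b, w.2.1 = [Step.edge i b]) ∨ w.1 = w.2.2 ∨ n + 1 = m ∨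
      ∃ u ∈ T.U' (n + 1), ∃ w1 w2, w.2.1 = w1 ++ w2 ∧ 𝓔.IsW w.1 w1 u ∧
        (3 * (T.V (n + 1)).card ^ 2 ≤ (T.DV (n + 2)).countP (fun D => D.base = u) →
          ∃ D ∈ T.DV (n + 2), D.base = u ∧
            ∀ i ∈ items (T.dcont m bw SW (n + 2) D), i ∈ items w.2.1))

end Tower

/-- RUN: bottom-up elimination for a tower with bottom level `m`. -/
def RunStmt : Prop :=
  ∀ (T : 𝓔.Tower) (M : Set X) (m : ℕ) (η : ℝ) (F : Set ι) (C0 : Multiset (TW X ι))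
    (bw : Tower.BW X ι),
    2 ≤ m → 0 < η → (∃ p, T.U 1 = {p}) → T.ids 0 = [] → T.ids 1 = [] → T.U 0 = ∅ →
    (∀ n, 2 ≤ n → n ≤ m → T.LevelA n) → (∀ n, 2 ≤ n → n < m → T.LevelB M n) →
    T.BottomOK m η F C0 → T.BWok m η F bw →
    ∃ (C : ℕ → Multiset (TW X ι)) (SW : ℕ → List (List (Step X ι))),
      C m = C0 ∧
      (∀ n, 2 ≤ n → n ≤ m → T.SWok SW n) ∧
      (∀ n, 2 ≤ n → n ≤ m → ∃ pw, SW n =
        (T.DS n).map (fun D => T.dcont m bw SW n D.1) ++ pw) ∧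
      (∀ n, 1 ≤ n → n < m → T.COK m bw SW (C n) n) ∧
      (∀ n, 2 ≤ n → n ≤ m →
        Asm (und (C n) + Multiset.ofList ((T.FA n).map (T.cont m bw SW n)) +
            Multiset.ofList ((T.DV (n + 1)).map (T.dcont m bw SW (n + 1))) +
            Multiset.ofList ((T.DS n).map (fun D => T.dcont m bw SW n D.1)))
          (und (C (n - 1)) + Multiset.ofList (SW n)))

/-- PIECES: the final walk is assembled from the walks over `V (k-1)`, the decorations `DV k`, the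
pieces of the arcs of the levels `< k` and the markers of these levels. -/
def PiecesStmt : Prop :=
  ∀ (T : 𝓔.Tower) (m : ℕ) (bw : Tower.BW X ι) (C : ℕ → Multiset (TW X ι))
    (SW : ℕ → List (List (Step X ι))) (k : ℕ) (Rp : ℕ → ℕ → Multiset (List (Step X ι)))
    (g : List (Step X ι)),
    (∀ n, 2 ≤ n → n ≤ m → ∀ h ∈ T.slots n, T.IsHost n h.1) →
    (∀ n, 2 ≤ n → n ≤ m → (T.ids n).Nodup) →
    (∀ n, 2 ≤ n → n ≤ m → (SW n).length = (T.slots n).length) →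
    (∀ n, 2 ≤ n → n ≤ m →
        Asm (und (C n) + Multiset.ofList ((T.FA n).map (T.cont m bw SW n)) +
            Multiset.ofList ((T.DV (n + 1)).map (T.dcont m bw SW (n + 1))) +
            Multiset.ofList ((T.DS n).map (fun D => T.dcont m bw SW n D.1)))
          (und (C (n - 1)) + Multiset.ofList (SW n))) →
    2 ≤ k → k ≤ m + 1 →
    (∀ n, 2 ≤ n → n < k → ∀ j ∈ T.ids n,
      Asm (Rp n j + Multiset.ofList
        (((T.slotsOn m SW n j).filter (fun p => p.2.1 < k)).map (fun p => p.2.2)))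
        {T.cont m bw SW n j}) →
    T.DV 2 = [] → Asm (und (C 1)) {g} →
    Asm (und (C (k - 1)) + Multiset.ofList ((T.DV k).map (T.dcont m bw SW k)) +
        (∑ n ∈ Finset.Ico 2 k, ((T.ids n : Multiset ℕ).map (Rp n)).sum) +
        (∑ n ∈ Finset.Ico 2 k, Multiset.ofList ((T.marks n).map
          (fun p => ([Step.mark p.1 p.2] : List (Step X ι))))))
      {g}

/-! ### tameness -/

/-- a walk piece which, as long as it avoids the items in `E`, moves by at most `a` and stays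
within `κ` of its ends -/
def Basic (E : Set (ι ⊕ ℕ)) (κ a : ℝ) (w : List (Step X ι)) : Prop :=
  ∀ x y, 𝓔.IsW x w y →
    ((∀ i ∈ items w, i ∉ E) → dist x y ≤ a) ∧
    (∀ w1 w2, w = w1 ++ w2 → (∀ i ∈ items w1, i ∉ E) → 𝓔.supW w1 ⊆ closedBall x κ) ∧
    (∀ w1 w2, w = w1 ++ w2 → (∀ i ∈ items w2, i ∉ E) → 𝓔.supW w2 ⊆ closedBall y κ) ∧
    (∀ w1 w2 w3, w = w1 ++ w2 ++ w3 → (∀ i ∈ items w2, i ∉ E) → Small (2 * κ) (𝓔.supW w2))

/-- TAME: walks assembled from basic pieces with small total displacement -/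
def TameStmt : Prop :=
  ∀ (E : Set (ι ⊕ ℕ)) (κ : ℝ) (D : Multiset (ℝ × List (Step X ι))) (g : List (Step X ι)) (x : X),
    0 ≤ κ → (∀ p ∈ D, 0 ≤ p.1 ∧ 𝓔.Basic E κ p.1 p.2) → Asm (D.map Prod.snd) {g} →
    𝓔.IsW x g x → ∀ w1 w2 w3, g = w1 ++ w2 ++ w3 → (∀ i ∈ items w2, i ∉ E) →
      Small (2 * (κ + (D.map Prod.fst).sum)) (𝓔.supW w2)

/-- CONT: the content of an arc splits into basic pieces and the closed walks of level `< k` -/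
def ContStmt : Prop :=
  ∀ (a : 𝓔.Arc) (η : ℝ) (F : Set ι) (bw : I → I → List (Step X ι))
    (L : List (I × ℕ × List (Step X ι))) (k : ℕ) (κ θ : ℝ) (E : Set (ι ⊕ ℕ)) (Fk : Set ι)
    (Tk : Set I),
    (∀ s t : I, s ≤ t → a.f s ∈ 𝓔.G → a.f t ∈ 𝓔.G → 𝓔.Along a η F s (bw s t) t) →
    L.Pairwise (fun p q => p.1 ≤ q.1) →
    (∀ p ∈ L, a.f p.1 ∈ 𝓔.G ∧ 𝓔.IsW (a.f p.1) p.2.2 (a.f p.1)) →
    (∀ p ∈ L, k ≤ p.2.1 → 𝓔.supW p.2.2 ⊆ closedBall (a.f p.1) κ) →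
    0 ≤ κ → 0 ≤ θ → 𝓔.Fine a Fk Tk θ → Fk ⊆ F → (∀ i ∈ Fk, Sum.inl i ∈ E) →
    (∀ τ ∈ Tk, ∃ p ∈ L, p.1 = τ ∧ k ≤ p.2.1 ∧ ∃ x ∈ items p.2.2, x ∈ E) →
    ∃ Rp : Multiset (List (Step X ι)),
      Asm (Rp + Multiset.ofList ((L.filter (fun p => p.2.1 < k)).map (fun p => p.2.2)))
        {build bw 0 L} ∧
      Rp.card ≤ 1 + (L.filter (fun p => p.2.1 < k)).length ∧
      ∀ w ∈ Rp, 𝓔.Basic E (2 * κ + θ) θ w

/-- CONTFULL: full decomposition of the content of an arc into base walks and closed walks -/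
def ContFullStmt : Prop :=
  ∀ (a : 𝓔.Arc) (η : ℝ) (F : Set ι) (bw : I → I → List (Step X ι))
    (L : List (I × ℕ × List (Step X ι))), 0 ≤ η →
    (∀ s t : I, s ≤ t → a.f s ∈ 𝓔.G → a.f t ∈ 𝓔.G → 𝓔.Along a η F s (bw s t) t) →
    L.Pairwise (fun p q => p.1 ≤ q.1) →
    (∀ p ∈ L, a.f p.1 ∈ 𝓔.G ∧ 𝓔.IsW (a.f p.1) p.2.2 (a.f p.1)) →
    𝓔.IsW (a.f 0) (build bw 0 L) (a.f 1) ∧
    (∀ z ∈ 𝓔.supW (build bw 0 L), z ∈ range a.f ∨ ∃ p ∈ L, z ∈ 𝓔.supW p.2.2) ∧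
    (∀ i ∈ a.E, i ∈ F → Sum.inl i ∈ items (build bw 0 L)) ∧
    (∀ p ∈ L, ∀ x ∈ items p.2.2, x ∈ items (build bw 0 L)) ∧
    ∃ Bp : Multiset (List (Step X ι)),
      Asm (Bp + Multiset.ofList (L.map (fun p => p.2.2))) {build bw 0 L} ∧
      (Bp.map (fun w => (items w : Multiset (ι ⊕ ℕ)))).sum.Nodup ∧
      (∀ x ∈ (Bp.map (fun w => (items w : Multiset (ι ⊕ ℕ)))).sum, ∃ i ∈ a.E, x = Sum.inl i) ∧
      (∀ i ∈ a.E, i ∈ F → Sum.inl i ∈ (Bp.map (fun w => (items w : Multiset (ι ⊕ ℕ)))).sum) ∧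
      (∀ w ∈ Bp, ∀ s ∈ w, 𝓔.GoodStep η s) ∧
      (∀ t : I, ∃ w ∈ Bp, ∃ y ∈ 𝓔.supW w, dist (a.f t) y ≤ η)

/-- ALONG: existence of base walks -/
def AlongStmt : Prop := ∀ (a : 𝓔.Arc) (η : ℝ) (F : Set ι), 0 < η → F.Finite → ∀ s t : I, s ≤ t →
  a.f s ∈ 𝓔.G → a.f t ∈ 𝓔.G → ∃ w, 𝓔.Along a η F s w t

/-- NONRICH: clopen neighbourhoods of the points which are not rich -/
def NonRichStmt : Prop := ∀ u ∈ 𝓔.G, ¬ 𝓔.Rich u → ∀ V : Set X, V.Finite → u ∉ V →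
  ∃ K, 𝓔.ClopenG K ∧ u ∈ K ∧ Disjoint K V

/-- CROSS: a walk with small jumps leaving a clopen set uses a crossing edge -/
def CrossStmt : Prop :=
  ∀ (K : Set X) (η : ℝ), 𝓔.ClopenG K → (∀ x ∈ K, ∀ y ∈ 𝓔.G \ K, η < dist x y) →
    ∀ (w : List (Step X ι)) (x y : X), x ∈ 𝓔.G → 𝓔.IsW x w y → (∀ s ∈ w, 𝓔.GoodStep η s) →
      ¬ (x ∈ K ↔ y ∈ K) → ∃ i ∈ 𝓔.cross K, Sum.inl i ∈ items w

/-- the full tower produced by the top-down construction -/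
structure TopOK (T : 𝓔.Tower) (M : Set X) (p : X) : Prop where
  pG : p ∈ 𝓔.G
  U0 : T.U 0 = ∅
  U1 : T.U 1 = {p}
  ids0 : T.ids 0 = []
  ids1 : T.ids 1 = []
  dv2 : T.DV 2 = []
  levelA : ∀ n, 2 ≤ n → T.LevelA n
  levelB : ∀ n, 2 ≤ n → T.LevelB M n
  thin : ∀ n, 1 ≤ n → 𝓔.Thin (T.S n)
  rooted : ∀ n, 1 ≤ n → 𝓔.Rooted (T.S n) (↑(T.V n)) (T.r (n + 1))
  par : ∀ n, 1 ≤ n → 𝓔.Par (T.S n) (T.V n) (T.dA n)
  κ0 : Filter.Tendsto T.κ Filter.atTop (𝓝 0)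
  many : ∀ n, 2 ≤ n → ∀ u ∈ T.U n, 𝓔.Rich u →
    (open Classical in 3 * (T.V n).card ^ 2 ≤ (T.DV (n + 1)).countP (fun D => D.base = u))
  slotsDense : ∀ n, 2 ≤ n → ∀ j ∈ T.ids n, ∀ k θ, 0 < θ → ∃ (l : ℕ) (Fk : Set ι) (Tk : Set I),
    k ≤ l ∧ n < l ∧ Fk.Finite ∧ Tk.Finite ∧ 𝓔.Fine (T.arc n j) Fk Tk θ ∧
    ∀ τ ∈ Tk, ∃ D, (D, (n, j), τ) ∈ T.DS l

/-- TOP -/
def TopStmt : Prop := ∀ M : Set X, 𝓔.Oracle M → 𝓔.EvenCuts → ∃ (T : 𝓔.Tower) (p : X),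
  𝓔.TopOK T M p

/-- BOTTOM: finite graphs approximating `Y S` -/
def BotStmt : Prop :=
  ∀ (S : Set ι) (V : Finset X) (d : X → ℕ) (r η : ℝ) (F : Set ι),
    𝓔.Thin S → V.Nonempty → (∀ v ∈ V, v ∈ 𝓔.G) → 𝓔.Par S V d → (∀ v ∉ V, d v = 0) →
    𝓔.Rooted S (↑V) r → 𝓔.BigEnds S (↑V) r → 0 < r → 0 < η → 8 * η ≤ r → F.Finite →
    ∃ (N P : Finset X) (C0 : Multiset (TW X ι)),
      (∀ x ∈ N, x ∈ 𝓔.G ∧ x ∉ V) ∧ (∀ x ∈ P, x ∈ N) ∧
      (∀ p ∈ P, p ∈ 𝓔.R S ∧ ∀ v, (v ∈ V ∨ v ∈ P) → v ∈ 𝓔.comp S p → v = p) ∧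
      (∀ w ∈ C0, 𝓔.TWok w ∧ (w.1 ∈ V ∨ w.1 ∈ N) ∧ (w.2.2 ∈ V ∨ w.2.2 ∈ N) ∧
        w.2.2 ∈ 𝓔.comp S w.1) ∧
      (∀ w ∈ C0, w.2.1 ≠ [] ∧ ∀ s ∈ w.2.1, 𝓔.GoodStep η s) ∧
      (∀ w ∈ C0, w.1 ∈ V → w.2.2 ∈ V → ∃ i b, w.2.1 = [Step.edge i b]) ∧
      (∀ w ∈ C0, (∃ i b, w.2.1 = [Step.edge i b]) ∨ Small (2 * r) (𝓔.tsup w)) ∧
      (∀ x ∈ (C0.map (fun w => (items w.2.1 : Multiset (ι ⊕ ℕ)))).sum, ∃ i, x = Sum.inl i ∧
        i ∉ S) ∧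
      (C0.map (fun w => (items w.2.1 : Multiset (ι ⊕ ℕ)))).sum.Nodup ∧
      (∀ i ∈ F, i ∉ S → ¬ Small η (𝓔.c i) →
        Sum.inl i ∈ (C0.map (fun w => (items w.2.1 : Multiset (ι ⊕ ℕ)))).sum) ∧
      (∀ v, (v ∈ V ∨ v ∈ N) → Even (degW C0 v + d v)) ∧
      (∀ u ∈ N, u ∉ P → ∃ a, (a ∈ V ∨ a ∈ P) ∧ ∃ l, WChain C0 u l a ∧
        Small (16 * r) ({u} ∪ {x | ∃ w ∈ l, x ∈ 𝓔.tsup w})) ∧
      (∀ x ∈ 𝓔.G, (∃ w ∈ C0, ∃ y ∈ 𝓔.tsup w, dist x y ≤ η) ∨ (∃ y ∈ 𝓔.R S, dist x y ≤ η) ∨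
        ∃ v ∈ V, dist x v ≤ η)

end EdgeSys

end Pool.Agent.EU
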