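import Pool.Agent.Helper17_EU.Defs

/-! # Steps, walks, assembling -/

open Set Metric Topology unitInterval

noncomputable section

namespace Pool.Agent.EU

universe u v

/-- elementary steps: run through an edge, make a small jump in the ground space, or stay for a
while at a marked point -/
inductive Step (X : Type u) (ι : Type v)
  | edge (i : ι) (b : Bool)
  | jump (x y : X)
  | mark (k : ℕ) (x : X)

namespace Step
variable {X : Type u} {ι : Type v}

def rev : Step X ι → Step X ι
  | edge i b => edge i (!b)
  | jump x y => jump y x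
  | mark k x => mark k x

/-- items: edges and markers -/
def item : Step X ι → Option (ι ⊕ ℕ)
  | edge i _ => some (Sum.inl i)
  | jump _ _ => none
  | mark k _ => some (Sum.inr k)

end Step

/-- list of the items of a walk -/
def items {X : Type u} {ι : Type v} (w : List (Step X ι)) : List (ι ⊕ ℕ) := w.filterMap Step.item

/-- reversed walk -/
def revW {X : Type u} {ι : Type v} (w : List (Step X ι)) : List (Step X ι) :=
  (w.map Step.rev).reverse

namespace EdgeSys

variable {X : Type u} [MetricSpace X] {ι : Type v} (𝓔 : EdgeSys X ι)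

def src : Step X ι → X
  | .edge i b => if b then 𝓔.φ i 0 else 𝓔.φ i 1
  | .jump x _ => x
  | .mark _ x => x

def tgt : Step X ι → X
  | .edge i b => if b then 𝓔.φ i 1 else 𝓔.φ i 0
  | .jump _ y => y
  | .mark _ x => x

def supp : Step X ι → Set X
  | .edge i _ => 𝓔.c i
  | .jump x y => {x, y}
  | .mark _ x => {x}

/-- support of a walk -/
def supW (w : List (Step X ι)) : Set X := {z | ∃ s ∈ w, z ∈ 𝓔.supp s}

/-- `w` is a walk from `x` to `y` -/
inductive IsW : X → List (Step X ι) → X → Prop
  | nil (x : X) : IsW x [] x
  | cons (s : Step X ι) (w : List (Step X ι)) (y : X) : IsW (𝓔.tgt s) w y →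
      IsW (𝓔.src s) (s :: w) y

/-- all jumps have length at most `η` and jump and marker points are ground points -/
def GoodStep (η : ℝ) : Step X ι → Prop
  | .edge _ _ => True
  | .jump x y => x ∈ 𝓔.G ∧ y ∈ 𝓔.G ∧ dist x y ≤ η
  | .mark _ x => x ∈ 𝓔.G

/-- walk pieces along an arc, jumping over small parts which contain no edge of `F` -/
inductive Along (a : 𝓔.Arc) (η : ℝ) (F : Set ι) : I → List (Step X ι) → I → Prop
  | nil (s : I) : a.f s ∈ 𝓔.G → Along a η F s [] s
  | edge (i : ι) (b : Bool) (s t : I) (w : List (Step X ι)) (u : I) : a.Runs i b s t →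
      Along a η F t w u → Along a η F s (.edge i b :: w) u
  | jump (s t : I) (w : List (Step X ι)) (u : I) : s < t → a.f s ∈ 𝓔.G → a.f t ∈ 𝓔.G →
      Small η (a.f '' Icc s t) →
      (∀ i ∈ F, ∀ b s' t', a.Runs i b s' t' → ¬ (s ≤ s' ∧ t' ≤ t)) →
      Along a η F t w u → Along a η F s (.jump (a.f s) (a.f t) :: w) u

end EdgeSys

/-- elementary moves on finite multisets of walks: reverse a walk, join two walks -/
inductive AMove {X : Type u} {ι : Type v} :
    Multiset (List (Step X ι)) → Multiset (List (Step X ι)) → Prop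
  | rev (w : List (Step X ι)) (P : Multiset (List (Step X ι))) : AMove (w ::ₘ P) (revW w ::ₘ P)
  | join (w w' : List (Step X ι)) (P : Multiset (List (Step X ι))) :
      AMove (w ::ₘ w' ::ₘ P) ((w ++ w') ::ₘ P)
  | nil (P : Multiset (List (Step X ι))) : AMove P ([] ::ₘ P)

/-- `Q` is assembled from `P` -/
def Asm {X : Type u} {ι : Type v} (P Q : Multiset (List (Step X ι))) : Prop :=
  Relation.ReflTransGen AMove P Q

/-- typed walks -/
abbrev TW (X : Type u) (ι : Type v) := X × List (Step X ι) × X

namespace EdgeSys

variable {X : Type u} [MetricSpace X] {ι : Type v} (𝓔 : EdgeSys X ι)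

/-- a typed walk is a walk -/
def TWok (w : TW X ι) : Prop := 𝓔.IsW w.1 w.2.1 w.2.2

/-- underlying multiset of step lists -/
def und (P : Multiset (TW X ι)) : Multiset (List (Step X ι)) := P.map (fun w => w.2.1)

open Classical in
/-- number of ends of the walks of `P` at `v` -/
def degW (P : Multiset (TW X ι)) (v : X) : ℕ :=
  P.countP (fun w => w.1 = v) + P.countP (fun w => w.2.2 = v)

/-- undirected chain in a multiset of typed walks -/
inductive WChain (P : Multiset (TW X ι)) : X → List (TW X ι) → X → Prop
  | nil (x : X) : WChain P x [] x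
  | fwd (w : TW X ι) (l : List (TW X ι)) (y : X) : w ∈ P → WChain P w.2.2 l y →
      WChain P w.1 (w :: l) y
  | bwd (w : TW X ι) (l : List (TW X ι)) (y : X) : w ∈ P → WChain P w.1 l y →
      WChain P w.2.2 (w :: l) y

end EdgeSys

end Pool.Agent.EU
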