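import Pool.Agent.Helper17_EU.StmtsF
import Pool.Agent.Helper17_EU.StmtsT

open Set Metric Topology unitInterval

noncomputable section

namespace Pool.Agent.EU

universe u v

variable {X : Type u} [MetricSpace X] {ι : Type v}

theorem oracle1 (𝓔 : EdgeSys X ι) : 𝓔.Oracle univ := by
  intro S hS x hx hr ε hε
  refine ⟨⟨x, [], x, [], none⟩, rfl, ?_⟩
  refine ⟨EdgeSys.ChainA.nil x, EdgeSys.ChainA.nil x, ?_, ?_, hx, ⟨hx, mem_ball_self hε⟩, ?_, ?_⟩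
  · simp [EdgeSys.EDisj]
  · intro z hz
    simp [EdgeSys.RL] at hz
  · intro i hi
    simp at hi
  · intro _
    simp

theorem main_of (X : Type u) [MetricSpace X]
    (seq : ∀ (ι : Type u) (𝓔 : EdgeSys X ι), 𝓔.SeqStmt)
    (lim : ∀ (ι : Type u) (𝓔 : EdgeSys X ι), 𝓔.LimitStmt)
    (ora : ∀ (ι : Type u) (𝓔 : EdgeSys X ι), 𝓔.Oracle2Stmt)
    (har : ∀ (ι : Type u) (𝓔 : EdgeSys X ι), 𝓔.HarrStmt)
    (f2 : Free2Stmt X) (f3 : Free3Stmt X) (xs : XSysStmt X) (ci : CircStmt X)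
    (h : EvenCutProperty X) : Eulerian X := by
  rcases f2 with f2 | f2
  · exact ci.2 f2
  rcases f3 with f3 | f3
  · exact ci.2 f3
  obtain ⟨ι, 𝓔, h1, h2⟩ := xs f2 f3 h
  obtain ⟨t1, ht1⟩ := lim ι 𝓔 univ (seq ι 𝓔 univ (oracle1 𝓔) h1)
  obtain ⟨t2, ht2⟩ := lim ι 𝓔 _ (seq ι 𝓔 _ (ora ι 𝓔 t1 ht1) h1)
  exact ci.1 (har ι 𝓔 t2 ht2 h2)

end Pool.Agent.EU
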