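import Pool.Agent.Helper17_EU.RunStage

/-! # RUN -/

open Set Metric Topology unitInterval

noncomputable section

namespace Pool.Agent.EU

universe u v

namespace EdgeSys

variable {X : Type u} [MetricSpace X] {ι : Type v} {𝓔 : EdgeSys X ι}

namespace Tower

variable {T : 𝓔.Tower} {M : Set X} {m : ℕ} {η : ℝ} {F : Set ι} {bw : Tower.BW X ι}

omit [MetricSpace X] in
theorem tit_und (P : Multiset (TW X ι)) :
    tit (und P) = (P.map (fun w => (Pool.Agent.EU.items w.2.1 : Multiset (ι ⊕ ℕ)))).sum := by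
  unfold tit und
  rw [Multiset.map_map]
  rfl

omit [MetricSpace X] in
theorem wchain_mono {P P' : Multiset (TW X ι)} (h : ∀ w ∈ P, w ∈ P') {x y : X}
    {l : List (TW X ι)} (hl : WChain P x l y) : WChain P' x l y := by
  induction hl with
  | nil x => exact WChain.nil x
  | fwd w l y hw _ ih => exact WChain.fwd w l y (h w hw) ih
  | bwd w l y hw _ ih => exact WChain.bwd w l y (h w hw) ih

theorem Ctx.pre_bottom (H : Ctx T M m η F bw) {C0 : Multiset (TW X ι)}
    (hB : T.BottomOK m η F C0) (SW : ℕ → List (List (Step X ι))) : Pre T m bw SW m C0 := by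
  have hA := H.A m H.two (le_refl _)
  refine ⟨hB.ends, ?_, ?_, ?_, ?_⟩
  · intro w hw
    rcases hB.small w hw with ⟨i, b, h⟩ | h
    · refine Or.inl ⟨i, b, h, ?_⟩
      obtain ⟨j, hj, hj'⟩ := hB.items (Sum.inl i) (by
        rw [← tit_und, mem_tit]
        exact ⟨w.2.1, Multiset.mem_map_of_mem _ hw, by rw [h]; simp [Pool.Agent.EU.items, Step.item]⟩)
      rw [Sum.inl.injEq] at hj
      rw [hj]
      exact hj'
    · exact Or.inr (Small.mono h (le_refl _) (by linarith [hA.rρ]))
  · intro w hw h1 h2 _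
    exact hB.single w hw h1 h2
  · intro v hv
    have h := hB.even v hv
    obtain ⟨k, rfl⟩ : ∃ k, m = k + 1 := ⟨m - 1, by have := H.two; omega⟩
    rw [dA_succ, H.noFA]
    simpa [degL] using h
  · intro u hu
    obtain ⟨a, ha, l, h1, h2⟩ := hB.rooted u hu
    refine ⟨a, ha, l, wchain_mono (fun w hw => Multiset.mem_add.2 (Or.inl hw)) h1, ?_⟩
    exact Small.mono h2 (le_refl _) hA.rρ

theorem Ctx.pre_of_post (H : Ctx T M m η F bw) (hCF : 𝓔.ContFullStmt)
    {SW : ℕ → List (List (Step X ι))} {n : ℕ} (hn : 2 ≤ n) (hnm : n < m)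
    (hSW : ∀ l, n < l → l ≤ m → T.SWok SW l) {C : Multiset (TW X ι)} (hC : Post T n C) :
    Pre T m bw SW n C := by
  have hA := H.A n hn hnm.le
  have hB := H.B n hn hnm
  refine ⟨hC.ends, ?_, ?_, hC.even, ?_⟩
  · intro w hw
    rcases hC.small w hw with ⟨i, b, h, h'⟩ | h
    · exact Or.inl ⟨i, b, h, fun h2 => h' (T.S_mono (by omega) h2)⟩
    · exact Or.inr (Small.mono h (le_refl _) (by linarith [hB.κρ]))
  · intro w hw h1 h2 h3
    rcases hC.small w hw with ⟨i, b, h, h'⟩ | h
    · exact ⟨i, b, h⟩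
    · exfalso
      have h4 := hB.κd _ h1 _ h2 h3
      have h5 := h w.1 (Or.inr (by simp)) w.2.2 (Or.inr (by simp))
      linarith
  · intro u hu
    obtain ⟨w, t, ht, h1, h2⟩ := hB.rooted u hu
    obtain ⟨l, h3, h4⟩ := wchain_of_uchain (m := m) (bw := bw) (SW := SW) C h1
    refine ⟨t, by simpa using ht, l, h3, ?_⟩
    have key : ∀ z ∈ ({u} ∪ {x | ∃ w ∈ l, x ∈ 𝓔.tsup w} : Set X), ∃ y ∈ {u} ∪ 𝓔.chainSet w,
        dist z y ≤ T.κ (n + 1) := by
      rintro z (hz | ⟨q, hq, hz⟩)
      · exact ⟨z, Or.inl hz, by rw [dist_self]; exact hB.κpos'.le⟩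
      · obtain ⟨j, hj, hq', p, hp, hpj⟩ := h4 q hq
        have hsub : range (T.arc n j).f ⊆ 𝓔.chainSet w := by
          intro x hx
          exact ⟨p, hp, by rw [hpj]; exact hx⟩
        subst hq'
        rcases hz with hz | hz | hz
        · obtain ⟨y, hy, hzy⟩ := H.cont_sup hCF hn hnm (T.mem_ids_FA hj) hSW hz
          exact ⟨y, Or.inr (hsub hy), hzy⟩
        · exact ⟨z, Or.inr (hsub ⟨0, hz.symm⟩), by rw [dist_self]; exact hB.κpos'.le⟩
        · exact ⟨z, Or.inr (hsub ⟨1, hz.symm⟩), by rw [dist_self]; exact hB.κpos'.le⟩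
    intro y hy z hz
    obtain ⟨y', hy', hyy⟩ := key y hy
    obtain ⟨z', hz', hzz⟩ := key z hz
    have h5 := h2 y' hy' z' hz'
    rw [dist_comm] at hzz
    linarith [dist_triangle y y' z, dist_triangle y' z' z, hB.κρ, hA.rρ]

/-- the statement proved by downward induction -/
def Claim (T : 𝓔.Tower) (m : ℕ) (bw : Tower.BW X ι) (C0 : Multiset (TW X ι)) (n : ℕ) : Prop :=
  ∃ (C : ℕ → Multiset (TW X ι)) (SW : ℕ → List (List (Step X ι))),
      C m = C0 ∧
      (∀ l, n < l → l ≤ m → T.SWok SW l) ∧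
      (∀ l, n < l → l ≤ m → ∃ pw, SW l =
        (T.DS l).map (fun D => T.dcont m bw SW l D.1) ++ pw) ∧
      (∀ l, n ≤ l → l < m → T.COK m bw SW (C l) l) ∧
      (∀ l, n < l → l ≤ m →
        Asm (und (C l) + Multiset.ofList ((T.FA l).map (T.cont m bw SW l)) +
            Multiset.ofList ((T.DV (l + 1)).map (T.dcont m bw SW (l + 1))) +
            Multiset.ofList ((T.DS l).map (fun D => T.dcont m bw SW l D.1)))
          (und (C (l - 1)) + Multiset.ofList (SW l))) ∧
      (n < m → Post T n (C n))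

theorem COK_congr {SW SW' : ℕ → List (List (Step X ι))} {C : Multiset (TW X ι)} {n : ℕ}
    (h : ∀ l, n + 2 < l → SW l = SW' l) (hC : T.COK m bw SW C n) : T.COK m bw SW' C n := by
  intro w hw
  obtain ⟨h1, h2, h3, h4, h5⟩ := hC w hw
  refine ⟨h1, h2, h3, h4, ?_⟩
  rcases h5 with h5 | h5 | h5 | ⟨u, hu, w1, w2, h6, h7, h8⟩
  · exact Or.inl h5
  · exact Or.inr (Or.inl h5)
  · exact Or.inr (Or.inr (Or.inl h5))
  · refine Or.inr (Or.inr (Or.inr ⟨u, hu, w1, w2, h6, h7, ?_⟩))
    intro h9
    obtain ⟨D, hD, h10, h11⟩ := h8 h9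
    refine ⟨D, hD, h10, ?_⟩
    rw [← T.dcont_congr h D]
    exact h11

theorem Ctx.claim_step (H : Ctx T M m η F bw) (hCF : 𝓔.ContFullStmt) (hST : 𝓔.StageWStmt)
    {C0 : Multiset (TW X ι)} (hB : T.BottomOK m η F C0) {k : ℕ} (hk : 1 ≤ k) (hkm : k + 1 ≤ m)
    (hc : Claim T m bw C0 (k + 1)) : Claim T m bw C0 k := by
  obtain ⟨C, SW, c0, c1, c2, c3, c4, c5⟩ := hc
  have hPre : Pre T m bw SW (k + 1) (C (k + 1)) := by
    rcases Nat.lt_or_ge (k + 1) m with h | h
    · exact H.pre_of_post hCF (by omega) h c1 (c5 h)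
    · have : k + 1 = m := le_antisymm hkm h
      rw [this, c0]
      exact H.pre_bottom hB SW
  obtain ⟨C', pw, h1, h2, h3, h4⟩ := H.stage hCF hST hk hkm c1 hPre
  set SW' : ℕ → List (List (Step X ι)) := Function.update SW (k + 1)
    ((T.DS (k + 1)).map (fun D => T.dcont m bw SW (k + 1) D.1) ++
      (T.PK (k + 1)).map (fun p => pw p.1)) with hSW'
  set C'' : ℕ → Multiset (TW X ι) := Function.update C k C' with hC''
  have hne : ∀ l, l ≠ k + 1 → SW' l = SW l := fun l hl => by
    rw [hSW', Function.update_of_ne hl]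
  have heq : SW' (k + 1) = ((T.DS (k + 1)).map (fun D => T.dcont m bw SW (k + 1) D.1) ++
      (T.PK (k + 1)).map (fun p => pw p.1)) := by
    rw [hSW', Function.update_self]
  have hCne : ∀ l, l ≠ k → C'' l = C l := fun l hl => by
    rw [hC'', Function.update_of_ne hl]
  have hCeq : C'' k = C' := by
    rw [hC'', Function.update_self]
  have hcg : ∀ l, k + 1 ≤ l → ∀ l', l < l' → SW' l' = SW l' := fun l hl l' hl' =>
    hne l' (by omega)
  have hlev : 2 ≤ k + 1 := by omega
  have hA := H.A (k + 1) hlev hkm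
  refine ⟨C'', SW', ?_, ?_, ?_, ?_, ?_, ?_⟩
  · rw [hCne m (by omega), c0]
  · intro l hl hlm
    rcases Nat.lt_or_ge (k + 1) l with h | h
    · unfold SWok
      rw [hne l (by omega)]
      exact c1 l h hlm
    · have : l = k + 1 := by omega
      subst this
      unfold SWok slots
      rw [heq]
      refine List.rel_append ?_ ?_
      · rw [List.forall₂_map_left_iff, List.forall₂_map_right_iff, List.forall₂_same]
        intro D hD
        have hlt : k + 1 < m := by
          rcases Nat.lt_or_ge (k + 1) m with h | h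
          · exact h
          · have : k + 1 = m := le_antisymm hkm h
            rw [this, H.noDS] at hD
            simp at hD
        have hBk := H.B (k + 1) hlev hlt
        obtain ⟨h5, h6, h7⟩ := hBk.DSok D hD
        obtain ⟨h8, h9⟩ := H.dcont_ok hCF hlev hlt c1 h5 (fun j hj => T.mem_ids_DS hD hj)
        rw [h7]
        refine ⟨h8, h9.trans (closedBall_subset_closedBall ?_)⟩
        linarith [hBk.κκ, hBk.κpos', hA.κpos]
      · rw [List.forall₂_map_left_iff, List.forall₂_map_right_iff, List.forall₂_same]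
        intro p hp
        obtain ⟨h5, h6⟩ := hA.Phost p hp
        rw [h6]
        exact h1 p.1 ((T.mem_P).2 ⟨p, hp, rfl⟩)
  · intro l hl hlm
    rcases Nat.lt_or_ge (k + 1) l with h | h
    · obtain ⟨pw', hpw⟩ := c2 l h hlm
      refine ⟨pw', ?_⟩
      rw [hne l (by omega), hpw]
      congr 1
      refine List.map_congr_left ?_
      intro D _
      exact T.dcont_congr (fun l' hl' => (hcg l h.le l' hl').symm) D.1
    · have : l = k + 1 := by omega
      subst this
      refine ⟨(T.PK (k + 1)).map (fun p => pw p.1), ?_⟩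
      rw [heq]
      congr 1
      refine List.map_congr_left ?_
      intro D _
      exact T.dcont_congr (fun l' hl' => (hcg (k + 1) (le_refl _) l' hl').symm) D.1
  · intro l hl hlm
    rcases Nat.lt_or_ge k l with h | h
    · rw [hCne l (by omega)]
      exact COK_congr (fun l' hl' => (hne l' (by omega)).symm) (c3 l h hlm)
    · have : l = k := by omega
      subst this
      rw [hCeq]
      exact COK_congr (fun l' hl' => (hne l' (by omega)).symm) h3
  · intro l hl hlm
    rcases Nat.lt_or_ge (k + 1) l with h | h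
    · have h5 := c4 l h hlm
      rw [hCne l (by omega), hCne (l - 1) (by omega), hne l (by omega)]
      have e1 : T.cont m bw SW' l = T.cont m bw SW l := by
        funext j
        exact T.cont_congr (hcg l h.le)
      have e2 : T.dcont m bw SW' (l + 1) = T.dcont m bw SW (l + 1) := by
        funext D
        exact T.dcont_congr (hcg (l + 1) (by omega)) D
      have e3 : T.dcont m bw SW' l = T.dcont m bw SW l := by
        funext D
        exact T.dcont_congr (hcg l h.le) D
      rw [e1, e2, e3]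
      exact h5
    · have : l = k + 1 := by omega
      subst this
      rw [hCne (k + 1) (by omega), Nat.add_sub_cancel, hCeq, heq]
      have e1 : T.cont m bw SW' (k + 1) = T.cont m bw SW (k + 1) := by
        funext j
        exact T.cont_congr (hcg (k + 1) (le_refl _))
      have e2 : T.dcont m bw SW' (k + 1 + 1) = T.dcont m bw SW (k + 1 + 1) := by
        funext D
        exact T.dcont_congr (hcg (k + 1 + 1) (by omega)) D
      have e3 : T.dcont m bw SW' (k + 1) = T.dcont m bw SW (k + 1) := by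
        funext D
        exact T.dcont_congr (hcg (k + 1) (le_refl _)) D
      rw [e1, e2, e3]
      refine (h4.add_right _).trans (Asm.of_eq ?_)
      rw [← Multiset.coe_add]
      abel
  · intro _
    rw [hCeq]
    exact h2

theorem run_stmt (hCF : 𝓔.ContFullStmt) (hST : 𝓔.StageWStmt) : 𝓔.RunStmt := by
  intro T M m η F C0 bw h2 hη hU1 hids0 hids1 hU0 hA hB hbot hbw
  have H : Ctx T M m η F bw := ⟨h2, hη, hU0, hids0, hids1, hA, hB, hbot.noFA, hbot.noDV,
    hbot.noDV', hbot.noDS, hbw⟩
  have key : ∀ d n, n + d = m → 1 ≤ n → Claim T m bw C0 n := by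
    intro d
    induction d with
    | zero =>
      intro n hn _
      have : n = m := by omega
      subst this
      refine ⟨fun _ => C0, fun _ => [], rfl, ?_, ?_, ?_, ?_, ?_⟩
      · intro l h1 h2; omega
      · intro l h1 h2; omega
      · intro l h1 h2; omega
      · intro l h1 h2; omega
      · intro h; omega
    | succ d ih =>
      intro n hn h1
      exact H.claim_step hCF hST hbot h1 (by omega) (ih (n + 1) (by omega) (by omega))
  obtain ⟨C, SW, c0, c1, c2, c3, c4, _⟩ := key (m - 1) 1 (by omega) (le_refl _)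
  exact ⟨C, SW, c0, fun n hn hnm => c1 n (by omega) hnm, fun n hn hnm => c2 n (by omega) hnm,
    fun n hn hnm => c3 n hn hnm, fun n hn hnm => c4 n (by omega) hnm⟩

end Tower

end EdgeSys

end Pool.Agent.EU
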