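import Pool.Agent.Helper17_EU.TowerCont

/-! # RUN: one stage -/

open Set Metric Topology unitInterval

noncomputable section

namespace Pool.Agent.EU

universe u v

namespace EdgeSys

variable {X : Type u} [MetricSpace X] {ι : Type v} {𝓔 : EdgeSys X ι}

omit [MetricSpace X] in
open Classical in
theorem asm_group (ps : List X) (hps : ps.Nodup) (R : Multiset (X × List (Step X ι)))
    (hR : ∀ q ∈ R, q.1 ∈ ps) : Asm (R.map Prod.snd) (Multiset.ofList (ps.map (fun p =>
      ((R.filter (fun q => q.1 = p)).map Prod.snd).toList.flatten))) := by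
  induction ps generalizing R with
  | nil =>
    have : R = 0 := Multiset.eq_zero_of_forall_notMem (fun q hq => by simpa using hR q hq)
    subst this
    simpa using Asm.refl _
  | cons p ps ih =>
    rw [List.nodup_cons] at hps
    have h1 := ih hps.2 (R.filter (fun q => ¬ q.1 = p)) (by
      intro q hq
      rw [Multiset.mem_filter] at hq
      have := hR q hq.1
      simp only [List.mem_cons] at this
      exact this.resolve_left hq.2)
    have h2 : Asm (((R.filter (fun q => q.1 = p)).map Prod.snd))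
        {((R.filter (fun q => q.1 = p)).map Prod.snd).toList.flatten} := by
      have := Asm.flatten ((R.filter (fun q => q.1 = p)).map Prod.snd).toList
      rwa [Multiset.coe_toList] at this
    have h3 := h2.add h1
    rw [← Multiset.map_add, Multiset.filter_add_not] at h3
    refine h3.trans (Asm.of_eq ?_)
    rw [List.map_cons, ← Multiset.cons_coe, Multiset.singleton_add]
    congr 2
    refine List.map_congr_left ?_
    intro q hq
    have hqp : q ≠ p := fun h => hps.1 (h ▸ hq)
    have h4 : ((R.filter (fun q => ¬ q.1 = p)).filter (fun x => x.1 = q)) =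
        R.filter (fun x => x.1 = q) := by
      rw [Multiset.filter_filter]
      refine Multiset.filter_congr ?_
      intro x _
      constructor
      · exact fun h => h.1
      · exact fun h => ⟨h, fun h' => hqp (h.symm.trans h')⟩
    rw [h4]

omit [MetricSpace X] in
theorem degW_ofList_map {α : Type*} (L : List α) (g : α → TW X ι) (v : X) :
    (open Classical in degW (Multiset.ofList (L.map g)) v =
      L.countP (fun a => (g a).1 = v) + L.countP (fun a => (g a).2.2 = v)) := by
  classical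
  simp only [degW, Multiset.coe_countP, List.countP_map]
  rfl

omit [MetricSpace X] in
theorem degW_pos {P : Multiset (TW X ι)} {v : X} :
    0 < degW P v ↔ ∃ w ∈ P, w.1 = v ∨ w.2.2 = v := by
  classical
  unfold degW
  constructor
  · intro h
    rcases Nat.eq_zero_or_pos (P.countP (fun w => w.1 = v)) with h1 | h1
    · have h2 : 0 < P.countP (fun w => w.2.2 = v) := by omega
      obtain ⟨w, hw, h3⟩ := Multiset.countP_pos.1 h2
      exact ⟨w, hw, Or.inr h3⟩
    · obtain ⟨w, hw, h3⟩ := Multiset.countP_pos.1 h1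
      exact ⟨w, hw, Or.inl h3⟩
  · rintro ⟨w, hw, h | h⟩
    · have : 0 < P.countP (fun w => w.1 = v) := Multiset.countP_pos.2 ⟨w, hw, h⟩
      omega
    · have : 0 < P.countP (fun w => w.2.2 = v) := Multiset.countP_pos.2 ⟨w, hw, h⟩
      omega

theorem closed_flatten {p : X} {L : List (List (Step X ι))} (h : ∀ w ∈ L, 𝓔.IsW p w p) :
    𝓔.IsW p L.flatten p := by
  induction L with
  | nil => exact IsW.nil _
  | cons w L ih =>
    rw [List.flatten_cons]
    exact (h w (by simp)).append (ih (fun v hv => h v (by simp [hv])))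

theorem small_pair {x y : X} {r : ℝ} (h : Small r {x, y}) : dist x y ≤ r :=
  h x (by simp) y (by simp)

/-- a single edge as typed walk -/
theorem tsup_single {w : TW X ι} {i : ι} {b : Bool} (h : w.2.1 = [Step.edge i b])
    (hw : 𝓔.TWok w) : 𝓔.tsup w = 𝓔.c i ∧ ((w.1 = 𝓔.φ i 0 ∧ w.2.2 = 𝓔.φ i 1) ∨
      (w.1 = 𝓔.φ i 1 ∧ w.2.2 = 𝓔.φ i 0)) := by
  obtain ⟨x, l, y⟩ := w
  simp only at h
  subst h
  unfold TWok at hw
  simp only [IsW.cons_iff, IsW.nil_iff] at hw
  obtain ⟨h1, h2⟩ := hw
  unfold tsup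
  simp only [supW_cons, supW_nil, union_empty]
  constructor
  · subst h1 h2
    have h3 := 𝓔.src_mem_supp (Step.edge i b)
    have h4 := 𝓔.tgt_mem_supp (Step.edge i b)
    rw [union_eq_left.2]
    · rfl
    · rintro z (rfl | rfl)
      · exact h3
      · exact h4
  · subst h1 h2
    cases b
    · right; simp [src, tgt]
    · left; simp [src, tgt]

namespace Tower

variable {T : 𝓔.Tower} {M : Set X} {m : ℕ} {η : ℝ} {F : Set ι} {bw : Tower.BW X ι}

/-- typed contents of the free arcs of level `n` -/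
def tcont (T : 𝓔.Tower) (m : ℕ) (bw : Tower.BW X ι) (SW : ℕ → List (List (Step X ι))) (n : ℕ) :
    Multiset (TW X ι) :=
  Multiset.ofList ((T.FA n).map (fun j =>
    ((T.arc n j).f 0, T.cont m bw SW n j, (T.arc n j).f 1)))

/-- preconditions of the stage `n` -/
structure Pre (T : 𝓔.Tower) (m : ℕ) (bw : Tower.BW X ι) (SW : ℕ → List (List (Step X ι)))
    (n : ℕ) (C : Multiset (TW X ι)) : Prop where
  ends : ∀ w ∈ C, 𝓔.TWok w ∧ w.1 ∈ T.V n ∧ w.2.2 ∈ T.V n ∧ w.2.2 ∈ 𝓔.comp (T.S (n - 1)) w.1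
  small : ∀ w ∈ C, (∃ i b, w.2.1 = [Step.edge i b] ∧ i ∉ T.S (n - 1)) ∨
    Small (T.ρ n / 8) (𝓔.tsup w)
  single : ∀ w ∈ C, w.1 ∈ T.V (n - 1) → w.2.2 ∈ T.V (n - 1) → w.1 ≠ w.2.2 →
    ∃ i b, w.2.1 = [Step.edge i b]
  even : ∀ v ∈ T.V n, Even (degW C v + T.dA n v)
  rooted : ∀ u ∈ T.U' n, ∃ a, (a ∈ T.V (n - 1) ∨ a ∈ T.P n) ∧ ∃ l,
    WChain (C + T.tcont m bw SW n) u l a ∧
    Small (T.ρ n) ({u} ∪ {x | ∃ w ∈ l, x ∈ 𝓔.tsup w})

/-- postconditions -/
structure Post (T : 𝓔.Tower) (n : ℕ) (C : Multiset (TW X ι)) : Prop where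
  ends : ∀ w ∈ C, 𝓔.TWok w ∧ w.1 ∈ T.V n ∧ w.2.2 ∈ T.V n ∧ w.2.2 ∈ 𝓔.comp (T.S (n - 1)) w.1
  small : ∀ w ∈ C, (∃ i b, w.2.1 = [Step.edge i b] ∧ i ∉ T.S n) ∨
    Small (T.κ (n + 1)) (𝓔.tsup w)
  even : ∀ v ∈ T.V n, Even (degW C v + T.dA n v)

end Tower


namespace Tower

variable {T : 𝓔.Tower} {M : Set X} {m : ℕ} {η : ℝ} {F : Set ι} {bw : Tower.BW X ι}

theorem mem_tcont {SW : ℕ → List (List (Step X ι))} {n : ℕ} {w : TW X ι}
    (h : w ∈ T.tcont m bw SW n) : ∃ j ∈ T.FA n,
      w = ((T.arc n j).f 0, T.cont m bw SW n j, (T.arc n j).f 1) := by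
  unfold tcont at h
  simp only [Multiset.mem_coe, List.mem_map] at h
  obtain ⟨j, hj, rfl⟩ := h
  exact ⟨j, hj, rfl⟩

theorem und_tcont {SW : ℕ → List (List (Step X ι))} {n : ℕ} :
    und (T.tcont m bw SW n) = Multiset.ofList ((T.FA n).map (T.cont m bw SW n)) := by
  unfold tcont und
  simp [Function.comp_def]

theorem degW_tcont {SW : ℕ → List (List (Step X ι))} {n : ℕ} (v : X) :
    degW (T.tcont m bw SW n) v = 𝓔.degL ((T.FA n).map (T.arc n)) v := by
  classical
  unfold tcont
  rw [degW_ofList_map]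
  simp only [degL, List.countP_map]
  rfl

theorem dA_succ (n : ℕ) (v : X) :
    T.dA (n + 1) v = T.dA n v + 𝓔.degL ((T.FA (n + 1)).map (T.arc (n + 1))) v := by
  unfold dA
  rw [Finset.sum_range_succ]

theorem Ctx.FA_small (H : Ctx T M m η F bw) {l : ℕ} (hl : l < 2) : T.FA l = [] := by
  have h : ∀ l, T.ids l = [] → T.FA l = [] := by
    intro l h
    unfold ids at h
    simp only [List.append_assoc, List.append_eq_nil_iff] at h
    exact h.1
  interval_cases l
  · exact h 0 H.ids0
  · exact h 1 H.ids1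

theorem Ctx.dA_zero (H : Ctx T M m η F bw) {n : ℕ} (hn : n < m) {v : X} (hv : v ∉ T.V n) :
    T.dA n v = 0 := by
  classical
  unfold dA
  refine Finset.sum_eq_zero ?_
  intro l hl
  rw [Finset.mem_range] at hl
  rcases Nat.lt_or_ge l 2 with h | h
  · rw [H.FA_small h]
    simp [degL]
  · have hB := H.B l h (by omega)
    simp only [degL, Nat.add_eq_zero_iff, List.countP_eq_zero, List.mem_map, decide_eq_true_eq]
    constructor
    · rintro a ⟨j, hj, rfl⟩ rfl
      exact hv (T.V_mono (by omega) (hB.FAends j hj).1)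
    · rintro a ⟨j, hj, rfl⟩ rfl
      exact hv (T.V_mono (by omega) (hB.FAends j hj).2.1)

/-- from arc chains to walk chains -/
theorem wchain_of_uchain {SW : ℕ → List (List (Step X ι))} {n : ℕ} (C : Multiset (TW X ι))
    {x y : X} {w : List (𝓔.Arc × Bool)} (h : 𝓔.UChain ((T.FA n).map (T.arc n)) x w y) :
    ∃ l, WChain (C + T.tcont m bw SW n) x l y ∧
      ∀ q ∈ l, ∃ j ∈ T.FA n, q = ((T.arc n j).f 0, T.cont m bw SW n j, (T.arc n j).f 1) ∧
        ∃ p ∈ w, p.1 = T.arc n j := by
  induction h with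
  | nil x => exact ⟨[], WChain.nil _, by simp⟩
  | fwd a w y ha h ih =>
    obtain ⟨l, h1, h2⟩ := ih
    rw [List.mem_map] at ha
    obtain ⟨j, hj, rfl⟩ := ha
    have hmem : (((T.arc n j).f 0, T.cont m bw SW n j, (T.arc n j).f 1) : TW X ι) ∈
        C + T.tcont m bw SW n := by
      refine Multiset.mem_add.2 (Or.inr ?_)
      unfold tcont
      exact Multiset.mem_coe.2 (List.mem_map.2 ⟨j, hj, rfl⟩)
    refine ⟨_ :: l, WChain.fwd _ l y hmem h1, ?_⟩
    intro q hq
    rcases List.mem_cons.1 hq with rfl | hq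
    · exact ⟨j, hj, rfl, _, List.mem_cons_self, rfl⟩
    · obtain ⟨j', h3, h4, p, h5, h6⟩ := h2 q hq
      exact ⟨j', h3, h4, p, List.mem_cons_of_mem _ h5, h6⟩
  | bwd a w y ha h ih =>
    obtain ⟨l, h1, h2⟩ := ih
    rw [List.mem_map] at ha
    obtain ⟨j, hj, rfl⟩ := ha
    have hmem : (((T.arc n j).f 0, T.cont m bw SW n j, (T.arc n j).f 1) : TW X ι) ∈
        C + T.tcont m bw SW n := by
      refine Multiset.mem_add.2 (Or.inr ?_)
      unfold tcont
      exact Multiset.mem_coe.2 (List.mem_map.2 ⟨j, hj, rfl⟩)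
    refine ⟨_ :: l, WChain.bwd _ l y hmem h1, ?_⟩
    intro q hq
    rcases List.mem_cons.1 hq with rfl | hq
    · exact ⟨j, hj, rfl, _, List.mem_cons_self, rfl⟩
    · obtain ⟨j', h3, h4, p, h5, h6⟩ := h2 q hq
      exact ⟨j', h3, h4, p, List.mem_cons_of_mem _ h5, h6⟩

theorem Ctx.stage (H : Ctx T M m η F bw) (hCF : 𝓔.ContFullStmt) (hST : 𝓔.StageWStmt)
    {SW : ℕ → List (List (Step X ι))} {k : ℕ} (hk : 1 ≤ k) (hkm : k + 1 ≤ m)
    (hSW : ∀ l, k + 1 < l → l ≤ m → T.SWok SW l) {C : Multiset (TW X ι)}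
    (hP : Pre T m bw SW (k + 1) C) :
    ∃ (C' : Multiset (TW X ι)) (pw : X → List (Step X ι)),
      (∀ p ∈ T.P (k + 1), 𝓔.IsW p (pw p) p ∧ 𝓔.supW (pw p) ⊆ closedBall p (T.κ (k + 1))) ∧
      Post T k C' ∧ T.COK m bw SW C' k ∧
      Asm (und C + Multiset.ofList ((T.FA (k + 1)).map (T.cont m bw SW (k + 1))) +
          Multiset.ofList ((T.DV (k + 2)).map (T.dcont m bw SW (k + 2))))
        (und C' + Multiset.ofList ((T.PK (k + 1)).map (fun p => pw p.1))) := by
  classical
  obtain ⟨n, hn⟩ : ∃ n, n = k + 1 := ⟨_, rfl⟩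
  have hn1 : n - 1 = k := by omega
  rw [← hn] at hkm hSW hP ⊢
  have hn2 : k + 2 = n + 1 := by omega
  rw [hn2]
  have hn' : 2 ≤ n := by omega
  have hA := H.A n hn' hkm
  have hend := hP.ends
  have hsm := hP.small
  have hsi := hP.single
  have hro := hP.rooted
  have hUd := hA.Udisj
  have hPiso := hA.Piso
  have hbig := hA.big
  have hrρ := hA.rρ
  have hrpos := hA.rpos
  have hρκ := hA.ρκ
  have hκpos := hA.κpos
  rw [hn1] at hend hsm hsi hro hUd hPiso hbig
  -- the decorations
  have hDVlt : ∀ D ∈ T.DV (n + 1), n + 1 < m := by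
    intro D hD
    rcases Nat.lt_trichotomy (n + 1) m with h | h | h
    · exact h
    · rw [h, H.noDV] at hD
      simp at hD
    · have : n = m := by omega
      rw [this, H.noDV'] at hD
      simp at hD
  set δ : ℝ := if n + 1 < m then 2 * T.κ (n + 2) else 0 with hδdef
  have hκn : n < m → T.κ (n + 1) ≤ T.κ n / 8 ∧ T.κ (n + 1) ≤ T.ρ n / 8 ∧ 0 < T.κ (n + 1) := by
    intro h
    have hB := H.B n hn' h
    exact ⟨by linarith [hB.κκ], by linarith [hB.κρ], hB.κpos'⟩
  have hκn1 : n + 1 < m → T.κ (n + 2) ≤ T.κ (n + 1) / 8 ∧ 0 < T.κ (n + 2) := by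
    intro h
    have hB := H.B (n + 1) (by omega) h
    exact ⟨by linarith [hB.κκ], hB.κpos'⟩
  have hδ0 : 0 ≤ δ := by
    rw [hδdef]
    split_ifs with h
    · linarith [(hκn1 h).2]
    · exact le_refl _
  have hδ : δ ≤ T.κ n / 16 := by
    rw [hδdef]
    split_ifs with h
    · linarith [(hκn1 h).1, (hκn (by omega)).1, (hκn1 h).2]
    · linarith
  have hDok : ∀ D ∈ T.DV (n + 1), 𝓔.IsW D.base (T.dcont m bw SW (n + 1) D) D.base ∧
      𝓔.supW (T.dcont m bw SW (n + 1) D) ⊆ closedBall D.base δ ∧ D.base ∈ T.U n := by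
    intro D hD
    have hlt := hDVlt D hD
    have hB := H.B (n + 1) (by omega) hlt
    have h1 := hB.DVok D hD
    have h2 := H.dcont_ok hCF (by omega) hlt (fun l hl hl' => hSW l (by omega) hl') h1.1
      (fun j hj => T.mem_ids_DV hD hj)
    have h3 : δ = 2 * T.κ (n + 1 + 1) := by rw [hδdef, if_pos hlt]
    rw [h3]
    refine ⟨h2.1, h2.2, ?_⟩
    have := h1.2.1
    simpa using this
  -- contents
  have hct : ∀ j ∈ T.FA n, n < m ∧
      𝓔.IsW ((T.arc n j).f 0) (T.cont m bw SW n j) ((T.arc n j).f 1) ∧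
      (∀ z ∈ 𝓔.supW (T.cont m bw SW n j) ∪ {(T.arc n j).f 0, (T.arc n j).f 1},
        ∃ y ∈ range (T.arc n j).f, dist z y ≤ T.κ (n + 1)) := by
    intro j hj
    have hlt : n < m := by
      rcases Nat.lt_or_ge n m with h | h
      · exact h
      · have : n = m := by omega
        rw [this, H.noFA] at hj
        simp at hj
    refine ⟨hlt, (H.cont_full hCF hn' hlt (T.mem_ids_FA hj) hSW).1, ?_⟩
    rintro z (hz | hz | hz)
    · exact H.cont_sup hCF hn' hlt (T.mem_ids_FA hj) hSW hz
    · exact ⟨z, ⟨0, hz.symm⟩, by rw [dist_self]; exact (hκn hlt).2.2.le⟩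
    · exact ⟨z, ⟨1, hz.symm⟩, by rw [dist_self]; exact (hκn hlt).2.2.le⟩
  set Pm : Multiset (TW X ι) := C + T.tcont m bw SW n with hPm
  set Dm : Multiset (TW X ι) := Multiset.ofList (((T.DV (n + 1)).filter
    (fun D => D.base ∈ T.U' n)).map (fun D =>
      ((D.base, T.dcont m bw SW (n + 1) D, D.base) : TW X ι))) with hDm
  have hVn : ∀ x, x ∈ T.V n ↔ (x ∈ T.V k ∨ x ∈ T.P n) ∨ x ∈ T.U' n := by
    intro x
    rw [T.mem_V_succ hn', T.mem_U', hn1]
    constructor
    · rintro (h | h)
      · exact Or.inl (Or.inl h)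
      · by_cases h' : x ∈ T.P n
        · exact Or.inl (Or.inr h')
        · exact Or.inr ⟨h, h'⟩
    · rintro ((h | h) | h)
      · exact Or.inl h
      · exact Or.inr (hA.PU _ h)
      · exact Or.inr h.1
  have hVU : ∀ x, x ∈ T.V k → x ∉ T.U' n := fun x hx hx' => hUd x ((T.mem_U').1 hx').1 hx
  have hPU : ∀ x, x ∈ T.P n → x ∉ T.U' n := fun x hx hx' => ((T.mem_U').1 hx').2 hx
  have hVP : ∀ x, x ∈ T.V k → x ∉ T.P n := fun x hx hx' => hUd x (hA.PU _ hx') hx
  have hVG : ∀ x ∈ T.V n, x ∈ 𝓔.comp (T.S k) x → True := fun _ _ _ => trivial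
  -- facts on Pm
  have hPends : ∀ w ∈ Pm, 𝓔.TWok w ∧ w.1 ∈ T.V n ∧ w.2.2 ∈ T.V n ∧
      w.2.2 ∈ 𝓔.comp (T.S k) w.1 := by
    intro w hw
    rcases Multiset.mem_add.1 hw with h | h
    · exact hend w h
    · obtain ⟨j, hj, rfl⟩ := mem_tcont h
      obtain ⟨hlt, h1, _⟩ := hct j hj
      have hB := H.B n hn' hlt
      have h2 := hB.FAends j hj
      refine ⟨h1, h2.1, h2.2.1, ?_⟩
      have h3 := hB.rangeY j (T.mem_ids_FA hj)
      rw [hn1] at h3
      have h4 : IsPreconnected (range (T.arc n j).f) := isPreconnected_range (T.arc n j).f.continuous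
      exact h4.subset_connectedComponentIn ⟨0, rfl⟩ h3 ⟨1, rfl⟩
  have hnotU : ∀ w ∈ T.tcont m bw SW n, Inc (↑(T.U' n) : Set X) w := by
    intro w h
    obtain ⟨j, hj, rfl⟩ := mem_tcont h
    exact ((H.B n hn' (hct j hj).1).FAends j hj).2.2
  obtain ⟨Q, q1, q2, q3, q4, q5⟩ := hST (T.κ n / 4) (T.ρ n) hA.stage Pm Dm (T.V k ∪ T.P n)
    (T.U' n) δ hδ0
    (by
      intro x hx
      rcases Finset.mem_union.1 hx with h | h
      · exact hVU x h
      · exact hPU x h)
    (by
      intro w hw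
      obtain ⟨h1, h2, h3, _⟩ := hPends w hw
      refine ⟨h1, ?_, ?_⟩
      · rw [Finset.mem_union]; exact (hVn _).1 h2
      · rw [Finset.mem_union]; exact (hVn _).1 h3)
    (by
      intro w hw
      rw [hDm, Multiset.mem_coe, List.mem_map] at hw
      obtain ⟨D, hD, rfl⟩ := hw
      rw [List.mem_filter] at hD
      obtain ⟨h1, h2, h3⟩ := hDok D hD.1
      exact ⟨h1, by simpa using hD.2, rfl, h2⟩)
    (by
      intro w hw hinc
      rcases Multiset.mem_add.1 hw with h | h
      · rcases hsm w h with ⟨i, b, h1, h2⟩ | h1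
        · obtain ⟨h3, h4⟩ := tsup_single h1 (hend w h).1
          rw [h3]
          by_contra hcon
          have h5 : ¬ Small (T.r n) (𝓔.c i) := by
            intro h6
            exact hcon (Small.mono h6 (le_refl _) (by linarith))
          have h6 := hbig i h2 h5
          rcases hinc with hinc | hinc
          · rcases h4 with ⟨h4, h7⟩ | ⟨h4, h7⟩
            · rw [h4] at hinc
              exact hVU _ h6.1 hinc
            · rw [h4] at hinc
              exact hVU _ h6.2 hinc
          · rcases h4 with ⟨h4, h7⟩ | ⟨h4, h7⟩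
            · rw [h7] at hinc
              exact hVU _ h6.2 hinc
            · rw [h7] at hinc
              exact hVU _ h6.1 hinc
        · exact Small.mono h1 (le_refl _) (by linarith)
      · obtain ⟨j, hj, rfl⟩ := mem_tcont h
        obtain ⟨hlt, h1, h2⟩ := hct j hj
        have h3 := (H.B n hn' hlt).FAsmall j hj
        intro y hy z hz
        obtain ⟨y', hy', hyy⟩ := h2 y hy
        obtain ⟨z', hz', hzz⟩ := h2 z hz
        have h4 := h3 y' hy' z' hz'
        rw [dist_comm] at hzz
        linarith [dist_triangle y y' z, dist_triangle y' z' z, (hκn hlt).2.1])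
    (by
      intro u hu
      have h1 := hP.even u ((hVn u).2 (Or.inr hu))
      have h2 : T.dA n u = 𝓔.degL ((T.FA n).map (T.arc n)) u := by
        rw [hn, dA_succ, H.dA_zero (by omega) (fun h => hVU u h hu), zero_add, ← hn]
      rw [h2] at h1
      rw [hPm, degW_add, degW_tcont]
      exact h1)
    (by
      intro u hu
      obtain ⟨a, ha, l, h1, h2⟩ := hro u hu
      exact ⟨a, Finset.mem_union.2 ha, l, h1, h2⟩)
  -- facts on Q
  have hcompY : ∀ x, (𝓔.comp (T.S k) x).Nonempty → x ∈ 𝓔.comp (T.S k) x := by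
    intro x hx
    refine mem_connectedComponentIn ?_
    by_contra hcon
    have : 𝓔.comp (T.S k) x = ∅ := connectedComponentIn_eq_empty hcon
    rw [this] at hx
    exact Set.not_nonempty_empty hx
  have hPY : ∀ w ∈ Pm, w.1 ∈ 𝓔.comp (T.S k) w.1 ∧ w.2.2 ∈ 𝓔.comp (T.S k) w.2.2 := by
    intro w hw
    have h1 := (hPends w hw).2.2.2
    refine ⟨hcompY _ ⟨_, h1⟩, ?_⟩
    have h2 := connectedComponentIn_eq h1
    unfold comp at h1 ⊢
    rw [← h2]
    exact h1
  have hsetoid : ∀ w ∈ Q, 𝓔.comp (T.S k) w.1 = 𝓔.comp (T.S k) w.2.2 := by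
    refine q4 (Setoid.ker (𝓔.comp (T.S k))) ?_
    intro w hw
    exact connectedComponentIn_eq (hPends w hw).2.2.2
  have hQcomp : ∀ w ∈ Q, w.2.2 ∈ 𝓔.comp (T.S k) w.1 := by
    intro w hw
    rw [hsetoid w hw]
    have h1 : w.2.2 ∈ T.V k ∪ T.P n := (q1 w hw).2.2.1
    have h2 : 0 < degW Q w.2.2 := by
      rw [degW_pos]
      exact ⟨w, hw, Or.inr rfl⟩
    rw [q3 _ h1, degW_pos] at h2
    obtain ⟨w', hw', h3⟩ := h2
    have h4 := hPY w' (Multiset.mem_filter.1 hw').1
    rcases h3 with h3 | h3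
    · rw [← h3]; exact h4.1
    · rw [← h3]; exact h4.2
  set CU : Multiset (TW X ι) := C.filter (fun w => ¬ Inc (↑(T.U' n) : Set X) w) with hCU
  set Q' : Multiset (TW X ι) := Q + CU with hQ'
  have hCUmem : ∀ w ∈ CU, w ∈ C ∧ ¬ Inc (↑(T.U' n) : Set X) w := fun w hw =>
    Multiset.mem_filter.1 hw
  have hQ'1 : ∀ w ∈ Q', 𝓔.TWok w ∧ (w.1 ∈ T.V k ∨ w.1 ∈ T.P n) ∧
      (w.2.2 ∈ T.V k ∨ w.2.2 ∈ T.P n) ∧ w.2.2 ∈ 𝓔.comp (T.S k) w.1 := by
    intro w hw
    rcases Multiset.mem_add.1 hw with h | h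
    · obtain ⟨h1, h2, h3, _⟩ := q1 w h
      exact ⟨h1, Finset.mem_union.1 h2, Finset.mem_union.1 h3, hQcomp w h⟩
    · obtain ⟨h1, h2⟩ := hCUmem w h
      obtain ⟨h3, h4, h5, h6⟩ := hend w h1
      refine ⟨h3, ?_, ?_, h6⟩
      · exact ((hVn _).1 h4).resolve_right (fun h => h2 (Or.inl h))
      · exact ((hVn _).1 h5).resolve_right (fun h => h2 (Or.inr h))
  have hloop : ∀ w ∈ Q', (w.1 ∈ T.P n ∨ w.2.2 ∈ T.P n) → w.1 = w.2.2 := by
    intro w hw h
    obtain ⟨h1, h2, h3, h4⟩ := hQ'1 w hw
    rcases h with h | h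
    · exact (hPiso _ h _ h3 h4).symm
    · refine hPiso _ h _ h2 ?_
      have h5 := connectedComponentIn_eq h4
      have h6 := hcompY w.1 ⟨_, h4⟩
      unfold comp at h6 ⊢
      rw [← h5]
      exact h6
  have hsmQ' : ∀ w ∈ Q', (∃ i b, w.2.1 = [Step.edge i b] ∧ i ∉ T.S k) ∨
      Small (T.κ n / 2) (𝓔.tsup w) := by
    intro w hw
    rcases Multiset.mem_add.1 hw with h | h
    · exact Or.inr (Small.mono (q1 w h).2.2.2 (le_refl _) (by linarith))
    · rcases hsm w (hCUmem w h).1 with h1 | h1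
      · exact Or.inl h1
      · exact Or.inr (Small.mono h1 (le_refl _) (by linarith))
  set R : Multiset (X × List (Step X ι)) :=
    (Q'.filter (fun w => w.1 ∈ T.P n)).map (fun w => (w.1, w.2.1)) +
      Multiset.ofList (((T.DV (n + 1)).filter (fun D => ¬ D.base ∈ T.U' n)).map
        (fun D => (D.base, T.dcont m bw SW (n + 1) D))) with hRdef
  have hR : ∀ q ∈ R, q.1 ∈ T.P n ∧ 𝓔.IsW q.1 q.2 q.1 ∧
      𝓔.supW q.2 ⊆ closedBall q.1 (T.κ n) := by
    intro q hq
    rcases Multiset.mem_add.1 hq with h | h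
    · rw [Multiset.mem_map] at h
      obtain ⟨w, hw, rfl⟩ := h
      obtain ⟨hw1, hw2⟩ := Multiset.mem_filter.1 hw
      have h1 := hloop w hw1 (Or.inl hw2)
      have h2 := (hQ'1 w hw1).1
      refine ⟨hw2, ?_, ?_⟩
      · unfold TWok at h2
        rw [← h1] at h2
        exact h2
      · rcases hsmQ' w hw1 with ⟨i, b, h3, _⟩ | h3
        · exfalso
          obtain ⟨_, h4⟩ := tsup_single h3 h2
          have h5 : 𝓔.φ i 0 ≠ 𝓔.φ i 1 := fun h => by
            have := 𝓔.inj i h
            exact zero_ne_one this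
          rcases h4 with ⟨h4, h6⟩ | ⟨h4, h6⟩
          · exact h5 (by rw [← h4, ← h6]; exact h1)
          · exact h5 (by rw [← h4, ← h6]; exact h1.symm)
        · intro z hz
          have h4 := h3 z (Or.inl hz) w.1 (Or.inr (by simp))
          rw [mem_closedBall]
          linarith
    · rw [Multiset.mem_coe, List.mem_map] at h
      obtain ⟨D, hD, rfl⟩ := h
      rw [List.mem_filter] at hD
      obtain ⟨h1, h2, h3⟩ := hDok D hD.1
      have h4 : D.base ∉ T.U' n := by simpa using hD.2
      refine ⟨?_, h1, h2.trans (closedBall_subset_closedBall (by linarith))⟩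
      by_contra h5
      exact h4 ((T.mem_U').2 ⟨h3, h5⟩)
  refine ⟨Q'.filter (fun w => ¬ w.1 ∈ T.P n),
    fun p => ((R.filter (fun q => q.1 = p)).map Prod.snd).toList.flatten, ?_, ?_, ?_, ?_⟩
  · intro p hp
    have h1 : ∀ w ∈ ((R.filter (fun q => q.1 = p)).map Prod.snd).toList, 𝓔.IsW p w p ∧
        𝓔.supW w ⊆ closedBall p (T.κ n) := by
      intro w hw
      rw [Multiset.mem_toList, Multiset.mem_map] at hw
      obtain ⟨q, hq, rfl⟩ := hw
      obtain ⟨hq1, rfl⟩ := Multiset.mem_filter.1 hq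
      exact (hR q hq1).2
    exact ⟨closed_flatten (fun w hw => (h1 w hw).1), by
      intro z hz
      obtain ⟨w, hw, hzw⟩ := (𝓔.supW_flatten).1 hz
      exact (h1 w hw).2 hzw⟩
  · refine ⟨?_, ?_, ?_⟩
    · intro w hw
      obtain ⟨hw1, hw2⟩ := Multiset.mem_filter.1 hw
      obtain ⟨h1, h2, h3, h4⟩ := hQ'1 w hw1
      refine ⟨h1, h2.resolve_right hw2, h3.resolve_right ?_, ?_⟩
      · intro h5
        apply hw2
        rw [hloop w hw1 (Or.inr h5)]
        exact h5
      · exact comp_anti (T.S_mono (by omega)) _ h4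
    · intro w hw
      obtain ⟨hw1, hw2⟩ := Multiset.mem_filter.1 hw
      rcases hsmQ' w hw1 with h | h
      · exact Or.inl h
      · refine Or.inr (Small.mono h (le_refl _) ?_)
        rw [← hn]
        linarith
    · intro v hv
      have h1 : degW Q' v = degW (Q'.filter (fun w => ¬ w.1 ∈ T.P n)) v := by
        have h2 : Q' = Q'.filter (fun w => w.1 ∈ T.P n) + Q'.filter (fun w => ¬ w.1 ∈ T.P n) :=
          (Multiset.filter_add_not _ _).symm
        have h3 : degW (Q'.filter (fun w => w.1 ∈ T.P n)) v = 0 := by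
          by_contra h4
          have h5 := Nat.pos_of_ne_zero h4
          rw [degW_pos] at h5
          obtain ⟨w, hw, h6⟩ := h5
          obtain ⟨hw1, hw2⟩ := Multiset.mem_filter.1 hw
          have h7 := hloop w hw1 (Or.inl hw2)
          rcases h6 with h6 | h6
          · exact hVP v hv (h6 ▸ hw2)
          · rw [← h7] at h6
            exact hVP v hv (h6 ▸ hw2)
        conv_lhs => rw [h2]
        rw [degW_add, h3, zero_add]
      have h2 : degW Q' v = degW C v + 𝓔.degL ((T.FA n).map (T.arc n)) v := by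
        rw [hQ', degW_add, q3 v (Finset.mem_union.2 (Or.inl hv)), hPm, Multiset.filter_add,
          degW_add]
        have h3 : (T.tcont m bw SW n).filter (Inc (↑(T.U' n) : Set X)) = T.tcont m bw SW n :=
          Multiset.filter_eq_self.2 hnotU
        rw [h3, degW_tcont]
        have h4 : degW C v = degW (C.filter (Inc (↑(T.U' n) : Set X))) v + degW CU v := by
          rw [← degW_add, hCU, Multiset.filter_add_not]
        rw [h4]
        omega
      rw [← h1, h2]
      have h3 := hP.even v ((hVn v).2 (Or.inl (Or.inl hv)))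
      have h4 : T.dA n v = T.dA k v + 𝓔.degL ((T.FA n).map (T.arc n)) v := by
        rw [hn, dA_succ, ← hn]
      rw [h4] at h3
      have h5 : degW C v + 𝓔.degL ((T.FA n).map (T.arc n)) v + T.dA k v =
        degW C v + (T.dA k v + 𝓔.degL ((T.FA n).map (T.arc n)) v) := by omega
      rw [h5]
      exact h3
  · intro w hw
    obtain ⟨hw1, hw2⟩ := Multiset.mem_filter.1 hw
    obtain ⟨h1, h2, h3, h4⟩ := hQ'1 w hw1
    have h3' : w.2.2 ∈ T.V k := by
      refine h3.resolve_right ?_
      intro h5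
      apply hw2
      rw [hloop w hw1 (Or.inr h5)]
      exact h5
    refine ⟨h1, h2.resolve_right hw2, h3', ?_, ?_⟩
    · rcases hsmQ' w hw1 with ⟨i, b, h, _⟩ | h
      · exact Or.inl ⟨i, b, h⟩
      · refine Or.inr (Small.mono h (le_refl _) ?_)
        rw [← hn]
        linarith
    · rcases Multiset.mem_add.1 hw1 with h | h
      · by_cases heq : w.1 = w.2.2
        · exact Or.inr (Or.inl heq)
        · right; right; right
          obtain ⟨u, hu, w1, w2, h5, h6, h7⟩ := q5 w h heq
          rw [← hn, hn2]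
          refine ⟨u, hu, w1, w2, h5, h6, ?_⟩
          intro h8
          have hcard : (T.V k ∪ T.P n).card + (T.U' n).card = (T.V n).card := by
            rw [← Finset.card_union_of_disjoint]
            · congr 1
              ext x
              rw [Finset.mem_union, Finset.mem_union]
              exact (hVn x).symm
            · rw [Finset.disjoint_left]
              intro x hx
              rcases Finset.mem_union.1 hx with h | h
              · exact hVU x h
              · exact hPU x h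
          have hcount : Dm.countP (fun d => d.1 = u) =
              (T.DV (n + 1)).countP (fun D => D.base = u) := by
            rw [hDm, Multiset.coe_countP, List.countP_map, List.countP_filter]
            refine List.countP_congr ?_
            intro D _
            simp only [Function.comp_apply, decide_eq_true_eq, Bool.and_eq_true]
            constructor
            · exact fun h => h.1
            · exact fun h => ⟨h, h ▸ hu⟩
          rw [hcard, hcount] at h7
          obtain ⟨d, hd, h9, h10⟩ := h7 h8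
          rw [hDm, Multiset.mem_coe, List.mem_map] at hd
          obtain ⟨D, hD, rfl⟩ := hd
          exact ⟨D, (List.mem_filter.1 hD).1, h9, h10⟩
      · by_cases heq : w.1 = w.2.2
        · exact Or.inr (Or.inl heq)
        · exact Or.inl (hsi w (hCUmem w h).1 (h2.resolve_right hw2) h3' heq)
  · have e1 : und C + Multiset.ofList ((T.FA n).map (T.cont m bw SW n)) = und Pm := by
      rw [hPm, und_add, und_tcont]
    have e2 : und Pm = und (Pm.filter (Inc (↑(T.U' n) : Set X))) + und CU := by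
      have h3 : (T.tcont m bw SW n).filter (Inc (↑(T.U' n) : Set X)) = T.tcont m bw SW n :=
        Multiset.filter_eq_self.2 hnotU
      have h4 : C = C.filter (Inc (↑(T.U' n) : Set X)) + CU := (Multiset.filter_add_not _ _).symm
      rw [hPm, Multiset.filter_add, h3]
      conv_lhs => rw [h4]
      simp only [und_add]
      abel
    have e3 : Multiset.ofList ((T.DV (n + 1)).map (T.dcont m bw SW (n + 1))) = und Dm +
        Multiset.ofList (((T.DV (n + 1)).filter (fun D => ¬ D.base ∈ T.U' n)).map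
          (T.dcont m bw SW (n + 1))) := by
      have h5 : (Multiset.ofList (T.DV (n + 1))) =
          (Multiset.ofList (T.DV (n + 1))).filter (fun D => D.base ∈ T.U' n) +
          (Multiset.ofList (T.DV (n + 1))).filter (fun D => ¬ D.base ∈ T.U' n) :=
        (Multiset.filter_add_not _ _).symm
      have h6 := congrArg (Multiset.map (T.dcont m bw SW (n + 1))) h5
      rw [Multiset.map_add] at h6
      simp only [Multiset.filter_coe, Multiset.map_coe] at h6
      rw [h6, hDm]
      congr 1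
      unfold und
      simp [Function.comp_def]
    have e4 : und Q' = und (Q'.filter (fun w => ¬ w.1 ∈ T.P n)) +
        und (Q'.filter (fun w => w.1 ∈ T.P n)) := by
      rw [← und_add, add_comm, Multiset.filter_add_not]
    have e5 : R.map Prod.snd = und (Q'.filter (fun w => w.1 ∈ T.P n)) +
        Multiset.ofList (((T.DV (n + 1)).filter (fun D => ¬ D.base ∈ T.U' n)).map
          (T.dcont m bw SW (n + 1))) := by
      rw [hRdef, Multiset.map_add]
      congr 1
      · unfold und
        rw [Multiset.map_map]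
        rfl
      · rw [Multiset.map_coe, List.map_map]
        rfl
    have a1 := asm_group ((T.PK n).map Prod.fst) hA.Pnodup R (by
      intro q hq
      have h := (hR q hq).1
      rw [T.mem_P] at h
      obtain ⟨p, hp, hpq⟩ := h
      exact List.mem_map.2 ⟨p, hp, hpq⟩)
    rw [List.map_map] at a1
    rw [e1, e2, e3]
    refine Asm.trans (Asm.of_eq (Q := (und (Pm.filter (Inc (↑(T.U' n) : Set X))) + und Dm) +
      (und CU + Multiset.ofList (((T.DV (n + 1)).filter (fun D => ¬ D.base ∈ T.U' n)).map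
          (T.dcont m bw SW (n + 1))))) (by abel)) ?_
    refine (q2.add_right _).trans ?_
    refine Asm.trans (Asm.of_eq (Q := und (Q'.filter (fun w => ¬ w.1 ∈ T.P n)) +
      R.map Prod.snd) ?_) (Asm.add_left _ a1)
    rw [e5, ← add_assoc, ← add_assoc, ← e4, hQ', und_add]

end Tower

end EdgeSys

end Pool.Agent.EU
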