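import Pool.Agent.Helper17_EU.DefsR

/-! # Sequences of walks, tours, perturbation, maximal free arcs: statements -/

open Set Metric Topology unitInterval

noncomputable section

namespace Pool.Agent.EU

universe u v

namespace EdgeSys

variable {X : Type u} [MetricSpace X] {ι : Type v} (𝓔 : EdgeSys X ι)

/-- a sequence of closed walks converging to a tour; markers are located in `M` -/
def SeqData (M : Set X) : Prop :=
  ∃ (p : X) (g : ℕ → List (Step X ι)) (η : ℕ → ℝ) (MK : Set ℕ) (q : ℕ → X),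
    p ∈ 𝓔.G ∧ (∀ m, 𝓔.IsW p (g m) p) ∧ Filter.Tendsto η Filter.atTop (𝓝 0) ∧
    (∀ m, ∀ s ∈ g m, 𝓔.GoodStep (η m) s) ∧ (∀ m, (items (g m)).Nodup) ∧
    (∀ i, ∀ᶠ m in Filter.atTop, Sum.inl i ∈ items (g m)) ∧
    (∀ k ∈ MK, q k ∈ M ∧ ∀ᶠ m in Filter.atTop, Step.mark k (q k) ∈ g m) ∧
    (∀ m k x, Step.mark k x ∈ g m → k ∈ MK ∧ x = q k) ∧
    (∀ θ > 0, ∃ E : Set (ι ⊕ ℕ), E.Finite ∧ (∀ k, Sum.inr k ∈ E → k ∈ MK) ∧
      ∀ᶠ m in Filter.atTop, ∀ w1 w2 w3, g m = w1 ++ w2 ++ w3 → (∀ x ∈ items w2, x ∉ E) →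
        Small θ (𝓔.supW w2)) ∧
    (∀ x ∈ 𝓔.G, ∀ ε > 0, ∀ᶠ m in Filter.atTop, ∃ y ∈ 𝓔.supW (g m), dist x y ≤ ε)

/-- edge-wise Eulerian tours such that the times spent in edges or in points of `M` are dense -/
def IsTour (M : Set X) (h : C(I, X)) : Prop :=
  h 0 = h 1 ∧ Function.Surjective h ∧
  (∀ i, ∃ a b : I, a < b ∧ h ⁻¹' (𝓔.o i) = Ioo a b ∧ InjOn h (Ioo a b)) ∧
  (∀ O : Set I, IsOpen O → O.Nonempty → ∃ t ∈ O, h t ∈ (⋃ i, 𝓔.o i) ∪ M)

/-- HK: the key estimate for the walks produced by RUN from a tower. -/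
def HKStmt : Prop :=
  ∀ (T : 𝓔.Tower) (M : Set X) (p : X), 𝓔.TopOK T M p → ∀ k, 3 ≤ k →
    ∃ (E : Set (ι ⊕ ℕ)) (F0 : Set ι) (η0 : ℝ) (N : ℕ), E.Finite ∧ F0.Finite ∧ 0 < η0 ∧
      (∀ j, Sum.inr j ∈ E → ∃ n, j ∈ (T.marks n).map Prod.fst) ∧ (∀ i, Sum.inl i ∈ E → i ∈ F0) ∧
      ∀ (m : ℕ), N ≤ m → ∀ (T' : 𝓔.Tower) (η : ℝ) (F : Set ι) (C0 : Multiset (TW X ι))
        (bw : Tower.BW X ι) (C : ℕ → Multiset (TW X ι)) (SW : ℕ → List (List (Step X ι)))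
        (g : List (Step X ι)),
        -- `T'` agrees with `T` below level `m`
        (∀ n < m, T'.arc n = T.arc n ∧ T'.U n = T.U n ∧ T'.FA n = T.FA n ∧ T'.DV n = T.DV n ∧
          T'.DS n = T.DS n ∧ T'.PK n = T.PK n) → T'.κ = T.κ → T'.ρ = T.ρ → T'.r = T.r →
        0 < η → η ≤ η0 → F0 ⊆ F →
        T'.LevelA m → T'.BottomOK m η F C0 → T'.BWok m η F bw →
        C m = C0 → (∀ n, 2 ≤ n → n ≤ m → T'.SWok SW n) →
        (∀ n, 2 ≤ n → n ≤ m → ∃ pw, SW n =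
          (T'.DS n).map (fun D => T'.dcont m bw SW n D.1) ++ pw) →
        (∀ n, 1 ≤ n → n < m → T'.COK m bw SW (C n) n) →
        (∀ n, 2 ≤ n → n ≤ m →
          Asm (und (C n) + Multiset.ofList ((T'.FA n).map (T'.cont m bw SW n)) +
              Multiset.ofList ((T'.DV (n + 1)).map (T'.dcont m bw SW (n + 1))) +
              Multiset.ofList ((T'.DS n).map (fun D => T'.dcont m bw SW n D.1)))
            (und (C (n - 1)) + Multiset.ofList (SW n))) →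
        Asm (und (C 1)) {g} → 𝓔.IsW p g p → (∀ s ∈ g, 𝓔.GoodStep η s) →
        ∀ w1 w2 w3, g = w1 ++ w2 ++ w3 → (∀ x ∈ items w2, x ∉ E) →
          Small (12 * T.κ k) (𝓔.supW w2)

/-- SEQ -/
def SeqStmt : Prop := ∀ M : Set X, 𝓔.Oracle M → 𝓔.EvenCuts → 𝓔.SeqData M

/-- L1 -/
def LimitStmt : Prop := ∀ M : Set X, 𝓔.SeqData M → ∃ h : C(I, X), 𝓔.IsTour M h

/-- ORACLE2 -/
def Oracle2Stmt : Prop := ∀ h : C(I, X), 𝓔.IsTour univ h → 𝓔.Oracle (closure (⋃ i, 𝓔.o i))ᶜ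

/-- closed curve strongly irreducible on the interval -/
def StronglyIrr (g : C(I, X)) : Prop :=
  g 0 = g 1 ∧ Function.Surjective g ∧ ∀ J : Set I, IsOpen J → J.Nonempty → g '' Jᶜ ≠ univ

/-- HARR -/
def HarrStmt : Prop := ∀ h : C(I, X), 𝓔.IsTour (closure (⋃ i, 𝓔.o i))ᶜ h →
  (∀ e ⊆ (closure (⋃ i, 𝓔.o i))ᶜ, IsOpen e → IsEmpty (e ≃ₜ Ioo (0 : ℝ) 1)) →
  ∃ g : C(I, X), StronglyIrr g

end EdgeSys

/-! ## the problem: maximal free arcs -/

section problem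

variable (X : Type u) [MetricSpace X]

/-- free arcs -/
def IsFreeArc {X : Type u} [TopologicalSpace X] (e : Set X) : Prop :=
  IsOpen e ∧ Nonempty (e ≃ₜ Ioo (0 : ℝ) 1)

/-- edges: maximal free arcs -/
def IsEdge {X : Type u} [TopologicalSpace X] (e : Set X) : Prop :=
  IsFreeArc e ∧ ∀ e' : Set X, IsFreeArc e' → e ⊆ e' → e' = e

/-- ground space -/
def ground (X : Type u) [TopologicalSpace X] : Set X := (⋃₀ {e : Set X | IsEdge e})ᶜ

/-- `a` and `b` are the end points of the free arc `e` -/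
def HasEnds {X : Type u} [TopologicalSpace X] (e : Set X) (a b : X) : Prop :=
  ∃ φ : e ≃ₜ Ioo (0 : ℝ) 1,
    Filter.Tendsto (fun t : Ioo (0 : ℝ) 1 => ((φ.symm t : e) : X))
      (Filter.comap Subtype.val (𝓝 0)) (𝓝 a) ∧
    Filter.Tendsto (fun t : Ioo (0 : ℝ) 1 => ((φ.symm t : e) : X))
      (Filter.comap Subtype.val (𝓝 1)) (𝓝 b)

/-- the edge cut of a partition of the ground space -/
def edgeCut {X : Type u} [TopologicalSpace X] (A B : Set X) : Set (Set X) :=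
  {e | IsEdge e ∧ ∃ a ∈ A, ∃ b ∈ B, HasEnds e a b}

/-- the even-cut property -/
def EvenCutProperty (X : Type u) [TopologicalSpace X] : Prop :=
  ∀ A B : Set X, IsClosed A → IsClosed B → Disjoint A B → A ∪ B = ground X →
    Even (edgeCut A B).ncard

/-- Eulerian: there is a strongly irreducible continuous surjection from the circle -/
def Eulerian (X : Type u) [TopologicalSpace X] : Prop :=
  ∃ g : C(Circle, X), Function.Surjective g ∧ ∀ C : Set Circle, IsClosed C → C ≠ univ →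
    g '' C ≠ univ

/-- FREE1: free arcs have end points -/
def Free1Stmt : Prop := ∀ (e : Set X), IsOpen e → ∀ φ : e ≃ₜ Ioo (0 : ℝ) 1,
  ∃ a b : X, a ∉ e ∧ b ∉ e ∧ closure e = e ∪ {a, b} ∧
    Filter.Tendsto (fun t : Ioo (0 : ℝ) 1 => ((φ.symm t : e) : X))
      (Filter.comap Subtype.val (𝓝 0)) (𝓝 a) ∧
    Filter.Tendsto (fun t : Ioo (0 : ℝ) 1 => ((φ.symm t : e) : X))
      (Filter.comap Subtype.val (𝓝 1)) (𝓝 b)

/-- FREE2: different edges are disjoint, unless the space is a circle -/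
def Free2Stmt : Prop := Nonempty (X ≃ₜ Circle) ∨
  ∀ e e' : Set X, IsEdge e → IsEdge e' → e ≠ e' → Disjoint e e'

/-- FREE3: every free arc lies in an edge, unless the space is a circle -/
def Free3Stmt : Prop := Nonempty (X ≃ₜ Circle) ∨
  ∀ e : Set X, IsFreeArc e → ∃ e' : Set X, IsEdge e' ∧ e ⊆ e'

/-- XSYS: the edge system of the maximal free arcs (loops are subdivided) -/
def XSysStmt : Prop := (∀ e e' : Set X, IsEdge e → IsEdge e' → e ≠ e' → Disjoint e e') →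
  (∀ e : Set X, IsFreeArc e → ∃ e' : Set X, IsEdge e' ∧ e ⊆ e') → EvenCutProperty X →
  ∃ (ι : Type u) (𝓔 : EdgeSys X ι), 𝓔.EvenCuts ∧
    (∀ e ⊆ (closure (⋃ i, 𝓔.o i))ᶜ, IsOpen e → IsEmpty (e ≃ₜ Ioo (0 : ℝ) 1))

/-- CIRC: from closed curves on the interval to the circle; the circle itself is Eulerian -/
def CircStmt : Prop := ((∃ g : C(I, X), EdgeSys.StronglyIrr g) → Eulerian X) ∧
  (Nonempty (X ≃ₜ Circle) → Eulerian X)

end problem

end Pool.Agent.EU
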