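import Pool.Agent.Helper17_EU.TowerBasics

/-! # TOP, part A: dependent choice of levels, congruence of the level conditions -/

open Set Metric Topology unitInterval

noncomputable section

namespace Pool.Agent.EU

universe u v

/-- dependent choice with history -/
theorem dep_choice {α : Type*} (a0 : α) (P : ℕ → (ℕ → α) → Prop)
    (hcongr : ∀ n f g, (∀ m ≤ n, f m = g m) → P n f → P n g)
    (hstep : ∀ n f, (∀ m < n, P m f) → ∃ a, P n (Function.update f n a)) :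
    ∃ f, ∀ n, P n f := by
  classical
  have : Nonempty α := ⟨a0⟩
  have h1 : ∀ n (f : ℕ → α), (∀ m < n, P m f) → ∃ a, P n (Function.update f n a) := hstep
  choose! nx hnx using h1
  -- sequence of functions
  let F : ℕ → (ℕ → α) := fun n => Nat.rec (fun _ => a0)
    (fun n f => Function.update f n (nx n f)) n
  have hF : ∀ n, F (n + 1) = Function.update (F n) n (nx n (F n)) := fun n => rfl
  have hFle : ∀ n m k, m < n → n ≤ k → F k m = F n m := by
    intro n m k hm hk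
    induction k, hk using Nat.le_induction with
    | base => rfl
    | succ k hk ih =>
      rw [hF k, Function.update_of_ne (by omega), ih]
  have hP : ∀ n, ∀ m < n, P m (F n) := by
    intro n
    induction n with
    | zero => intro m hm; omega
    | succ n ih =>
      intro m hm
      rcases Nat.lt_or_ge m n with h | h
      · refine hcongr m (F n) (F (n + 1)) ?_ (ih m h)
        intro k hk
        exact (hFle n k (n + 1) (by omega) (by omega)).symm
      · have : m = n := by omega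
        subst this
        rw [hF m]
        exact hnx m (F m) ih
  refine ⟨fun n => F (n + 1) n, fun n => ?_⟩
  refine hcongr n (F (n + 1)) _ ?_ (hP (n + 1) n (by omega))
  intro m hm
  exact (hFle (m + 1) m (n + 1) (by omega) (by omega))

namespace EdgeSys

variable {X : Type u} [MetricSpace X] {ι : Type v} {𝓔 : EdgeSys X ι}

/-- data of one level; `κ'`, `ρ'`, `r'` belong to the next level -/
structure Lev (𝓔 : EdgeSys X ι) where
  arc : ℕ → 𝓔.Arc
  U : Finset X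
  FA : List ℕ
  DV : List (Deco X ι)
  DS : List (Deco X ι × (ℕ × ℕ) × I)
  PK : List (X × (ℕ × ℕ) × I)
  κ' : ℝ
  ρ' : ℝ
  r' : ℝ

/-- the tower given by a sequence of levels -/
def Tw (f : ℕ → 𝓔.Lev) : 𝓔.Tower where
  arc n := (f n).arc
  U n := (f n).U
  FA n := (f n).FA
  DV n := (f n).DV
  DS n := (f n).DS
  PK n := (f n).PK
  κ n := (f (n - 1)).κ'
  ρ n := (f (n - 1)).ρ'
  r n := (f (n - 1)).r'

namespace Tower

/-- two towers agree up to level `n` -/
structure Agree (T T' : 𝓔.Tower) (n : ℕ) : Prop where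
  arc : ∀ l ≤ n, T.arc l = T'.arc l
  U : ∀ l ≤ n, T.U l = T'.U l
  FA : ∀ l ≤ n, T.FA l = T'.FA l
  DV : ∀ l ≤ n, T.DV l = T'.DV l
  DS : ∀ l ≤ n, T.DS l = T'.DS l
  PK : ∀ l ≤ n, T.PK l = T'.PK l

theorem agree_Tw {f g : ℕ → 𝓔.Lev} {n : ℕ} (h : ∀ m ≤ n, f m = g m) : Agree (Tw f) (Tw g) n := by
  constructor <;> intro l hl <;> simp only [Tw] <;> rw [h l hl]

variable {T T' : 𝓔.Tower} {n : ℕ}

theorem Agree.mono (h : Agree T T' n) {m : ℕ} (hm : m ≤ n) : Agree T T' m :=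
  ⟨fun l hl => h.arc l (hl.trans hm), fun l hl => h.U l (hl.trans hm),
    fun l hl => h.FA l (hl.trans hm), fun l hl => h.DV l (hl.trans hm),
    fun l hl => h.DS l (hl.trans hm), fun l hl => h.PK l (hl.trans hm)⟩

theorem Agree.symm (h : Agree T T' n) : Agree T' T n :=
  ⟨fun l hl => (h.arc l hl).symm, fun l hl => (h.U l hl).symm,
    fun l hl => (h.FA l hl).symm, fun l hl => (h.DV l hl).symm,
    fun l hl => (h.DS l hl).symm, fun l hl => (h.PK l hl).symm⟩

theorem Agree.ids (h : Agree T T' n) {l : ℕ} (hl : l ≤ n) : T.ids l = T'.ids l := by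
  unfold Tower.ids
  rw [h.FA l hl, h.DV l hl, h.DS l hl]

theorem Agree.arcs (h : Agree T T' n) {l : ℕ} (hl : l ≤ n) : T.arcs l = T'.arcs l := by
  unfold Tower.arcs
  rw [h.ids hl, h.arc l hl]

theorem Agree.S (h : Agree T T' n) {k : ℕ} (hk : k ≤ n) : T.S k = T'.S k := by
  unfold Tower.S
  ext i
  constructor
  · rintro ⟨l, hl, h1⟩
    rw [h.arcs (hl.trans hk)] at h1
    exact ⟨l, hl, h1⟩
  · rintro ⟨l, hl, h1⟩
    rw [← h.arcs (hl.trans hk)] at h1
    exact ⟨l, hl, h1⟩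

theorem Agree.V (h : Agree T T' n) {k : ℕ} (hk : k ≤ n) : T.V k = T'.V k := by
  ext x
  rw [mem_V, mem_V]
  constructor
  · rintro ⟨l, h0, hl, h1⟩
    rw [h.U l (hl.trans hk)] at h1
    exact ⟨l, h0, hl, h1⟩
  · rintro ⟨l, h0, hl, h1⟩
    rw [← h.U l (hl.trans hk)] at h1
    exact ⟨l, h0, hl, h1⟩

theorem Agree.P (h : Agree T T' n) {k : ℕ} (hk : k ≤ n) : T.P k = T'.P k := by
  unfold Tower.P
  rw [h.PK k hk]

theorem Agree.U' (h : Agree T T' n) {k : ℕ} (hk : k ≤ n) : T.U' k = T'.U' k := by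
  unfold Tower.U'
  rw [h.P hk, h.U k hk]

theorem Agree.dA (h : Agree T T' n) {k : ℕ} (hk : k ≤ n) : T.dA k = T'.dA k := by
  funext v
  unfold Tower.dA
  refine Finset.sum_congr rfl ?_
  intro l hl
  rw [Finset.mem_range] at hl
  rw [h.FA l (by omega), h.arc l (by omega)]

theorem Agree.marks (h : Agree T T' n) {k : ℕ} (hk : k ≤ n) : T.marks k = T'.marks k := by
  unfold Tower.marks
  rw [h.DV k hk, h.DS k hk]

theorem Agree.isHost (h : Agree T T' n) {k : ℕ} (hk : k ≤ n) {q : ℕ × ℕ} :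
    T.IsHost k q ↔ T'.IsHost k q := by
  unfold Tower.IsHost
  constructor
  · rintro ⟨h1, h2, h3⟩
    rw [h.ids (by omega)] at h3
    exact ⟨h1, h2, h3⟩
  · rintro ⟨h1, h2, h3⟩
    rw [← h.ids (by omega)] at h3
    exact ⟨h1, h2, h3⟩

theorem Agree.arc_host (h : Agree T T' n) {k : ℕ} (hk : k ≤ n) {q : ℕ × ℕ}
    (hq : T.IsHost k q) : T.arc q.1 q.2 = T'.arc q.1 q.2 := by
  rw [h.arc q.1 (by have := hq.2.1; omega)]

theorem Agree.decoOK (h : Agree T T' n) {k : ℕ} (hk : k ≤ n) (hκ : T.κ (k + 1) = T'.κ (k + 1))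
    {M : Set X} {D : Deco X ι} : T.DecoOK M k D ↔ T'.DecoOK M k D := by
  unfold Tower.DecoOK
  rw [h.arc k hk, hκ]

theorem LevelA.congr (h : Agree T T' n) (hκ : T.κ n = T'.κ n) (hρ : T.ρ n = T'.ρ n)
    (hr : T.r n = T'.r n) (hL : T.LevelA n) : T'.LevelA n := by
  obtain ⟨a1, a2, a3, a4, a5, a6, a7, a8, a9, a10, a11, a12⟩ := hL
  have hn := le_refl n
  have hn' : n - 1 ≤ n := Nat.sub_le _ _
  refine ⟨?_, ?_, ?_, ?_, ?_, ?_, ?_, ?_, ?_, ?_, ?_, ?_⟩
  · rw [← h.U n hn]; exact a1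
  · rw [← h.U n hn, ← h.V hn']; exact a2
  · rw [← h.U n hn, ← h.P hn]; exact a3
  · rw [← h.PK n hn]; exact a4
  · rw [← h.PK n hn]
    intro p hp
    obtain ⟨b1, b2⟩ := a5 p hp
    refine ⟨(h.isHost hn).1 b1, ?_⟩
    rw [← h.arc_host hn b1]
    exact b2
  · rw [← h.P hn, ← h.V hn', ← h.S hn']; exact a6
  · rw [← h.V hn', ← h.S hn', ← hr]; exact a7
  · rw [← hκ, ← hρ]; exact a8
  · rw [← hκ, ← hρ]; exact a9
  · rw [← hκ]; exact a10
  · rw [← hr]; exact a11
  · rw [← hr, ← hρ]; exact a12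

theorem LevelB.congr {M : Set X} (h : Agree T T' n) (hκ : T.κ n = T'.κ n)
    (hκ' : T.κ (n + 1) = T'.κ (n + 1)) (hρ : T.ρ n = T'.ρ n)
    (hr : T.r n = T'.r n) (hL : T.LevelB M n) : T'.LevelB M n := by
  obtain ⟨a1, a2, a3, a4, a5, a6, a7, a8, a9, a10, a11, a12, a13, a14, a15⟩ := hL
  have hn := le_refl n
  have hn' : n - 1 ≤ n := Nat.sub_le _ _
  refine ⟨?_, ?_, ?_, ?_, ?_, ?_, ?_, ?_, ?_, ?_, ?_, ?_, ?_, ?_, ?_⟩
  · rw [← h.ids hn]; exact a1
  · rw [← h.ids hn, ← h.arc n hn, ← h.S hn']; exact a2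
  · rw [← h.ids hn, ← h.arc n hn]; exact a3
  · rw [← h.ids hn, ← h.arc n hn, ← h.S hn']; exact a4
  · rw [← h.FA n hn, ← h.arc n hn, ← h.V hn, ← h.U' hn]; exact a5
  · rw [← h.FA n hn, ← h.arc n hn, ← hr]; exact a6
  · rw [← h.FA n hn, ← h.arc n hn, ← hr, ← h.V hn', ← h.P hn, ← h.U' hn]; exact a7
  · rw [← h.DV n hn, ← h.U (n - 1) hn']
    intro D hD
    obtain ⟨b1, b2⟩ := a8 D hD
    exact ⟨(h.decoOK hn hκ').1 b1, b2⟩
  · rw [← h.DS n hn]
    intro D hD
    obtain ⟨b1, b2, b3⟩ := a9 D hD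
    refine ⟨(h.decoOK hn hκ').1 b1, (h.isHost hn).1 b2, ?_⟩
    rw [← h.arc_host hn b2]
    exact b3
  · rw [← hρ, ← hκ']; exact a10
  · rw [← hκ, ← hκ']; exact a11
  · rw [← hκ']; exact a12
  · rw [← hκ', ← h.V hn']; exact a13
  · rw [← h.marks hn]; exact a14
  · rw [← h.marks hn]
    intro l hl k hk
    rw [← h.marks (by omega : l ≤ n)]
    exact a15 l hl k hk

end Tower

end EdgeSys

end Pool.Agent.EU
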