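import Pool.Agent.Helper17_EU.TopA
import Pool.Agent.Helper17_EU.StmtsT
import Pool.Agent.Helper97_EU.Deco

/-! # TOP, part B: level conditions, hosts, numbering of decorations, parity -/

open Set Metric Topology unitInterval

noncomputable section

namespace Pool.Agent.EU

universe u v

namespace EdgeSys

variable {X : Type u} [MetricSpace X] {ι : Type v} {𝓔 : EdgeSys X ι}

namespace Tower

open Classical in
/-- conditions on level `n`, depending on the levels `≤ n` and the radii of level `n + 1` -/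
structure LOK (T : 𝓔.Tower) (M : Set X) (p : X) (n : ℕ) : Prop where
  zero : n = 0 → T.U 0 = ∅ ∧ T.ids 0 = []
  one : n = 1 → T.U 1 = {p} ∧ T.ids 1 = []
  levA : 2 ≤ n → T.LevelA n
  levB : 2 ≤ n → T.LevelB M n
  thin : 1 ≤ n → 𝓔.Thin (T.S n)
  rooted : 1 ≤ n → 𝓔.Rooted (T.S n) (↑(T.V n)) (T.r (n + 1))
  big : 1 ≤ n → 𝓔.BigEnds (T.S n) (↑(T.V n)) (T.r (n + 1))
  par : 1 ≤ n → 𝓔.Par (T.S n) (T.V n) (T.dA n)
  stage : 1 ≤ n → StageOK X (T.κ (n + 1) / 4) (T.ρ (n + 1)) ∧ T.ρ (n + 1) ≤ T.κ (n + 1) ∧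
    0 < T.κ (n + 1) ∧ 0 < T.r (n + 1) ∧ 16 * T.r (n + 1) ≤ T.ρ (n + 1)
  dv2 : n = 2 → T.DV 2 = []
  many : 3 ≤ n → ∀ u ∈ T.U (n - 1), 𝓔.Rich u →
    3 * (T.V (n - 1)).card ^ 2 ≤ (T.DV n).countP (fun D => D.base = u)
  slots : 2 ≤ n → ∀ l j, 2 ≤ l → l < n → j ∈ T.ids l → ∃ (Fk : Set ι) (Tk : Set I),
    Fk.Finite ∧ Tk.Finite ∧ 𝓔.Fine (T.arc l j) Fk Tk (1 / ((n : ℝ) + 1)) ∧
    ∀ τ ∈ Tk, ∃ D, (D, (l, j), τ) ∈ T.DS n
  mkp : ∀ k ∈ (T.marks n).map Prod.fst, (Nat.unpair k).1 = n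
  VG : ∀ x ∈ T.V n, x ∈ 𝓔.G
  dAz : ∀ v, v ∉ T.V n → T.dA n v = 0

theorem LOK.congr {T T' : 𝓔.Tower} {M : Set X} {p : X} {n : ℕ} (h : Agree T T' n)
    (hκ : T.κ n = T'.κ n) (hρ : T.ρ n = T'.ρ n) (hr : T.r n = T'.r n)
    (hκ' : T.κ (n + 1) = T'.κ (n + 1)) (hρ' : T.ρ (n + 1) = T'.ρ (n + 1))
    (hr' : T.r (n + 1) = T'.r (n + 1)) (hL : T.LOK M p n) : T'.LOK M p n := by
  have hn := le_refl n
  have hn' : n - 1 ≤ n := Nat.sub_le _ _
  refine ⟨?_, ?_, ?_, ?_, ?_, ?_, ?_, ?_, ?_, ?_, ?_, ?_, ?_, ?_, ?_⟩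
  · intro h0
    obtain ⟨h1, h2⟩ := hL.zero h0
    rw [h.U 0 (by omega)] at h1
    rw [h.ids (Nat.zero_le _)] at h2
    exact ⟨h1, h2⟩
  · intro h0
    obtain ⟨h1, h2⟩ := hL.one h0
    rw [h.U 1 (by omega)] at h1
    rw [h.ids (by omega)] at h2
    exact ⟨h1, h2⟩
  · exact fun h2 => (hL.levA h2).congr h hκ hρ hr
  · exact fun h2 => (hL.levB h2).congr h hκ hκ' hρ hr
  · rw [← h.S hn]; exact hL.thin
  · rw [← h.S hn, ← h.V hn, ← hr']; exact hL.rooted
  · rw [← h.S hn, ← h.V hn, ← hr']; exact hL.big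
  · rw [← h.S hn, ← h.V hn, ← h.dA hn]; exact hL.par
  · rw [← hκ', ← hρ', ← hr']; exact hL.stage
  · intro h0
    rw [← h.DV 2 (by omega)]
    exact hL.dv2 h0
  · rw [← h.U (n - 1) hn', ← h.V hn', ← h.DV n hn]; exact hL.many
  · intro h2 l j hl hln hj
    rw [← h.ids (by omega)] at hj
    obtain ⟨Fk, Tk, h3, h4, h5, h6⟩ := hL.slots h2 l j hl hln hj
    rw [h.arc l (by omega)] at h5
    rw [h.DS n hn] at h6
    exact ⟨Fk, Tk, h3, h4, h5, h6⟩
  · rw [← h.marks hn]; exact hL.mkp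
  · rw [← h.V hn]; exact hL.VG
  · rw [← h.V hn, ← h.dA hn]; exact hL.dAz

theorem LOK.congr_Tw {f g : ℕ → 𝓔.Lev} {M : Set X} {p : X} {n : ℕ} (h : ∀ m ≤ n, f m = g m)
    (hL : (Tw f).LOK M p n) : (Tw g).LOK M p n := by
  refine hL.congr (agree_Tw h) ?_ ?_ ?_ ?_ ?_ ?_
  · simp only [Tw]; rw [h (n - 1) (Nat.sub_le _ _)]
  · simp only [Tw]; rw [h (n - 1) (Nat.sub_le _ _)]
  · simp only [Tw]; rw [h (n - 1) (Nat.sub_le _ _)]
  · simp only [Tw, Nat.add_sub_cancel]; rw [h n (le_refl _)]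
  · simp only [Tw, Nat.add_sub_cancel]; rw [h n (le_refl _)]
  · simp only [Tw, Nat.add_sub_cancel]; rw [h n (le_refl _)]

/-- HOST: points of the closure of the reserved edges lie on reserved arcs -/
theorem host (T : 𝓔.Tower) {k : ℕ} {x : X} (hx : x ∈ 𝓔.R (T.S k)) :
    ∃ l ≤ k, ∃ j ∈ T.ids l, ∃ t : I, (T.arc l j).f t = x := by
  have h1 : (⋃ i ∈ T.S k, 𝓔.o i) ⊆ ⋃ l ∈ Finset.range (k + 1), ⋃ j ∈ (T.ids l).toFinset,
      range (T.arc l j).f := by
    intro y hy
    simp only [mem_iUnion] at hy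
    obtain ⟨i, ⟨l, hl, a, ha, hi⟩, hy⟩ := hy
    unfold arcs at ha
    rw [List.mem_map] at ha
    obtain ⟨j, hj, rfl⟩ := ha
    simp only [mem_iUnion]
    exact ⟨l, by simp; omega, j, by simpa using hj, hi hy⟩
  have h2 : IsClosed (⋃ l ∈ Finset.range (k + 1), ⋃ j ∈ (T.ids l).toFinset,
      range (T.arc l j).f) := by
    refine isClosed_biUnion_finset (fun l _ => isClosed_biUnion_finset (fun j _ => ?_))
    exact (isCompact_range (T.arc l j).f.continuous).isClosed
  have h3 := closure_minimal h1 h2 hx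
  simp only [mem_iUnion] at h3
  obtain ⟨l, hl, j, hj, t, ht⟩ := h3
  exact ⟨l, by simp at hl; omega, j, by simpa using hj, t, ht⟩

end Tower

/-! ### numbering -/

/-- decorations with consecutive numbers of arcs (from `o`) and markers (from `c`) -/
def conv (n : ℕ) : ℕ → ℕ → List 𝓔.RawDeco → List (Deco X ι)
  | _, _, [] => []
  | o, c, D :: Ds =>
    { base := D.base
      pre := List.range' o D.pre.length
      mrk := match D.lmE with
        | none => some (Nat.pair n c)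
        | some _ => none
      pt := D.pt
      post := List.range' (o + D.pre.length) D.post.length
      lm := match D.lmE with
        | none => Sum.inr (Nat.pair n c)
        | some i => Sum.inl i } :: conv n (o + (D.pre ++ D.post).length) (c + 1) Ds

theorem conv_base (n : ℕ) (Ds : List 𝓔.RawDeco) : ∀ o c,
    (conv n o c Ds).map (fun D => D.base) = Ds.map (fun D => D.base) := by
  induction Ds with
  | nil => intro o c; rfl
  | cons D Ds ih => intro o c; simp [conv, ih]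

theorem conv_length (n : ℕ) (Ds : List 𝓔.RawDeco) : ∀ o c,
    (conv n o c Ds).length = Ds.length := by
  induction Ds with
  | nil => intro o c; rfl
  | cons D Ds ih => intro o c; simp [conv, ih]

theorem conv_ids (n : ℕ) (Ds : List 𝓔.RawDeco) : ∀ o c,
    (conv n o c Ds).flatMap (fun D => D.pre ++ D.post) =
      List.range' o (Ds.flatMap (fun D => D.pre ++ D.post)).length := by
  induction Ds with
  | nil => intro o c; rfl
  | cons D Ds ih =>
    intro o c
    rw [conv, List.flatMap_cons, ih, List.flatMap_cons, List.length_append]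
    simp only [List.length_append]
    rw [List.range'_append_1, List.range'_append_1]

theorem conv_marks (n : ℕ) (Ds : List 𝓔.RawDeco) : ∀ o c,
    ((conv n o c Ds).filterMap (fun D => D.mrk)).Nodup ∧
    ∀ k ∈ (conv n o c Ds).filterMap (fun D => D.mrk), ∃ c', c ≤ c' ∧ c' < c + Ds.length ∧
      k = Nat.pair n c' := by
  induction Ds with
  | nil => intro o c; simp [conv]
  | cons D Ds ih =>
    intro o c
    obtain ⟨h1, h2⟩ := ih (o + (D.pre ++ D.post).length) (c + 1)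
    rw [conv]
    cases hD : D.lmE with
    | none =>
      simp only [List.filterMap_cons]
      refine ⟨List.nodup_cons.2 ⟨?_, h1⟩, ?_⟩
      · intro h3
        obtain ⟨c', h4, h5, h6⟩ := h2 _ h3
        have := (Nat.pair_eq_pair.1 h6).2
        omega
      · intro k hk
        rcases List.mem_cons.1 hk with rfl | hk
        · exact ⟨c, le_refl _, by simp, rfl⟩
        · obtain ⟨c', h4, h5, h6⟩ := h2 _ hk
          exact ⟨c', by omega, by simp; omega, h6⟩
    | some i =>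
      simp only [List.filterMap_cons]
      refine ⟨h1, ?_⟩
      intro k hk
      obtain ⟨c', h4, h5, h6⟩ := h2 _ hk
      exact ⟨c', by omega, by simp; omega, h6⟩

theorem map_getD_range' {α : Type*} (a0 : α) (A B C : List α) :
    (List.range' A.length B.length).map (fun j => (A ++ B ++ C).getD j a0) = B := by
  apply List.ext_getElem
  · simp
  · intro i h1 h2
    simp only [List.getElem_map, List.getElem_range', one_mul]
    rw [List.append_assoc, List.getD_append_right _ _ _ _ (by omega), Nat.add_sub_cancel_left,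
      List.getD_append _ _ _ _ h2, List.getD_eq_getElem _ _ h2]

/-- correspondence between the converted and the original decorations -/
theorem conv_mem (n : ℕ) (a0 : 𝓔.Arc) (Ds : List 𝓔.RawDeco) : ∀ (o c : ℕ)
    (A C : List 𝓔.Arc), A.length = o → ∀ D' ∈ conv n o c Ds, ∃ D ∈ Ds, D'.base = D.base ∧
      D'.pt = D.pt ∧
      D'.pre.map (fun j => (A ++ Ds.flatMap (fun D => D.pre ++ D.post) ++ C).getD j a0) = D.pre ∧
      D'.post.map (fun j => (A ++ Ds.flatMap (fun D => D.pre ++ D.post) ++ C).getD j a0) = D.post ∧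
      ((∃ i, D.lmE = some i ∧ D'.mrk = none ∧ D'.lm = Sum.inl i) ∨
        (∃ k, D.lmE = none ∧ D'.mrk = some k ∧ D'.lm = Sum.inr k)) := by
  induction Ds with
  | nil => intro o c A C _ D' hD'; simp [conv] at hD'
  | cons D Ds ih =>
    intro o c A C hA D' hD'
    rw [conv] at hD'
    rcases List.mem_cons.1 hD' with rfl | hD'
    · refine ⟨D, List.mem_cons_self, rfl, rfl, ?_, ?_, ?_⟩
      · have h := map_getD_range' a0 A D.pre
          (D.post ++ Ds.flatMap (fun D => D.pre ++ D.post) ++ C)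
        rw [hA] at h
        simp only [List.flatMap_cons, List.append_assoc] at h ⊢
        exact h
      · have h := map_getD_range' a0 (A ++ D.pre) D.post
          (Ds.flatMap (fun D => D.pre ++ D.post) ++ C)
        rw [List.length_append, hA] at h
        simp only [List.flatMap_cons, List.append_assoc] at h ⊢
        exact h
      · cases hD : D.lmE with
        | none => exact Or.inr ⟨_, rfl, rfl, rfl⟩
        | some i => exact Or.inl ⟨i, rfl, rfl, rfl⟩
    · obtain ⟨D1, h1, h2, h3, h4, h5, h6⟩ := ih (o + (D.pre ++ D.post).length) (c + 1)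
        (A ++ (D.pre ++ D.post)) C (by rw [List.length_append, hA]) D' hD'
      refine ⟨D1, List.mem_cons_of_mem _ h1, h2, h3, ?_, ?_, h6⟩
      · simp only [List.flatMap_cons, List.append_assoc] at h4 ⊢
        exact h4
      · simp only [List.flatMap_cons, List.append_assoc] at h5 ⊢
        exact h5

/-! ### parity -/

theorem chainA_append {x y z : X} {l l' : List 𝓔.Arc} (h : 𝓔.ChainA x l y)
    (h' : 𝓔.ChainA y l' z) : 𝓔.ChainA x (l ++ l') z := by
  induction h with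
  | nil x => exact h'
  | cons a l y h ih => exact ChainA.cons a _ _ (ih h')

theorem Y_union_eq (S S' : Set ι) : 𝓔.Y (S ∪ S') = 𝓔.Y S ∩ 𝓔.Y S' := by
  unfold Y
  rw [biUnion_union, compl_union]

theorem arc_sub_Y (hD : 𝓔.ArcDichStmt) {b : 𝓔.Arc} {S : Set ι} (h : Disjoint b.E S) :
    range b.f ⊆ 𝓔.Y S := by
  intro x hx hx'
  simp only [mem_iUnion] at hx'
  obtain ⟨i, hi, hxi⟩ := hx'
  rcases hD b i with h1 | h1
  · exact Set.disjoint_left.1 h h1 hi
  · exact Set.disjoint_left.1 h1 hxi hx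

theorem par_decos (hD : 𝓔.ArcDichStmt) (hPC : 𝓔.ParChainStmt) {V : Finset X} {d : X → ℕ}
    (Ds : List 𝓔.RawDeco) : ∀ (S : Set ι),
    (∀ D ∈ Ds, 𝓔.ChainA D.base D.pre D.pt ∧ 𝓔.ChainA D.pt D.post D.base ∧
      𝓔.RL (D.pre ++ D.post) ⊆ 𝓔.Y S) →
    𝓔.EDisj (Ds.flatMap (fun D => D.pre ++ D.post)) → 𝓔.Par S V d →
    𝓔.Par (S ∪ 𝓔.EL (Ds.flatMap (fun D => D.pre ++ D.post))) V d := by
  induction Ds with
  | nil =>
    intro S _ _ h
    simpa [EL] using h
  | cons D Ds ih =>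
    intro S h1 h2 h3
    rw [List.flatMap_cons] at h2 ⊢
    unfold EDisj at h2
    rw [List.pairwise_append] at h2
    obtain ⟨h4, h5, h6⟩ := h2
    obtain ⟨c1, c2, c3⟩ := h1 D List.mem_cons_self
    have h7 := hPC S V d (D.pre ++ D.post) D.base h3 h4 c3 (chainA_append c1 c2)
    have h8 := ih (S ∪ 𝓔.EL (D.pre ++ D.post)) (by
      intro D' hD'
      obtain ⟨e1, e2, e3⟩ := h1 D' (List.mem_cons_of_mem _ hD')
      refine ⟨e1, e2, ?_⟩
      rw [Y_union_eq]
      refine subset_inter e3 ?_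
      rintro x ⟨b, hb, hx⟩
      refine arc_sub_Y hD (S := 𝓔.EL (D.pre ++ D.post)) ?_ hx
      rw [Set.disjoint_left]
      rintro i hi ⟨a, ha, hi'⟩
      have hb' : b ∈ Ds.flatMap (fun D => D.pre ++ D.post) :=
        List.mem_flatMap.2 ⟨D', hD', hb⟩
      exact Set.disjoint_left.1 (h6 a ha b hb') hi' hi) h5 h7
    have h9 : S ∪ 𝓔.EL ((D.pre ++ D.post) ++ Ds.flatMap (fun D => D.pre ++ D.post)) =
        S ∪ 𝓔.EL (D.pre ++ D.post) ∪ 𝓔.EL (Ds.flatMap (fun D => D.pre ++ D.post)) := by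
      rw [H97.EL_append, Set.union_assoc]
    rw [h9]
    exact h8

end EdgeSys

end Pool.Agent.EU
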