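import Pool.Agent.Helper17_EU.TopB

/-! # TOP, part C: auxiliary lemmas for the step -/

open Set Metric Topology unitInterval

noncomputable section

namespace Pool.Agent.EU

universe u v

theorem stageOK_mono {X : Type u} [MetricSpace X] {s ρ ρ' : ℝ} (h : StageOK X s ρ) (hρ : ρ' ≤ ρ) :
    StageOK X s ρ' := by
  intro n src tgt sp A U h1 h2 h3 h4
  refine h n src tgt sp A U h1 ?_ h3 ?_
  · exact fun e he y hy z hz => (h2 e he y hy z hz).trans hρ
  · intro u hu
    obtain ⟨a, ha, l, h5, h6⟩ := h4 u hu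
    exact ⟨a, ha, l, h5, fun y hy z hz => (h6 y hy z hz).trans hρ⟩

theorem exists_small_radius {X : Type u} [MetricSpace X] (V : Finset X) {c : ℝ} (hc : 0 < c) :
    ∃ δ, 0 < δ ∧ δ ≤ c ∧ ∀ x ∈ V, ∀ y ∈ V, x ≠ y → δ < dist x y := by
  have h1 : ∀ x ∈ V, ∀ y ∈ V, ∀ᶠ δ in 𝓝[>] (0 : ℝ), x ≠ y → δ < dist x y := by
    intro x _ y _
    by_cases h : x = y
    · exact Filter.Eventually.of_forall (fun δ h' => absurd h h')
    · have h2 : 0 < dist x y := dist_pos.2 h
      have h3 : ∀ᶠ δ in 𝓝[>] (0 : ℝ), δ < dist x y :=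
        nhdsWithin_le_nhds (gt_mem_nhds h2)
      exact h3.mono (fun δ hδ _ => hδ)
  have h2 : ∀ᶠ δ in 𝓝[>] (0 : ℝ), ∀ x ∈ V, ∀ y ∈ V, x ≠ y → δ < dist x y := by
    rw [Finset.eventually_all]
    intro x hx
    rw [Finset.eventually_all]
    exact h1 x hx
  have h3 : ∀ᶠ δ in 𝓝[>] (0 : ℝ), δ < c := nhdsWithin_le_nhds (gt_mem_nhds hc)
  have h4 : ∀ᶠ δ in 𝓝[>] (0 : ℝ), 0 < δ := self_mem_nhdsWithin
  obtain ⟨δ, h5, h6, h7⟩ := (h2.and (h3.and h4)).exists
  exact ⟨δ, h7, h6.le, h5⟩

theorem zip_rel {α β γ : Type*} {f : α → γ} {g : β → γ} {A : List α} {B : List β}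
    (h : A.map f = B.map g) {a : α} {b : β} (hab : (a, b) ∈ A.zip B) : f a = g b := by
  induction A generalizing B with
  | nil => simp at hab
  | cons a' A ih =>
    cases B with
    | nil => simp at hab
    | cons b' B =>
      simp only [List.map_cons, List.cons.injEq] at h
      simp only [List.zip_cons_cons, List.mem_cons, Prod.mk.injEq] at hab
      rcases hab with ⟨rfl, rfl⟩ | hab
      · exact h.1
      · exact ih h.2 hab

theorem exists_zip {α β : Type*} {A : List α} {B : List β} (h : A.length = B.length) {b : β}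
    (hb : b ∈ B) : ∃ a, (a, b) ∈ A.zip B := by
  induction A generalizing B with
  | nil =>
    cases B with
    | nil => simp at hb
    | cons b' B => simp at h
  | cons a' A ih =>
    cases B with
    | nil => simp at hb
    | cons b' B =>
      rcases List.mem_cons.1 hb with rfl | hb
      · exact ⟨a', by simp⟩
      · obtain ⟨a, ha⟩ := ih (by simpa using h) hb
        exact ⟨a, by simp [ha]⟩

theorem flatMap_zip {α β γ : Type*} (g : α → List γ) {A : List α} {B : List β}
    (h : A.length = B.length) : (A.zip B).flatMap (fun D => g D.1) = A.flatMap g := by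
  induction A generalizing B with
  | nil => simp
  | cons a A ih =>
    cases B with
    | nil => simp at h
    | cons b B =>
      simp only [List.zip_cons_cons, List.flatMap_cons]
      rw [ih (by simpa using h)]

theorem filterMap_zip {α β γ : Type*} (g : α → Option γ) {A : List α} {B : List β}
    (h : A.length = B.length) : (A.zip B).filterMap (fun D => g D.1) = A.filterMap g := by
  induction A generalizing B with
  | nil => simp
  | cons a A ih =>
    cases B with
    | nil => simp at h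
    | cons b B =>
      simp only [List.zip_cons_cons, List.filterMap_cons]
      rw [ih (by simpa using h)]

namespace EdgeSys

variable {X : Type u} [MetricSpace X] {ι : Type v} {𝓔 : EdgeSys X ι}

theorem exists_arc [ConnectedSpace X] [Nontrivial X] (hArc : 𝓔.ArcStmt) : Nonempty 𝓔.Arc := by
  have h1 : ∃ x y, x ∈ 𝓔.G ∧ y ∈ 𝓔.G ∧ x ≠ y := by
    by_cases hι : Nonempty ι
    · obtain ⟨i⟩ := hι
      refine ⟨𝓔.φ i 0, 𝓔.φ i 1, H97.end_mem_G 𝓔 i 0 (Or.inl rfl),
        H97.end_mem_G 𝓔 i 1 (Or.inr rfl), ?_⟩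
      intro h
      exact zero_ne_one (𝓔.inj i h)
    · obtain ⟨x, y, hxy⟩ := exists_pair_ne X
      have hG : 𝓔.G = univ := by
        unfold G
        rw [not_nonempty_iff] at hι
        simp
      exact ⟨x, y, by simp [hG], by simp [hG], hxy⟩
  obtain ⟨x, y, hx, hy, hxy⟩ := h1
  obtain ⟨a, _⟩ := hArc ∅ H97.thin_empty univ (by simp [Y]) isPreconnected_univ x trivial y
    trivial hx hy hxy 1 one_pos
  exact ⟨a⟩

namespace Tower

theorem S_succ (T : 𝓔.Tower) (k : ℕ) : T.S (k + 1) = T.S k ∪ 𝓔.EL (T.arcs (k + 1)) := by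
  ext i
  constructor
  · rintro ⟨l, hl, h⟩
    rcases Nat.lt_or_ge l (k + 1) with h1 | h1
    · exact Or.inl ⟨l, by omega, h⟩
    · have : l = k + 1 := by omega
      subst this
      exact Or.inr h
  · rintro (⟨l, hl, h⟩ | h)
    · exact ⟨l, by omega, h⟩
    · exact ⟨k + 1, le_refl _, h⟩

theorem dA_succ' (T : 𝓔.Tower) (n : ℕ) : T.dA (n + 1) =
    fun v => T.dA n v + 𝓔.degL ((T.FA (n + 1)).map (T.arc (n + 1))) v := by
  funext v
  unfold dA
  rw [Finset.sum_range_succ]

theorem marks_fst (T : 𝓔.Tower) (n : ℕ) : (T.marks n).map Prod.fst =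
    (T.DV n).filterMap (fun D => D.mrk) ++ (T.DS n).filterMap (fun D => D.1.mrk) := by
  unfold marks
  rw [List.map_append, List.map_filterMap, List.map_filterMap]
  congr 1
  · congr 1
    funext D
    cases D.mrk <;> rfl
  · congr 1
    funext D
    cases D.1.mrk <;> rfl

end Tower

end EdgeSys

end Pool.Agent.EU
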