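import Pool.Agent.Helper17_EU.TopC

/-! # TOP, part D: the step -/

open Set Metric Topology unitInterval

noncomputable section

namespace Pool.Agent.EU

universe u v

namespace EdgeSys

variable {X : Type u} [MetricSpace X] {ι : Type v} {𝓔 : EdgeSys X ι}

open Tower

/-- everything that is chosen in the step -/
structure SD (T0 : 𝓔.Tower) (M : Set X) (k : ℕ) where
  κ' : ℝ
  ρ' : ℝ
  r' : ℝ
  l : List 𝓔.Arc
  Us : Set X
  Ps : Set X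
  reqV : List X
  reqS : List ((ℕ × ℕ) × I)
  D1 : List 𝓔.RawDeco
  D2 : List 𝓔.RawDeco
  PKl : List (X × (ℕ × ℕ) × I)
  κpos : 0 < κ'
  κκ : 8 * κ' ≤ T0.κ (k + 1)
  κρ : 8 * κ' ≤ T0.ρ (k + 1)
  κd : ∀ x ∈ T0.V k, ∀ y ∈ T0.V k, x ≠ y → κ' < dist x y
  stage : StageOK X (κ' / 4) ρ'
  ρκ : ρ' ≤ κ'
  rpos : 0 < r'
  rρ : 16 * r' ≤ ρ'
  Ufin : Us.Finite
  UG : Us ⊆ 𝓔.G
  UV : Disjoint Us (↑(T0.V k) : Set X)
  PU : Ps ⊆ Us
  Piso : ∀ p ∈ Ps, ∀ v ∈ (↑(T0.V k) : Set X) ∪ Ps, v ∈ 𝓔.comp (T0.S k) p → v = p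
  lED : 𝓔.EDisj l
  lY : 𝓔.RL l ⊆ 𝓔.Y (T0.S k)
  lsmall : ∀ b ∈ l, Small (3 * T0.r (k + 1)) (range b.f)
  lends : ∀ b ∈ l, b.f 0 ∈ (↑(T0.V k) : Set X) ∪ Us ∧ b.f 1 ∈ (↑(T0.V k) : Set X) ∪ Us ∧
    (b.f 0 ∈ Us \ Ps ∨ b.f 1 ∈ Us \ Ps)
  lroot : ∀ u ∈ Us \ Ps, 𝓔.RPath l ((↑(T0.V k) : Set X) ∪ Ps) (12 * T0.r (k + 1)) u
  reqV2 : k + 1 = 2 → reqV = []
  reqVc : open Classical in 3 ≤ k + 1 → ∀ u ∈ T0.U k, 𝓔.Rich u →
    3 * (T0.V k).card ^ 2 ≤ reqV.count u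
  reqVU : ∀ u ∈ reqV, u ∈ T0.U k ∧ 3 ≤ k + 1
  reqSh : ∀ h ∈ reqS, T0.IsHost (k + 1) h.1
  reqSf : ∀ l j, 2 ≤ l → l < k + 1 → j ∈ T0.ids l → ∃ (Fk : Set ι) (Tk : Set I),
    Fk.Finite ∧ Tk.Finite ∧ 𝓔.Fine (T0.arc l j) Fk Tk (1 / (((k + 1 : ℕ) : ℝ) + 1)) ∧
    ∀ τ ∈ Tk, ((l, j), τ) ∈ reqS
  b1 : D1.map (fun D => D.base) = reqV
  b2 : D2.map (fun D => D.base) = reqS.map (fun h => (T0.arc h.1.1 h.1.2).f h.2)
  dok : ∀ D ∈ D1 ++ D2, D.OK (T0.S k ∪ 𝓔.EL l) M κ'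
  dED : 𝓔.EDisj ((D1 ++ D2).flatMap (fun D => D.pre ++ D.post))
  thin : 𝓔.Thin (T0.S k ∪ 𝓔.EL (l ++ (D1 ++ D2).flatMap (fun D => D.pre ++ D.post)))
  rooted : 𝓔.Rooted (T0.S k ∪ 𝓔.EL (l ++ (D1 ++ D2).flatMap (fun D => D.pre ++ D.post)))
    ((↑(T0.V k) : Set X) ∪ Us) r'
  big : 𝓔.BigEnds (T0.S k ∪ 𝓔.EL (l ++ (D1 ++ D2).flatMap (fun D => D.pre ++ D.post)))
    ((↑(T0.V k) : Set X) ∪ Us) r'
  PKnd : (PKl.map Prod.fst).Nodup
  PKmem : ∀ x, x ∈ PKl.map Prod.fst ↔ x ∈ Ps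
  PKh : ∀ p ∈ PKl, T0.IsHost (k + 1) p.2.1 ∧ (T0.arc p.2.1.1 p.2.1.2).f p.2.2 = p.1

theorem exists_SD (hStepB : 𝓔.StepBStmt) (hDeco : 𝓔.DecoStmt) (hStage : StageStmt X)
    (hFine : 𝓔.FineStmt) (hRich : 𝓔.RichArcStmt) {M : Set X} (hM : 𝓔.Oracle M) {p : X}
    {T0 : 𝓔.Tower} {k : ℕ} (hk : 1 ≤ k) (hT : ∀ m < k + 1, T0.LOK M p m) :
    Nonempty (SD T0 M k) := by
  classical
  have hLk := hT k (by omega)
  have hT1 := hT 1 (by omega)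
  obtain ⟨hU1, hids1⟩ := hT1.one rfl
  have hids0 := ((hT 0 (by omega)).zero rfl).2
  obtain ⟨hs1, hs2, hs3, hs4, hs5⟩ := hLk.stage hk
  have hρpos : 0 < T0.ρ (k + 1) := by linarith
  -- radii
  obtain ⟨κ', hκ1, hκ2, hκ3⟩ := exists_small_radius (T0.V k)
    (show 0 < min (T0.κ (k + 1)) (T0.ρ (k + 1)) / 8 by positivity)
  have hκ4 : 8 * κ' ≤ T0.κ (k + 1) := by
    have := min_le_left (T0.κ (k + 1)) (T0.ρ (k + 1))
    linarith
  have hκ5 : 8 * κ' ≤ T0.ρ (k + 1) := by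
    have := min_le_right (T0.κ (k + 1)) (T0.ρ (k + 1))
    linarith
  obtain ⟨ρ0, hρ0, hρ1⟩ := hStage.1 (κ' / 4) (by linarith)
  set ρ' := min ρ0 κ' with hρ'
  have hρ2 : 0 < ρ' := lt_min hρ0 hκ1
  set r' := ρ' / 16 with hr'
  have hr2 : 0 < r' := by positivity
  -- requests
  set reqV : List X := if k + 1 = 2 then [] else
    ((T0.U k).toList.filter (fun u => 𝓔.Rich u)).flatMap
      (fun u => List.replicate (3 * (T0.V k).card ^ 2) u) with hreqV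
  have hfine : ∀ h : ℕ × ℕ, ∃ (F : Set ι) (T : Set I), F.Finite ∧ T.Finite ∧
      T ⊆ interior ((T0.arc h.1 h.2).f ⁻¹' 𝓔.G) ∧
      𝓔.Fine (T0.arc h.1 h.2) F T (1 / (((k + 1 : ℕ) : ℝ) + 1)) := by
    intro h
    obtain ⟨F, T, h1, _, h3, h4, h5⟩ := hFine (T0.arc h.1 h.2) (1 / (((k + 1 : ℕ) : ℝ) + 1))
      (by positivity)
    exact ⟨F, T, h1, h3, h4, h5⟩
  choose Fh Th hF1 hF2 hF3 hF4 using hfine
  set hosts : List (ℕ × ℕ) := (List.range (k + 1)).flatMap (fun l =>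
    if 2 ≤ l then (T0.ids l).map (fun j => (l, j)) else []) with hhosts
  have hmemhosts : ∀ h, h ∈ hosts ↔ T0.IsHost (k + 1) h := by
    rintro ⟨l, j⟩
    rw [hhosts]
    simp only [List.mem_flatMap, List.mem_range, List.mem_ite_nil_right, List.mem_map,
      Prod.mk.injEq, IsHost]
    constructor
    · rintro ⟨l', h1, h2, j', h3, rfl, rfl⟩
      exact ⟨h2, h1, h3⟩
    · rintro ⟨h1, h2, h3⟩
      exact ⟨l, h2, h1, j, h3, rfl, rfl⟩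
  set reqS : List ((ℕ × ℕ) × I) := hosts.flatMap (fun h =>
    (hF2 h).toFinset.toList.map (fun τ => (h, τ))) with hreqS
  have hmemreqS : ∀ h τ, (h, τ) ∈ reqS ↔ T0.IsHost (k + 1) h ∧ τ ∈ Th h := by
    intro h τ
    rw [hreqS, List.mem_flatMap]
    constructor
    · rintro ⟨h', h1, h2⟩
      simp only [List.mem_map, Finset.mem_toList, Set.Finite.mem_toFinset, Prod.mk.injEq] at h2
      obtain ⟨τ', h3, rfl, rfl⟩ := h2
      exact ⟨(hmemhosts _).1 h1, h3⟩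
    · rintro ⟨h1, h2⟩
      refine ⟨h, (hmemhosts _).2 h1, ?_⟩
      rw [List.mem_map]
      exact ⟨τ, by simpa using h2, rfl⟩
  have hreqVmem : ∀ u ∈ reqV, u ∈ T0.U k ∧ 𝓔.Rich u ∧ 3 ≤ k + 1 := by
    intro u hu
    rw [hreqV] at hu
    split_ifs at hu with h
    · simp at hu
    · simp only [List.mem_flatMap, List.mem_filter, Finset.mem_toList, decide_eq_true_eq,
        List.mem_replicate] at hu
      obtain ⟨u', ⟨h1, h2⟩, _, rfl⟩ := hu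
      exact ⟨h1, h2, by omega⟩
  set us : List X := reqV ++ reqS.map (fun h => (T0.arc h.1.1 h.1.2).f h.2) with hus
  have husok : ∀ u ∈ us, u ∈ 𝓔.G ∧ 𝓔.Rich u := by
    intro u hu
    rcases List.mem_append.1 hu with h | h
    · obtain ⟨h1, h2, h3⟩ := hreqVmem u h
      exact ⟨hLk.VG u ((T0.mem_V).2 ⟨k, hk, le_refl _, h1⟩), h2⟩
    · rw [List.mem_map] at h
      obtain ⟨⟨h, τ⟩, h1, rfl⟩ := h
      obtain ⟨h2, h3⟩ := (hmemreqS h τ).1 h1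
      have h4 := hF3 h h3
      have h5 : τ ∈ (T0.arc h.1 h.2).f ⁻¹' 𝓔.G := interior_subset h4
      exact ⟨h5, hRich _ _ h4⟩
  set θ := r' / 12 ^ us.length with hθ
  have hθpos : 0 < θ := by positivity
  have hVne : (↑(T0.V k) : Set X).Nonempty := by
    refine ⟨p, ?_⟩
    rw [Finset.mem_coe, T0.mem_V]
    exact ⟨1, le_refl _, hk, by rw [hU1]; simp⟩
  obtain ⟨l, Us, Ps, c1, c2, c3, c4, _, c6, c7, c8, c9, c10, c11, c12, c13, c14⟩ :=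
    hStepB (T0.S k) (↑(T0.V k)) (T0.r (k + 1)) ∅ θ (hLk.thin hk) (Finset.finite_toSet _) hVne
      (fun x hx => hLk.VG x hx) hs4 finite_empty (empty_subset _) hθpos (hLk.rooted hk)
  obtain ⟨Ds, d1, d2, d3, d4, d5, d6⟩ := hDeco M hM (T0.S k ∪ 𝓔.EL l) (↑(T0.V k) ∪ Us) θ κ' us
    c12 hθpos hκ1 c13 c14 husok
  have hθ2 : 12 ^ us.length * θ = r' := by
    rw [hθ]
    field_simp
  rw [hθ2] at d5 d6
  have hunion : T0.S k ∪ 𝓔.EL l ∪ 𝓔.EL (Ds.flatMap (fun D => D.pre ++ D.post)) =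
      T0.S k ∪ 𝓔.EL (l ++ Ds.flatMap (fun D => D.pre ++ D.post)) := by
    rw [H97.EL_append, Set.union_assoc]
  rw [hunion] at d4 d5 d6
  have hPhost : ∀ p ∈ Ps, ∃ (h : ℕ × ℕ) (t : I), T0.IsHost (k + 1) h ∧
      (T0.arc h.1 h.2).f t = p := by
    intro p hp
    obtain ⟨l', hl', j, hj, t, ht⟩ := T0.host (c6 p hp).1
    refine ⟨(l', j), t, ⟨?_, by simp only; omega, hj⟩, ht⟩
    simp only
    by_contra hcon
    have : l' = 0 ∨ l' = 1 := by omega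
    rcases this with rfl | rfl
    · rw [hids0] at hj; simp at hj
    · rw [hids1] at hj; simp at hj
  choose! hh ht hP1 hP2 using hPhost
  have hPfin : Ps.Finite := c1.subset c4
  refine ⟨⟨κ', ρ', r', l, Us, Ps, reqV, reqS, Ds.take reqV.length, Ds.drop reqV.length,
    hPfin.toFinset.toList.map (fun p => (p, hh p, ht p)), hκ1, hκ4, hκ5, hκ3,
    stageOK_mono hρ1 (min_le_left _ _), min_le_right _ _, hr2, by rw [hr']; linarith, c1, c2, c3,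
    c4, fun p hp => (c6 p hp).2, c7, c8, c9, c10, c11, ?_, ?_, ?_, ?_, ?_, ?_, ?_, ?_, ?_, ?_,
    ?_, ?_, ?_, ?_, ?_⟩⟩
  · intro h
    rw [hreqV, if_pos h]
  · intro h u hu hr
    rw [hreqV, if_neg (by omega), List.count_flatMap]
    have h1 : u ∈ (T0.U k).toList.filter (fun u => 𝓔.Rich u) := by
      simp [hu, hr]
    have h2 : 3 * (T0.V k).card ^ 2 = (List.count u ∘ fun u =>
        List.replicate (3 * (T0.V k).card ^ 2) u) u := by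
      simp [List.count_replicate_self]
    conv_lhs => rw [h2]
    exact List.single_le_sum (fun _ _ => Nat.zero_le _) _ (List.mem_map_of_mem h1)
  · exact fun u hu => ⟨(hreqVmem u hu).1, (hreqVmem u hu).2.2⟩
  · rintro ⟨h, τ⟩ h1
    exact ((hmemreqS h τ).1 h1).1
  · intro l' j h1 h2 h3
    exact ⟨Fh (l', j), Th (l', j), hF1 _, hF2 _, hF4 (l', j), fun τ hτ =>
      (hmemreqS _ _).2 ⟨⟨h1, h2, h3⟩, hτ⟩⟩
  · rw [List.map_take, d1, hus, List.take_left]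
  · rw [List.map_drop, d1, hus, List.drop_left]
  · rw [List.take_append_drop]; exact d2
  · rw [List.take_append_drop]; exact d3
  · rw [List.take_append_drop]; exact d4
  · rw [List.take_append_drop]; exact d5
  · rw [List.take_append_drop]; exact d6
  · rw [List.map_map]
    have : (Prod.fst ∘ fun p : X => (p, hh p, ht p)) = id := rfl
    rw [this, List.map_id]
    exact Finset.nodup_toList _
  · intro x
    simp
  · intro q hq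
    rw [List.mem_map] at hq
    obtain ⟨p', hp', rfl⟩ := hq
    rw [Finset.mem_toList, Set.Finite.mem_toFinset] at hp'
    exact ⟨hP1 p' hp', hP2 p' hp'⟩

end EdgeSys

end Pool.Agent.EU
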