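import Pool.Agent.Helper17_EU.TopD

/-! # TOP, part E: the new level -/

open Set Metric Topology unitInterval

noncomputable section

namespace Pool.Agent.EU

universe u v

namespace EdgeSys

variable {X : Type u} [MetricSpace X] {ι : Type v} {𝓔 : EdgeSys X ι}

open Tower

/-- arcs of a decoration -/
def darcs (D : 𝓔.RawDeco) : List 𝓔.Arc := D.pre ++ D.post

/-- the new level -/
def SD.lev {T0 : 𝓔.Tower} {M : Set X} {k : ℕ} (s : SD T0 M k) (a0 : 𝓔.Arc) : 𝓔.Lev where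
  arc j := (s.l ++ s.D1.flatMap darcs ++ s.D2.flatMap darcs).getD j a0
  U := s.Ufin.toFinset
  FA := List.range' 0 s.l.length
  DV := conv (k + 1) s.l.length 0 s.D1
  DS := (conv (k + 1) (s.l.length + (s.D1.flatMap darcs).length) s.D1.length s.D2).zip s.reqS
  PK := s.PKl
  κ' := s.κ'
  ρ' := s.ρ'
  r' := s.r'

/-- abstract description of a tower which extends `T0` by a new level given by `s` -/
structure Ext (T0 : 𝓔.Tower) {M : Set X} {k : ℕ} (s : SD T0 M k) (a0 : 𝓔.Arc) (T : 𝓔.Tower) :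
    Prop where
  ag : Agree T0 T k
  κ0 : T.κ (k + 1) = T0.κ (k + 1)
  ρ0 : T.ρ (k + 1) = T0.ρ (k + 1)
  r0 : T.r (k + 1) = T0.r (k + 1)
  arc : T.arc (k + 1) = fun j => (s.l ++ s.D1.flatMap darcs ++ s.D2.flatMap darcs).getD j a0
  U : T.U (k + 1) = s.Ufin.toFinset
  FA : T.FA (k + 1) = List.range' 0 s.l.length
  DV : T.DV (k + 1) = conv (k + 1) s.l.length 0 s.D1
  DS : T.DS (k + 1) = (conv (k + 1) (s.l.length + (s.D1.flatMap darcs).length)
    s.D1.length s.D2).zip s.reqS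
  PK : T.PK (k + 1) = s.PKl
  κ1 : T.κ (k + 2) = s.κ'
  ρ1 : T.ρ (k + 2) = s.ρ'
  r1 : T.r (k + 2) = s.r'

theorem ext_update {f : ℕ → 𝓔.Lev} {M : Set X} {k : ℕ} (s : SD (Tw f) M k) (a0 : 𝓔.Arc) :
    Ext (Tw f) s a0 (Tw (Function.update f (k + 1) (s.lev a0))) := by
  have h1 : ∀ m ≤ k, Function.update f (k + 1) (s.lev a0) m = f m := fun m hm =>
    Function.update_of_ne (by omega) _ _
  have hg1 : Function.update f (k + 1) (s.lev a0) (k + 1) = s.lev a0 := Function.update_self _ _ _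
  have hg2 := h1 k (le_refl _)
  have hag := agree_Tw (fun m hm => (h1 m hm).symm)
  generalize Function.update f (k + 1) (s.lev a0) = g at *
  refine ⟨hag, ?_, ?_, ?_, ?_, ?_, ?_, ?_, ?_, ?_, ?_, ?_, ?_⟩
  · show (g k).κ' = (f k).κ'
    rw [hg2]
  · show (g k).ρ' = (f k).ρ'
    rw [hg2]
  · show (g k).r' = (f k).r'
    rw [hg2]
  · show (g (k + 1)).arc = _
    rw [hg1]; rfl
  · show (g (k + 1)).U = _
    rw [hg1]; rfl
  · show (g (k + 1)).FA = _
    rw [hg1]; rfl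
  · show (g (k + 1)).DV = _
    rw [hg1]; rfl
  · show (g (k + 1)).DS = _
    rw [hg1]; rfl
  · show (g (k + 1)).PK = _
    rw [hg1]; rfl
  · show (g (k + 1)).κ' = _
    rw [hg1]; rfl
  · show (g (k + 1)).ρ' = _
    rw [hg1]; rfl
  · show (g (k + 1)).r' = _
    rw [hg1]; rfl

namespace Ext

variable {T0 T : 𝓔.Tower} {M : Set X} {k : ℕ} {s : SD T0 M k} {a0 : 𝓔.Arc}

theorem darcs_eq : (fun D : 𝓔.RawDeco => D.pre ++ D.post) = darcs := rfl

theorem lenDS (s : SD T0 M k) : (conv (k + 1) (s.l.length + (s.D1.flatMap darcs).length)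
    s.D1.length s.D2).length = s.reqS.length := by
  rw [conv_length]
  have := congrArg List.length s.b2
  simpa using this

theorem ids (h : Ext T0 s a0 T) : T.ids (k + 1) =
    List.range' 0 (s.l ++ s.D1.flatMap darcs ++ s.D2.flatMap darcs).length := by
  unfold Tower.ids
  rw [h.FA, h.DV, h.DS, flatMap_zip (fun D : Deco X ι => D.pre ++ D.post) (lenDS s), conv_ids,
    conv_ids, darcs_eq]
  simp only [List.length_append]
  have h1 := List.range'_append_1 (s := 0) (m := s.l.length) (n := (s.D1.flatMap darcs).length)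
  rw [Nat.zero_add] at h1
  rw [h1]
  have h2 := List.range'_append_1 (s := 0) (m := s.l.length + (s.D1.flatMap darcs).length)
    (n := (s.D2.flatMap darcs).length)
  rw [Nat.zero_add] at h2
  exact h2

theorem arcs (h : Ext T0 s a0 T) : T.arcs (k + 1) =
    s.l ++ s.D1.flatMap darcs ++ s.D2.flatMap darcs := by
  unfold Tower.arcs
  rw [h.ids, h.arc]
  have := map_getD_range' a0 [] (s.l ++ s.D1.flatMap darcs ++ s.D2.flatMap darcs) []
  simpa using this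

theorem mapFA (h : Ext T0 s a0 T) : (T.FA (k + 1)).map (T.arc (k + 1)) = s.l := by
  rw [h.FA, h.arc]
  have := map_getD_range' a0 [] s.l (s.D1.flatMap darcs ++ s.D2.flatMap darcs)
  simpa using this

theorem arc_mem (h : Ext T0 s a0 T) {j : ℕ} (hj : j ∈ T.ids (k + 1)) :
    T.arc (k + 1) j ∈ s.l ++ s.D1.flatMap darcs ++ s.D2.flatMap darcs := by
  rw [← h.arcs]
  exact List.mem_map_of_mem hj

theorem flat_eq (s : SD T0 M k) : s.l ++ (s.D1 ++ s.D2).flatMap (fun D => D.pre ++ D.post) =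
    s.l ++ s.D1.flatMap darcs ++ s.D2.flatMap darcs := by
  rw [List.flatMap_append, darcs_eq, List.append_assoc]

theorem S0 (h : Ext T0 s a0 T) : T.S k = T0.S k := (h.ag.S (le_refl _)).symm

theorem V0 (h : Ext T0 s a0 T) : T.V k = T0.V k := (h.ag.V (le_refl _)).symm

theorem S (h : Ext T0 s a0 T) : T.S (k + 1) =
    T0.S k ∪ 𝓔.EL (s.l ++ (s.D1 ++ s.D2).flatMap (fun D => D.pre ++ D.post)) := by
  rw [S_succ, h.S0, h.arcs, flat_eq]

theorem V (h : Ext T0 s a0 T) (hk : 1 ≤ k) : (↑(T.V (k + 1)) : Set X) = ↑(T0.V k) ∪ s.Us := by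
  ext x
  rw [Finset.mem_coe, T.mem_V_succ (by omega), Nat.add_sub_cancel, h.V0, h.U]
  simp

theorem P (h : Ext T0 s a0 T) (x : X) : x ∈ T.P (k + 1) ↔ x ∈ s.Ps := by
  rw [T.mem_P, h.PK, ← s.PKmem, List.mem_map]

theorem U' (h : Ext T0 s a0 T) (x : X) : x ∈ T.U' (k + 1) ↔ x ∈ s.Us \ s.Ps := by
  rw [T.mem_U', h.P, h.U]
  simp

theorem rawY (s : SD T0 M k) {D : 𝓔.RawDeco} (hD : D ∈ s.D1 ++ s.D2) {b : 𝓔.Arc}
    (hb : b ∈ darcs D) : range b.f ⊆ 𝓔.Y (T0.S k ∪ 𝓔.EL s.l) := by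
  have := (s.dok D hD).2.2.2.1
  exact fun x hx => (this ⟨b, hb, hx⟩).1

/-- all new arcs lie in `Y (S k)` -/
theorem arcY (s : SD T0 M k) {b : 𝓔.Arc}
    (hb : b ∈ s.l ++ s.D1.flatMap darcs ++ s.D2.flatMap darcs) : range b.f ⊆ 𝓔.Y (T0.S k) := by
  rw [List.append_assoc, List.mem_append, ← List.flatMap_append, List.mem_flatMap] at hb
  rcases hb with hb | ⟨D, hD, hb⟩
  · exact fun x hx => s.lY ⟨b, hb, hx⟩
  · exact (rawY s hD hb).trans (Y_anti subset_union_left)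

theorem disjE {b : 𝓔.Arc} {S : Set ι} (h : range b.f ⊆ 𝓔.Y S) : Disjoint b.E S := by
  rw [Set.disjoint_left]
  intro i hi hi'
  obtain ⟨x, hx⟩ := H97.o_nonempty 𝓔 i
  have := h (hi hx)
  apply this
  simp only [mem_iUnion]
  exact ⟨i, hi', hx⟩

theorem allED (s : SD T0 M k) :
    𝓔.EDisj (s.l ++ s.D1.flatMap darcs ++ s.D2.flatMap darcs) := by
  rw [List.append_assoc, ← List.flatMap_append]
  unfold EDisj
  rw [List.pairwise_append]
  refine ⟨s.lED, s.dED, ?_⟩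
  intro a ha b hb
  rw [List.mem_flatMap] at hb
  obtain ⟨D, hD, hb⟩ := hb
  have h1 := disjE (rawY s hD hb)
  rw [Set.disjoint_left] at h1 ⊢
  intro i hi hi'
  exact h1 hi' (Or.inr ⟨a, ha, hi⟩)

/-- transfer of decorations -/
theorem decoOK (h : Ext T0 s a0 T) {D : 𝓔.RawDeco} (hD : D ∈ s.D1 ++ s.D2) {D' : Deco X ι}
    (h1 : D'.base = D.base) (h2 : D'.pt = D.pt) (h3 : D'.pre.map (T.arc (k + 1)) = D.pre)
    (h4 : D'.post.map (T.arc (k + 1)) = D.post)
    (h5 : ((∃ i, D.lmE = some i ∧ D'.mrk = none ∧ D'.lm = Sum.inl i) ∨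
        (∃ k, D.lmE = none ∧ D'.mrk = some k ∧ D'.lm = Sum.inr k))) : T.DecoOK M (k + 1) D' := by
  obtain ⟨c1, c2, c3, c4, c5, c6, c7, c8⟩ := s.dok D hD
  refine ⟨?_, ?_, ?_, ?_, ?_, ?_, ?_⟩
  · rw [h1, h2, h3]; exact c1
  · rw [h1, h2, h4]; exact c2
  · rw [List.map_append, h3, h4, h1, h.κ1]
    intro x hx
    exact ball_subset_closedBall (c4 hx).2
  · rw [h1]; exact c5
  · rw [h1, h2, h.κ1]
    exact ⟨c6.1, ball_subset_closedBall c6.2⟩
  · intro q hq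
    rcases h5 with ⟨i, h6, h7, h8⟩ | ⟨q', h6, h7, h8⟩
    · rw [h7] at hq
      simp at hq
    · rw [h7] at hq
      simp only [Option.some.injEq] at hq
      subst hq
      rw [h2]
      exact ⟨h8, c8 h6⟩
  · intro hq
    rcases h5 with ⟨i, h6, h7, h8⟩ | ⟨q', h6, h7, h8⟩
    · rw [List.map_append, h3, h4]
      exact ⟨i, c7 i h6, h8⟩
    · rw [h7] at hq
      simp at hq

theorem mapBase (s : SD T0 M k) (o c : ℕ) :
    (conv (k + 1) o c s.D2).map (fun D => D.base) =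
      s.reqS.map (fun h => (T0.arc h.1.1 h.1.2).f h.2) := by
  rw [conv_base, s.b2]

theorem DVmem (h : Ext T0 s a0 T) {D' : Deco X ι} (hD' : D' ∈ T.DV (k + 1)) :
    T.DecoOK M (k + 1) D' ∧ D'.base ∈ s.reqV := by
  rw [h.DV] at hD'
  have h0 : D'.base ∈ s.reqV := by
    rw [← s.b1, ← conv_base (k + 1) s.D1 s.l.length 0]
    exact List.mem_map_of_mem hD'
  refine ⟨?_, h0⟩
  obtain ⟨D, h1, h2, h3, h4, h5, h6⟩ := conv_mem (k + 1) a0 s.D1 s.l.length 0 s.l
    (s.D2.flatMap darcs) rfl D' hD'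
  refine h.decoOK (List.mem_append_left _ h1) h2 h3 ?_ ?_ h6
  · rw [h.arc]; exact h4
  · rw [h.arc]; exact h5

theorem DSmem (h : Ext T0 s a0 T) {D' : Deco X ι × (ℕ × ℕ) × I} (hD' : D' ∈ T.DS (k + 1)) :
    T.DecoOK M (k + 1) D'.1 ∧ T0.IsHost (k + 1) D'.2.1 ∧
      (T0.arc D'.2.1.1 D'.2.1.2).f D'.2.2 = D'.1.base := by
  rw [h.DS] at hD'
  obtain ⟨D1, q⟩ := D'
  have h7 := List.of_mem_zip hD'
  have h8 := zip_rel (mapBase s _ _) hD'
  refine ⟨?_, s.reqSh _ h7.2, h8.symm⟩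
  obtain ⟨D, h1, h2, h3, h4, h5, h6⟩ := conv_mem (k + 1) a0 s.D2
    (s.l.length + (s.D1.flatMap darcs).length) s.D1.length (s.l ++ s.D1.flatMap darcs) []
    (by rw [List.length_append]) D1 h7.1
  rw [List.append_nil] at h4 h5
  refine h.decoOK (List.mem_append_right _ h1) h2 h3 ?_ ?_ h6
  · rw [h.arc]; exact h4
  · rw [h.arc]; exact h5

theorem marks (h : Ext T0 s a0 T) : ((T.marks (k + 1)).map Prod.fst).Nodup ∧
    ∀ q ∈ (T.marks (k + 1)).map Prod.fst, (Nat.unpair q).1 = k + 1 := by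
  rw [marks_fst, h.DV, h.DS, filterMap_zip (fun D : Deco X ι => D.mrk) (lenDS s)]
  obtain ⟨a1, a2⟩ := conv_marks (k + 1) s.D1 s.l.length 0
  obtain ⟨b1, b2⟩ := conv_marks (k + 1) s.D2 (s.l.length + (s.D1.flatMap darcs).length)
    s.D1.length
  constructor
  · rw [List.nodup_append]
    refine ⟨a1, b1, ?_⟩
    intro x hx y hy hxy
    obtain ⟨c, _, h3, h4⟩ := a2 x hx
    obtain ⟨c', h5, h6, h7⟩ := b2 y hy
    rw [hxy, h7] at h4
    have := (Nat.pair_eq_pair.1 h4).2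
    omega
  · intro q hq
    rcases List.mem_append.1 hq with h1 | h1
    · obtain ⟨c, _, _, h4⟩ := a2 q h1
      rw [h4, Nat.unpair_pair]
    · obtain ⟨c, _, _, h4⟩ := b2 q h1
      rw [h4, Nat.unpair_pair]

end Ext

end EdgeSys

end Pool.Agent.EU
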