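import Pool.Agent.Helper17_EU.TopE

/-! # TOP, part F: the new level satisfies the level conditions -/

open Set Metric Topology unitInterval

noncomputable section

namespace Pool.Agent.EU

universe u v

namespace EdgeSys

variable {X : Type u} [MetricSpace X] {ι : Type v} {𝓔 : EdgeSys X ι}

open Tower

namespace Ext

variable {T0 T : 𝓔.Tower} {M : Set X} {k : ℕ} {s : SD T0 M k} {a0 : 𝓔.Arc}

theorem host_iff (h : Ext T0 s a0 T) {q : ℕ × ℕ} : T0.IsHost (k + 1) q ↔ T.IsHost (k + 1) q := by
  unfold Tower.IsHost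
  constructor
  · rintro ⟨h1, h2, h3⟩
    rw [h.ag.ids (by omega)] at h3
    exact ⟨h1, h2, h3⟩
  · rintro ⟨h1, h2, h3⟩
    rw [← h.ag.ids (by omega)] at h3
    exact ⟨h1, h2, h3⟩

theorem arc_host (h : Ext T0 s a0 T) {q : ℕ × ℕ} (hq : T0.IsHost (k + 1) q) :
    T.arc q.1 q.2 = T0.arc q.1 q.2 := by
  rw [← h.ag.arc q.1 (by have := hq.2.1; omega)]

theorem levelA (h : Ext T0 s a0 T) {p : X} (hk : 1 ≤ k) (hL : T0.LOK M p k) :
    T.LevelA (k + 1) := by
  obtain ⟨s1, s2, s3, s4, s5⟩ := hL.stage hk
  refine ⟨?_, ?_, ?_, ?_, ?_, ?_, ?_, ?_, ?_, ?_, ?_, ?_⟩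
  · intro x hx
    rw [h.U] at hx
    exact s.UG (by simpa using hx)
  · intro x hx hx'
    rw [h.U] at hx
    rw [Nat.add_sub_cancel, h.V0] at hx'
    exact Set.disjoint_left.1 s.UV (by simpa using hx) hx'
  · intro x hx
    rw [h.P] at hx
    rw [h.U]
    simpa using s.PU hx
  · rw [h.PK]; exact s.PKnd
  · rw [h.PK]
    intro q hq
    obtain ⟨h1, h2⟩ := s.PKh q hq
    refine ⟨h.host_iff.1 h1, ?_⟩
    rw [h.arc_host h1]
    exact h2
  · intro x hx v hv hv'
    rw [Nat.add_sub_cancel] at hv hv'
    rw [h.V0, h.P] at hv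
    rw [h.S0] at hv'
    exact s.Piso x ((h.P x).1 hx) v hv hv'
  · rw [Nat.add_sub_cancel, h.S0, h.V0, h.r0]
    exact hL.big hk
  · rw [h.κ0, h.ρ0]; exact s1
  · rw [h.κ0, h.ρ0]; exact s2
  · rw [h.κ0]; exact s3
  · rw [h.r0]; exact s4
  · rw [h.r0, h.ρ0]; exact s5

theorem levelB (h : Ext T0 s a0 T) {p : X} (hk : 1 ≤ k) (hT : ∀ m < k + 1, T0.LOK M p m) :
    T.LevelB M (k + 1) := by
  have hVk : ∀ x, x ∈ T.V (k + 1) ↔ x ∈ (↑(T0.V k) : Set X) ∪ s.Us := by
    intro x
    rw [← h.V hk, Finset.mem_coe]
  have hids : T.ids (k + 1) =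
      List.range' 0 (s.l ++ s.D1.flatMap darcs ++ s.D2.flatMap darcs).length := h.ids
  refine ⟨?_, ?_, ?_, ?_, ?_, ?_, ?_, ?_, ?_, ?_, ?_, ?_, ?_, ?_, ?_⟩
  · rw [hids]; exact List.nodup_range'
  · intro j hj
    rw [Nat.add_sub_cancel, h.S0]
    exact disjE (arcY s (h.arc_mem hj))
  · intro j hj j' hj' hne
    have hED := allED s
    unfold EDisj at hED
    rw [hids, List.mem_range'_1] at hj hj'
    rw [List.pairwise_iff_getElem] at hED
    have e1 : ∀ i (hi : i < (s.l ++ s.D1.flatMap darcs ++ s.D2.flatMap darcs).length),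
        T.arc (k + 1) i = (s.l ++ s.D1.flatMap darcs ++ s.D2.flatMap darcs)[i] := by
      intro i hi
      rw [h.arc]
      exact List.getD_eq_getElem _ _ hi
    rw [e1 j (by omega), e1 j' (by omega)]
    rcases Nat.lt_or_gt_of_ne hne with h1 | h1
    · exact hED j j' (by omega) (by omega) h1
    · exact (hED j' j (by omega) (by omega) h1).symm
  · intro j hj
    rw [Nat.add_sub_cancel, h.S0]
    exact arcY s (h.arc_mem hj)
  · intro j hj
    have h1 : T.arc (k + 1) j ∈ s.l := by
      rw [← h.mapFA]; exact List.mem_map_of_mem hj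
    obtain ⟨h2, h3, h4⟩ := s.lends _ h1
    refine ⟨(hVk _).2 h2, (hVk _).2 h3, ?_⟩
    rw [h.U', h.U']
    exact h4
  · intro j hj
    have h1 : T.arc (k + 1) j ∈ s.l := by
      rw [← h.mapFA]; exact List.mem_map_of_mem hj
    rw [h.r0]
    exact s.lsmall _ h1
  · intro u hu
    rw [h.U'] at hu
    rw [h.mapFA, h.r0, Nat.add_sub_cancel, h.V0]
    have h2 : (↑(T.P (k + 1)) : Set X) = s.Ps := by
      ext x
      rw [Finset.mem_coe, h.P]
    rw [h2]
    exact s.lroot u hu
  · intro D hD
    obtain ⟨h1, h2⟩ := h.DVmem hD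
    obtain ⟨h3, h4⟩ := s.reqVU _ h2
    refine ⟨h1, ?_, h4⟩
    rw [Nat.add_sub_cancel, ← h.ag.U k (le_refl _)]
    exact h3
  · intro D hD
    obtain ⟨h1, h2, h3⟩ := h.DSmem hD
    refine ⟨h1, h.host_iff.1 h2, ?_⟩
    rw [h.arc_host h2]
    exact h3
  · rw [h.κ1, h.ρ0]; exact s.κρ
  · rw [h.κ1, h.κ0]; exact s.κκ
  · rw [h.κ1]; exact s.κpos
  · rw [Nat.add_sub_cancel, h.V0, h.κ1]; exact s.κd
  · exact h.marks.1
  · intro l hl q hq hq'
    have h1 := h.marks.2 q hq
    rw [← h.ag.marks (by omega : l ≤ k)] at hq'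
    have h2 := (hT l hl).mkp q hq'
    omega

theorem lok (h : Ext T0 s a0 T) {p : X} (hk : 1 ≤ k) (hT : ∀ m < k + 1, T0.LOK M p m)
    (hD : 𝓔.ArcDichStmt) (hPA : 𝓔.ParAddStmt) (hPC : 𝓔.ParChainStmt) :
    T.LOK M p (k + 1) := by
  classical
  have hLk := hT k (by omega)
  have hVk : ∀ x, x ∈ T.V (k + 1) ↔ x ∈ (↑(T0.V k) : Set X) ∪ s.Us := by
    intro x
    rw [← h.V hk, Finset.mem_coe]
  have hdA : T.dA (k + 1) = fun v => T0.dA k v + 𝓔.degL s.l v := by
    rw [dA_succ', h.mapFA, ← h.ag.dA (le_refl _)]
  refine ⟨?_, ?_, ?_, ?_, ?_, ?_, ?_, ?_, ?_, ?_, ?_, ?_, ?_, ?_, ?_⟩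
  · intro h0; omega
  · intro h0; omega
  · exact fun _ => h.levelA hk hLk
  · exact fun _ => h.levelB hk hT
  · intro _
    rw [h.S]; exact s.thin
  · intro _
    rw [h.S, h.V hk, h.r1]; exact s.rooted
  · intro _
    rw [h.S, h.V hk, h.r1]; exact s.big
  · intro _
    have h1 := hPA (T0.S k) (T0.V k) (T.V (k + 1)) (T0.dA k) s.l (hLk.par hk)
      (fun x hx => (hVk x).2 (Or.inl hx)) hLk.dAz s.lED s.lY
      (fun a ha => ⟨(hVk _).2 (s.lends a ha).1, (hVk _).2 (s.lends a ha).2.1⟩)
    have h2 := par_decos hD hPC (s.D1 ++ s.D2) (T0.S k ∪ 𝓔.EL s.l) (fun D hD' => by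
      obtain ⟨c1, c2, c3, c4, c5, c6, c7, c8⟩ := s.dok D hD'
      exact ⟨c1, c2, fun x hx => (c4 hx).1⟩) s.dED h1
    rw [h.S, H97.EL_append, ← Set.union_assoc, hdA]
    exact h2
  · intro _
    rw [h.κ1, h.ρ1, h.r1]
    exact ⟨s.stage, s.ρκ, s.κpos, s.rpos, s.rρ⟩
  · intro h2
    have h3 : k = 1 := by omega
    subst h3
    rw [h.DV]
    have h4 := congrArg List.length s.b1
    rw [s.reqV2 rfl] at h4
    have h5 : s.D1 = [] := by
      rw [← List.length_eq_zero_iff]
      simpa using h4
    rw [h5]
    rfl
  · intro h3 u hu hr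
    rw [Nat.add_sub_cancel] at hu ⊢
    rw [← h.ag.U k (le_refl _)] at hu
    rw [h.V0]
    refine (s.reqVc h3 u hu hr).trans ?_
    rw [← s.b1, ← conv_base (k + 1) s.D1 s.l.length 0, ← h.DV, List.count, List.countP_map]
    refine le_of_eq (List.countP_congr ?_)
    intro D _
    simp
  · intro _ l j h2 h3 h4
    rw [← h.ag.ids (by omega)] at h4
    obtain ⟨Fk, Tk, h5, h6, h7, h8⟩ := s.reqSf l j h2 h3 h4
    refine ⟨Fk, Tk, h5, h6, ?_, ?_⟩
    · rw [← h.ag.arc l (by omega)]
      exact h7
    · intro τ hτ
      obtain ⟨D, hDm⟩ := exists_zip (lenDS s) (h8 τ hτ)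
      refine ⟨D, ?_⟩
      rw [h.DS]
      exact hDm
  · exact h.marks.2
  · intro x hx
    rcases (hVk x).1 hx with h1 | h1
    · exact hLk.VG x h1
    · exact s.UG h1
  · intro v hv
    rw [hdA]
    have h1 : v ∉ T0.V k := fun h' => hv ((hVk v).2 (Or.inl h'))
    simp only [hLk.dAz v h1, zero_add, degL, Nat.add_eq_zero_iff, List.countP_eq_zero,
      decide_eq_true_eq]
    constructor
    · rintro a ha rfl
      exact hv ((hVk _).2 (s.lends a ha).1)
    · rintro a ha rfl
      exact hv ((hVk _).2 (s.lends a ha).2.1)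

end Ext

/-! ### the first two levels -/

theorem small_univ [CompactSpace X] : ∃ D : ℝ, 0 < D ∧ Small D (univ : Set X) := by
  refine ⟨diam (univ : Set X) + 1, by positivity, ?_⟩
  intro x _ y _
  have := dist_le_diam_of_mem (isCompact_univ (X := X)).isBounded (mem_univ x) (mem_univ y)
  linarith

theorem top_stmt [CompactSpace X] [ConnectedSpace X] [Nontrivial X]
    (hStepB : 𝓔.StepBStmt) (hDeco : 𝓔.DecoStmt) (hStage : StageStmt X)
    (hFine : 𝓔.FineStmt) (hRich : 𝓔.RichArcStmt) (hArc : 𝓔.ArcStmt) (hD : 𝓔.ArcDichStmt)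
    (hPA : 𝓔.ParAddStmt) (hPC : 𝓔.ParChainStmt) : 𝓔.TopStmt := by
  classical
  intro M hM hE
  obtain ⟨a0⟩ := exists_arc hArc
  obtain ⟨D, hD0, hDs⟩ := small_univ (X := X)
  set p : X := a0.f 0 with hp
  have hpG : p ∈ 𝓔.G := a0.h0
  let L0 : 𝓔.Lev := ⟨fun _ => a0, ∅, [], [], [], [], 1, 1, 1⟩
  let L1 : 𝓔.Lev := ⟨fun _ => a0, {p}, [], [], [], [], 64 * D, 16 * D, D⟩
  have hchoice := dep_choice L0 (fun n f => (Tw f).LOK M p n)
    (fun n f g hfg h => h.congr_Tw hfg) (by
      intro n f hf
      rcases Nat.lt_or_ge n 1 with h0 | h0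
      · have : n = 0 := by omega
        subst this
        refine ⟨L0, ?_⟩
        have e : Function.update f 0 L0 0 = L0 := Function.update_self _ _ _
        generalize Function.update f 0 L0 = g at e
        have hU : (Tw g).U 0 = ∅ := by
          show (g 0).U = ∅
          rw [e]
        have hids : (Tw g).ids 0 = [] := by
          show (g 0).FA ++ (g 0).DV.flatMap _ ++ (g 0).DS.flatMap _ = []
          rw [e]; rfl
        have hmk : (Tw g).marks 0 = [] := by
          show (g 0).DV.filterMap _ ++ (g 0).DS.filterMap _ = []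
          rw [e]; rfl
        have hFA : (Tw g).FA 0 = [] := by
          show (g 0).FA = []
          rw [e]
        refine ⟨fun _ => ⟨hU, hids⟩, ?_, ?_, ?_, ?_, ?_, ?_, ?_, ?_, ?_, ?_, ?_, ?_, ?_, ?_⟩
        · intro h; omega
        · intro h; omega
        · intro h; omega
        · intro h; omega
        · intro h; omega
        · intro h; omega
        · intro h; omega
        · intro h; omega
        · intro h; omega
        · intro h; omega
        · intro h; omega
        · rw [hmk]; simp
        · intro x hx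
          rw [mem_V] at hx
          obtain ⟨l, h1, h2, _⟩ := hx
          omega
        · intro v _
          unfold Tower.dA
          rw [Finset.sum_range_one, hFA]
          simp [degL]
      · rcases Nat.lt_or_ge n 2 with h1 | h1
        · have : n = 1 := by omega
          subst this
          have hf0 := hf 0 (by omega)
          obtain ⟨f1, f2⟩ := hf0.zero rfl
          refine ⟨L1, ?_⟩
          have e : Function.update f 1 L1 1 = L1 := Function.update_self _ _ _
          have e0 : Function.update f 1 L1 0 = f 0 := Function.update_of_ne (by omega) _ _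
          have f1' : (f 0).U = ∅ := f1
          have f2' : (f 0).FA = [] ∧ (f 0).DV.flatMap (fun D => D.pre ++ D.post) = [] ∧
              (f 0).DS.flatMap (fun D => D.1.pre ++ D.1.post) = [] := by
            have : (f 0).FA ++ (f 0).DV.flatMap (fun D => D.pre ++ D.post) ++
              (f 0).DS.flatMap (fun D => D.1.pre ++ D.1.post) = [] := f2
            rw [List.append_assoc, List.append_eq_nil_iff, List.append_eq_nil_iff] at this
            exact this
          generalize Function.update f 1 L1 = g at e e0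
          have hU : (Tw g).U 1 = {p} := by
            show (g 1).U = {p}
            rw [e]
          have hids : (Tw g).ids 1 = [] := by
            show (g 1).FA ++ (g 1).DV.flatMap _ ++ (g 1).DS.flatMap _ = []
            rw [e]; rfl
          have hids0 : (Tw g).ids 0 = [] := by
            show (g 0).FA ++ (g 0).DV.flatMap (fun D => D.pre ++ D.post) ++
              (g 0).DS.flatMap (fun D => D.1.pre ++ D.1.post) = []
            rw [e0, f2'.1, f2'.2.1, f2'.2.2]; rfl
          have hmk : (Tw g).marks 1 = [] := by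
            show (g 1).DV.filterMap _ ++ (g 1).DS.filterMap _ = []
            rw [e]; rfl
          have hFA : ∀ l ∈ Finset.range 2, (Tw g).FA l = [] := by
            intro l hl
            rw [Finset.mem_range] at hl
            interval_cases l
            · show (g 0).FA = []
              rw [e0, f2'.1]
            · show (g 1).FA = []
              rw [e]
          have hS : (Tw g).S 1 = ∅ := by
            ext i
            simp only [mem_empty_iff_false, iff_false]
            rintro ⟨l, hl, h⟩
            unfold Tower.arcs at h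
            have : (Tw g).ids l = [] := by
              interval_cases l
              · exact hids0
              · exact hids
            rw [this] at h
            simp [EL] at h
          have hV : (Tw g).V 1 = {p} := by
            ext x
            rw [mem_V]
            constructor
            · rintro ⟨l, h2, h3, h4⟩
              have : l = 1 := by omega
              subst this
              rwa [hU] at h4
            · intro hx
              exact ⟨1, le_refl _, le_refl _, by rwa [hU]⟩
          have hdA : (Tw g).dA 1 = fun _ => 0 := by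
            funext v
            unfold Tower.dA
            refine Finset.sum_eq_zero ?_
            intro l hl
            rw [hFA l hl]
            simp [degL]
          have hκ : (Tw g).κ 2 = 64 * D := by
            show (g 1).κ' = _
            rw [e]
          have hρ : (Tw g).ρ 2 = 16 * D := by
            show (g 1).ρ' = _
            rw [e]
          have hr : (Tw g).r 2 = D := by
            show (g 1).r' = _
            rw [e]
          have hYe : 𝓔.Y ∅ = univ := by simp [Y]
          refine ⟨?_, fun _ => ⟨hU, hids⟩, ?_, ?_, ?_, ?_, ?_, ?_, ?_, ?_, ?_, ?_, ?_, ?_, ?_⟩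
          · intro h; omega
          · intro h; omega
          · intro h; omega
          · intro _
            rw [hS]; exact H97.thin_empty
          · intro _ x hx
            left
            rw [hS, hYe, hV, hr]
            exact ⟨univ, subset_univ _, isPreconnected_univ, trivial, ⟨p, by simp, trivial⟩, hDs⟩
          · intro _ i _ h2
            exfalso
            apply h2
            rw [hr]
            exact fun y _ z _ => hDs y trivial z trivial
          · intro _
            rw [hS, hV, hdA]
            intro K hK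
            have h2 := hE K hK
            rw [Set.sdiff_empty]
            have h3 : ∑ v ∈ ({p} : Finset X), K.indicator (fun _ => 0) v = 0 := by
              refine Finset.sum_eq_zero ?_
              intro v _
              by_cases hv : v ∈ K
              · rw [Set.indicator_of_mem hv]
              · rw [Set.indicator_of_notMem hv]
            rw [h3, add_zero]
            exact h2
          · intro _
            rw [hκ, hρ, hr]
            refine ⟨hStage.2 _ ?_ _, by linarith, by linarith, hD0, le_refl _⟩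
            intro x hx y hy
            have := hDs x hx y hy
            linarith
          · intro h; omega
          · intro h; omega
          · intro h; omega
          · rw [hmk]; simp
          · intro x hx
            rw [hV, Finset.mem_singleton] at hx
            rw [hx]; exact hpG
          · intro v _
            rw [hdA]
        · obtain ⟨k, rfl⟩ : ∃ k, n = k + 1 := ⟨n - 1, by omega⟩
          have hk : 1 ≤ k := by omega
          obtain ⟨s⟩ := exists_SD hStepB hDeco hStage hFine hRich hM hk hf
          exact ⟨s.lev a0, (ext_update s a0).lok hk hf hD hPA hPC⟩)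
  obtain ⟨f, hf⟩ := hchoice
  refine ⟨Tw f, p, ?_⟩
  have hT : ∀ n, (Tw f).LOK M p n := hf
  generalize Tw f = T at hT
  refine ⟨hpG, ((hT 0).zero rfl).1, ((hT 1).one rfl).1, ((hT 0).zero rfl).2, ((hT 1).one rfl).2,
    (hT 2).dv2 rfl, fun n hn => (hT n).levA hn, fun n hn => (hT n).levB hn,
    fun n hn => (hT n).thin hn, fun n hn => (hT n).rooted hn, fun n hn => (hT n).par hn, ?_, ?_, ?_⟩
  · have h1 : ∀ n, T.κ (n + 2) ≤ T.κ 2 * (1 / 8) ^ n := by
      intro n
      induction n with
      | zero => simp
      | succ n ih =>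
        have h2 := ((hT (n + 2)).levB (by omega)).κκ
        have h3 : T.κ (n + 1 + 2) = T.κ (n + 2 + 1) := rfl
        rw [h3, pow_succ]
        linarith
    have h2 : ∀ n, 0 ≤ T.κ (n + 2) := fun n => ((hT (n + 2)).levA (by omega)).κpos.le
    have h3 : Filter.Tendsto (fun n : ℕ => T.κ 2 * (1 / 8 : ℝ) ^ n) Filter.atTop (𝓝 0) := by
      have := (tendsto_pow_atTop_nhds_zero_of_lt_one (r := (1 / 8 : ℝ)) (by norm_num)
        (by norm_num)).const_mul (T.κ 2)
      simpa using this
    have h4 := squeeze_zero h2 h1 h3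
    exact (Filter.tendsto_add_atTop_iff_nat (f := T.κ) 2).1 h4
  · intro n hn u hu hr
    have h1 := (hT (n + 1)).many (by omega) u (by simpa using hu) hr
    simpa using h1
  · intro n hn j hj k θ hθ
    obtain ⟨N, hN⟩ := exists_nat_gt (1 / θ)
    set l := max (max k (n + 1)) N with hl
    have h1 : k ≤ l := (le_max_left _ _).trans (le_max_left _ _)
    have h2 : n + 1 ≤ l := (le_max_right _ _).trans (le_max_left _ _)
    have h3 : N ≤ l := le_max_right _ _
    obtain ⟨Fk, Tk, h4, h5, h6, h7⟩ := (hT l).slots (by omega) n j hn (by omega) hj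
    refine ⟨l, Fk, Tk, h1, by omega, h4, h5, ?_, h7⟩
    have h8 : 1 / ((l : ℝ) + 1) ≤ θ := by
      have h9 : (N : ℝ) ≤ l := by exact_mod_cast h3
      rw [div_le_iff₀ (by positivity)]
      rw [div_lt_iff₀ hθ] at hN
      nlinarith
    intro a b hab ha hb h9 h10
    exact Small.mono (h6 a b hab ha hb h9 h10) (le_refl _) h8

end EdgeSys

end Pool.Agent.EU
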