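import Pool.Agent.Helper17_EU.WBasics

/-! # Basic lemmas on towers: contents of arcs and decorations -/

open Set Metric Topology unitInterval

noncomputable section

namespace Pool.Agent.EU

universe u v

namespace EdgeSys

variable {X : Type u} [MetricSpace X] {ι : Type v} {𝓔 : EdgeSys X ι}

namespace Tower

variable (T : 𝓔.Tower)

theorem mem_V {n : ℕ} {x : X} : x ∈ T.V n ↔ ∃ l, 1 ≤ l ∧ l ≤ n ∧ x ∈ T.U l := by
  classical
  simp [V, and_assoc]

theorem V_mono {a b : ℕ} (h : a ≤ b) {x : X} (hx : x ∈ T.V a) : x ∈ T.V b := by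
  rw [mem_V] at hx ⊢
  obtain ⟨l, h1, h2, h3⟩ := hx
  exact ⟨l, h1, h2.trans h, h3⟩

theorem mem_V_succ {n : ℕ} (hn : 2 ≤ n) {x : X} : x ∈ T.V n ↔ x ∈ T.V (n - 1) ∨ x ∈ T.U n := by
  rw [mem_V, mem_V]
  constructor
  · rintro ⟨l, h1, h2, h3⟩
    rcases Nat.lt_or_ge l n with h | h
    · exact Or.inl ⟨l, h1, by omega, h3⟩
    · have : l = n := le_antisymm h2 h
      subst this
      exact Or.inr h3
  · rintro (⟨l, h1, h2, h3⟩ | h)
    · exact ⟨l, h1, by omega, h3⟩
    · exact ⟨n, by omega, le_refl _, h⟩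

theorem mem_U' {n : ℕ} {x : X} : x ∈ T.U' n ↔ x ∈ T.U n ∧ x ∉ T.P n := by
  classical
  simp [U']

theorem mem_P {n : ℕ} {x : X} : x ∈ T.P n ↔ ∃ p ∈ T.PK n, p.1 = x := by
  classical
  simp [P]

theorem S_mono {a b : ℕ} (h : a ≤ b) : T.S a ⊆ T.S b := by
  rintro i ⟨l, h1, h2⟩
  exact ⟨l, h1.trans h, h2⟩

theorem Y_anti {S S' : Set ι} (h : S ⊆ S') : 𝓔.Y S' ⊆ 𝓔.Y S := by
  intro x hx hx'
  apply hx
  simp only [mem_iUnion] at hx' ⊢
  obtain ⟨i, hi, h1⟩ := hx'
  exact ⟨i, h hi, h1⟩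

theorem G_subset_Y (S : Set ι) : 𝓔.G ⊆ 𝓔.Y S := by
  intro x hx hx'
  apply hx
  simp only [mem_iUnion] at hx' ⊢
  obtain ⟨i, _, h1⟩ := hx'
  exact ⟨i, h1⟩

theorem comp_anti {S S' : Set ι} (h : S ⊆ S') (x : X) : 𝓔.comp S' x ⊆ 𝓔.comp S x :=
  connectedComponentIn_mono x (Y_anti h)

theorem mem_ids_FA {n j : ℕ} (h : j ∈ T.FA n) : j ∈ T.ids n := by
  simp [ids, h]

theorem mem_ids_DV {n j : ℕ} {D : Deco X ι} (hD : D ∈ T.DV n) (h : j ∈ D.pre ++ D.post) :
    j ∈ T.ids n := by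
  simp only [ids, List.append_assoc, List.mem_append, List.mem_flatMap]
  refine Or.inr (Or.inl ⟨D, hD, ?_⟩)
  simpa using h

theorem mem_ids_DS {n j : ℕ} {D : Deco X ι × (ℕ × ℕ) × I} (hD : D ∈ T.DS n)
    (h : j ∈ D.1.pre ++ D.1.post) : j ∈ T.ids n := by
  simp only [ids, List.append_assoc, List.mem_append, List.mem_flatMap]
  refine Or.inr (Or.inr ⟨D, hD, ?_⟩)
  simpa using h

theorem mem_slotsOn {m n j : ℕ} {SW : ℕ → List (List (Step X ι))}
    {p : I × ℕ × List (Step X ι)} :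
    p ∈ T.slotsOn m SW n j ↔ n < p.2.1 ∧ p.2.1 ≤ m ∧
      (((n, j), p.1), p.2.2) ∈ (T.slots p.2.1).zip (SW p.2.1) := by
  classical
  unfold slotsOn
  simp only [List.mem_flatMap, List.mem_range, List.mem_filterMap, Option.ite_none_right_eq_some,
    Option.some.injEq]
  constructor
  · rintro ⟨l, hl, q, hq, ⟨h1, h2⟩, rfl⟩
    refine ⟨h1, by simpa using Nat.lt_succ_iff.1 hl, ?_⟩
    simp only
    rw [← h2]
    exact hq
  · rintro ⟨h1, h2, h3⟩
    exact ⟨p.2.1, by omega, _, h3, ⟨h1, rfl⟩, rfl⟩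

theorem slotsOn_congr {m n j : ℕ} {SW SW' : ℕ → List (List (Step X ι))}
    (h : ∀ l, n < l → SW l = SW' l) : T.slotsOn m SW n j = T.slotsOn m SW' n j := by
  classical
  unfold slotsOn
  refine List.flatMap_congr ?_
  intro l _
  by_cases hl : n < l
  · rw [h l hl]
  · simp [hl]

theorem cont_congr {m n j : ℕ} {bw : BW X ι} {SW SW' : ℕ → List (List (Step X ι))}
    (h : ∀ l, n < l → SW l = SW' l) : T.cont m bw SW n j = T.cont m bw SW' n j := by
  unfold cont
  rw [slotsOn_congr T h]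

theorem dcont_congr {m n : ℕ} {bw : BW X ι} {SW SW' : ℕ → List (List (Step X ι))}
    (h : ∀ l, n < l → SW l = SW' l) (D : Deco X ι) :
    T.dcont m bw SW n D = T.dcont m bw SW' n D := by
  have : T.cont m bw SW n = T.cont m bw SW' n := by
    funext j
    exact cont_congr T h
  unfold dcont
  rw [this]

/-- the sorted slot list -/
def sorted (m : ℕ) (SW : ℕ → List (List (Step X ι))) (n j : ℕ) :
    List (I × ℕ × List (Step X ι)) :=
  open Classical in (T.slotsOn m SW n j).insertionSort (fun a b => a.1 ≤ b.1)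

theorem cont_eq (m : ℕ) (bw : BW X ι) (SW : ℕ → List (List (Step X ι))) (n j : ℕ) :
    T.cont m bw SW n j = build (bw n j) 0 (T.sorted m SW n j) := by
  unfold cont sorted
  congr

theorem mem_sorted {m n j : ℕ} {SW : ℕ → List (List (Step X ι))}
    {p : I × ℕ × List (Step X ι)} : p ∈ T.sorted m SW n j ↔ p ∈ T.slotsOn m SW n j := by
  classical
  unfold sorted
  exact (List.perm_insertionSort _ _).mem_iff

theorem sorted_perm (m : ℕ) (SW : ℕ → List (List (Step X ι))) (n j : ℕ) :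
    (T.sorted m SW n j).Perm (T.slotsOn m SW n j) := by
  classical
  unfold sorted
  exact List.perm_insertionSort _ _

theorem sorted_pairwise (m : ℕ) (SW : ℕ → List (List (Step X ι))) (n j : ℕ) :
    (T.sorted m SW n j).Pairwise (fun p q => p.1 ≤ q.1) := by
  classical
  unfold sorted
  have : Std.Total (fun (a b : I × ℕ × List (Step X ι)) => a.1 ≤ b.1) :=
    ⟨fun a b => le_total _ _⟩
  have : IsTrans (I × ℕ × List (Step X ι)) (fun a b => a.1 ≤ b.1) :=
    ⟨fun a b c h h' => le_trans h h'⟩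
  exact List.pairwise_insertionSort _ _

end Tower

end EdgeSys

end Pool.Agent.EU
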