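import Pool.Agent.Helper17_EU.TowerBasics

/-! # Contents of arcs and decorations of a tower with bottom level `m` -/

open Set Metric Topology unitInterval

noncomputable section

namespace Pool.Agent.EU

universe u v

namespace EdgeSys

variable {X : Type u} [MetricSpace X] {ι : Type v} {𝓔 : EdgeSys X ι}

namespace Tower

/-- the standing assumptions of RUN -/
structure Ctx (T : 𝓔.Tower) (M : Set X) (m : ℕ) (η : ℝ) (F : Set ι) (bw : Tower.BW X ι) : Prop where
  two : 2 ≤ m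
  η0 : 0 < η
  U0 : T.U 0 = ∅
  ids0 : T.ids 0 = []
  ids1 : T.ids 1 = []
  A : ∀ n, 2 ≤ n → n ≤ m → T.LevelA n
  B : ∀ n, 2 ≤ n → n < m → T.LevelB M n
  noFA : T.FA m = []
  noDV : T.DV m = []
  noDV' : T.DV (m + 1) = []
  noDS : T.DS m = []
  bw : T.BWok m η F bw

namespace Ctx

variable {T : 𝓔.Tower} {M : Set X} {m : ℕ} {η : ℝ} {F : Set ι} {bw : Tower.BW X ι}

theorem kanti (H : Ctx T M m η F bw) {a b : ℕ} (ha : 2 ≤ a) (hab : a ≤ b) (hb : b ≤ m) :
    T.κ b ≤ T.κ a := by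
  induction b, hab using Nat.le_induction with
  | base => exact le_refl _
  | succ b hab ih =>
    have h1 := (H.B b (by omega) (by omega)).κκ
    have h2 := (H.B b (by omega) (by omega)).κpos'
    have h3 := ih (by omega)
    linarith

theorem slot_pt (H : Ctx T M m η F bw) {l : ℕ} (hl : 2 ≤ l) (hlm : l ≤ m) {h : (ℕ × ℕ) × I}
    (hh : h ∈ T.slots l) : (T.arc h.1.1 h.1.2).f h.2 ∈ 𝓔.G ∧ T.IsHost l h.1 := by
  simp only [slots, List.mem_append, List.mem_map] at hh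
  rcases hh with ⟨D, hD, rfl⟩ | ⟨p, hp, rfl⟩
  · rcases Nat.lt_or_ge l m with hlt | hge
    · obtain ⟨h1, h2, h3⟩ := (H.B l hl hlt).DSok D hD
      refine ⟨?_, h2⟩
      rw [h3]
      exact h1.2.2.2.1
    · have : l = m := le_antisymm hlm hge
      subst this
      rw [H.noDS] at hD
      simp at hD
  · obtain ⟨h1, h2⟩ := (H.A l hl hlm).Phost p hp
    refine ⟨?_, h1⟩
    rw [h2]
    exact (H.A l hl hlm).UG _ ((H.A l hl hlm).PU _ ((T.mem_P).2 ⟨p, hp, rfl⟩))

theorem sorted_ok (H : Ctx T M m η F bw) {SW : ℕ → List (List (Step X ι))} {n j : ℕ}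
    (hn : 1 ≤ n) (hSW : ∀ l, n < l → l ≤ m → T.SWok SW l) {p : I × ℕ × List (Step X ι)}
    (hp : p ∈ T.sorted m SW n j) :
    (T.arc n j).f p.1 ∈ 𝓔.G ∧ 𝓔.IsW ((T.arc n j).f p.1) p.2.2 ((T.arc n j).f p.1) ∧
      𝓔.supW p.2.2 ⊆ closedBall ((T.arc n j).f p.1) (T.κ p.2.1) ∧ n < p.2.1 ∧ p.2.1 ≤ m := by
  rw [T.mem_sorted, T.mem_slotsOn] at hp
  obtain ⟨h1, h2, h3⟩ := hp
  have h4 := hSW _ h1 h2
  unfold SWok at h4
  rw [List.forall₂_iff_zip] at h4
  have h5 := h4.2 h3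
  have h6 := H.slot_pt (by omega : 2 ≤ p.2.1) h2 (List.of_mem_zip h3).1
  exact ⟨h6.1, h5.1, h5.2, h1, h2⟩

theorem cont_full (H : Ctx T M m η F bw) (hCF : 𝓔.ContFullStmt)
    {SW : ℕ → List (List (Step X ι))} {n j : ℕ}
    (hn : 2 ≤ n) (hnm : n < m) (hj : j ∈ T.ids n) (hSW : ∀ l, n < l → l ≤ m → T.SWok SW l) :
    𝓔.IsW ((T.arc n j).f 0) (T.cont m bw SW n j) ((T.arc n j).f 1) ∧
    (∀ z ∈ 𝓔.supW (T.cont m bw SW n j), z ∈ range (T.arc n j).f ∨
      ∃ p ∈ T.sorted m SW n j, z ∈ 𝓔.supW p.2.2) ∧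
    (∀ i ∈ (T.arc n j).E, i ∈ F → Sum.inl i ∈ items (T.cont m bw SW n j)) ∧
    (∀ p ∈ T.sorted m SW n j, ∀ x ∈ items p.2.2, x ∈ items (T.cont m bw SW n j)) ∧
    ∃ Bp : Multiset (List (Step X ι)),
      Asm (Bp + Multiset.ofList ((T.sorted m SW n j).map (fun p => p.2.2)))
        {T.cont m bw SW n j} ∧
      (Bp.map (fun w => (items w : Multiset (ι ⊕ ℕ)))).sum.Nodup ∧
      (∀ x ∈ (Bp.map (fun w => (items w : Multiset (ι ⊕ ℕ)))).sum,
        ∃ i ∈ (T.arc n j).E, x = Sum.inl i) ∧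
      (∀ i ∈ (T.arc n j).E, i ∈ F →
        Sum.inl i ∈ (Bp.map (fun w => (items w : Multiset (ι ⊕ ℕ)))).sum) ∧
      (∀ w ∈ Bp, ∀ s ∈ w, 𝓔.GoodStep η s) ∧
      (∀ t : I, ∃ w ∈ Bp, ∃ y ∈ 𝓔.supW w, dist ((T.arc n j).f t) y ≤ η) := by
  have h := hCF (T.arc n j) η F (bw n j) (T.sorted m SW n j) H.η0.le
    (fun s t hst hs ht => H.bw n hnm j hj s t hst hs ht) (T.sorted_pairwise m SW n j)
    (fun p hp => ⟨(H.sorted_ok (by omega) hSW hp).1, (H.sorted_ok (by omega) hSW hp).2.1⟩)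
  rw [T.cont_eq]
  exact h

theorem cont_sup (H : Ctx T M m η F bw) (hCF : 𝓔.ContFullStmt)
    {SW : ℕ → List (List (Step X ι))} {n j : ℕ}
    (hn : 2 ≤ n) (hnm : n < m) (hj : j ∈ T.ids n) (hSW : ∀ l, n < l → l ≤ m → T.SWok SW l)
    {z : X} (hz : z ∈ 𝓔.supW (T.cont m bw SW n j)) :
    ∃ y ∈ range (T.arc n j).f, dist z y ≤ T.κ (n + 1) := by
  rcases (H.cont_full hCF hn hnm hj hSW).2.1 z hz with h | ⟨p, hp, h⟩
  · refine ⟨z, h, ?_⟩
    rw [dist_self]
    exact (H.B n hn hnm).κpos'.le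
  · obtain ⟨_, _, h3, h4, h5⟩ := H.sorted_ok (by omega) hSW hp
    refine ⟨_, ⟨p.1, rfl⟩, ?_⟩
    exact (mem_closedBall.1 (h3 h)).trans (H.kanti (by omega) (by omega) h5)

theorem chain_walk (n : ℕ) (ct : ℕ → List (Step X ι)) {L : List ℕ} {x y : X}
    (h : 𝓔.ChainA x (L.map (T.arc n)) y)
    (hc : ∀ j ∈ L, 𝓔.IsW ((T.arc n j).f 0) (ct j) ((T.arc n j).f 1)) :
    𝓔.IsW x (L.flatMap ct) y := by
  induction L generalizing x with
  | nil =>
    simp only [List.map_nil] at h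
    cases h
    exact IsW.nil _
  | cons j L ih =>
    simp only [List.map_cons] at h
    cases h with
    | cons _ _ _ h =>
      rw [List.flatMap_cons]
      exact (hc j (by simp)).append (ih h (fun k hk => hc k (by simp [hk])))

/-- decorations of level `n < m` -/
theorem dcont_ok (H : Ctx T M m η F bw) (hCF : 𝓔.ContFullStmt)
    {SW : ℕ → List (List (Step X ι))} {n : ℕ}
    (hn : 2 ≤ n) (hnm : n < m) (hSW : ∀ l, n < l → l ≤ m → T.SWok SW l)
    {D : Deco X ι} (hD : T.DecoOK M n D) (hj : ∀ j ∈ D.pre ++ D.post, j ∈ T.ids n) :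
    𝓔.IsW D.base (T.dcont m bw SW n D) D.base ∧
      𝓔.supW (T.dcont m bw SW n D) ⊆ closedBall D.base (2 * T.κ (n + 1)) := by
  obtain ⟨h1, h2, h3, h4, h5, h6, h7⟩ := hD
  have hk := (H.B n hn hnm).κpos'
  have hw : ∀ j ∈ D.pre ++ D.post,
      𝓔.IsW ((T.arc n j).f 0) (T.cont m bw SW n j) ((T.arc n j).f 1) :=
    fun j hj' => (H.cont_full hCF hn hnm (hj j hj') hSW).1
  have hs : ∀ j ∈ D.pre ++ D.post, 𝓔.supW (T.cont m bw SW n j) ⊆
      closedBall D.base (2 * T.κ (n + 1)) := by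
    intro j hj' z hz
    obtain ⟨y, hy, hzy⟩ := H.cont_sup hCF hn hnm (hj j hj') hSW hz
    have : y ∈ closedBall D.base (T.κ (n + 1)) := by
      apply h3
      refine ⟨T.arc n j, ?_, hy⟩
      exact List.mem_map_of_mem hj'
    rw [mem_closedBall] at this ⊢
    linarith [dist_triangle z y D.base]
  have hs' : ∀ L : List ℕ, (∀ j ∈ L, j ∈ D.pre ++ D.post) →
      𝓔.supW (L.flatMap (T.cont m bw SW n)) ⊆ closedBall D.base (2 * T.κ (n + 1)) := by
    intro L
    induction L with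
    | nil => simp
    | cons j L ih =>
      intro hL
      rw [List.flatMap_cons, supW_append]
      exact union_subset (hs j (hL j (by simp))) (ih (fun k hk => hL k (by simp [hk])))
  have hmark : 𝓔.IsW D.pt (match D.mrk with
      | none => []
      | some k => [Step.mark k D.pt]) D.pt := by
    cases D.mrk with
    | none => exact IsW.nil _
    | some k => exact IsW.single (𝓔 := 𝓔) (Step.mark k D.pt)
  have hmark' : 𝓔.supW (match D.mrk with
      | none => []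
      | some k => [Step.mark k D.pt]) ⊆ closedBall D.base (2 * T.κ (n + 1)) := by
    cases D.mrk with
    | none => simp
    | some k =>
      simp only [supW_cons, supW_nil, union_empty]
      intro z hz
      rw [show z = D.pt from hz]
      have := mem_closedBall.1 h5.2
      rw [mem_closedBall]
      linarith
  refine ⟨?_, ?_⟩
  · unfold dcont
    refine ((chain_walk n _ h1 (fun j hj' => hw j (by simp [hj']))).append hmark).append ?_
    exact chain_walk n _ h2 (fun j hj' => hw j (by simp [hj']))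
  · unfold dcont
    rw [supW_append, supW_append]
    refine union_subset (union_subset (hs' _ (fun j hj' => by simp [hj'])) hmark') ?_
    exact hs' _ (fun j hj' => by simp [hj'])

end Ctx

end Tower

end EdgeSys

end Pool.Agent.EU
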