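import Pool.Agent.Helper17_EU.MainOf
import Pool.Agent.Helper17_EU.Run
import Pool.Agent.Helper17_EU.TopF
import Pool.Agent.Helper98_EU.GT
import Pool.Agent.Helper98_EU.DH
import Pool.Agent.Helper98_EU.LemmaR
import Pool.Agent.Helper11_EU.T0
import Pool.Agent.Helper11_EU.ParArc
import Pool.Agent.Helper11_EU.PathArc
import Pool.Agent.Helper91_EU.ParComp
import Pool.Agent.Helper91_EU.BotFinal
import Pool.Agent.Helper55_EU.Arc
import Pool.Agent.Helper55_EU.NetRL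
import Pool.Agent.Helper55_EU.StepB
import Pool.Agent.Helper55_EU.Limit
import Pool.Agent.Helper55_EU.Oracle2
import Pool.Agent.Helper42_EU.FG1
import Pool.Agent.Helper42_EU.FG
import Pool.Agent.Helper97_EU.Deco
import Pool.Agent.Helper97_EU.Rich
import Pool.Agent.Helper97_EU.Along
import Pool.Agent.Helper97_EU.Pieces
import Pool.Agent.Helper97_EU.Seq
import Pool.Agent.Helper13_EU.Cont
import Pool.Agent.Helper13_EU.ContFull
import Pool.Agent.Helper75_EU.Stage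
import Pool.Agent.Helper75_EU.Cross
import Pool.Agent.Helper75_EU.Tame
import Pool.Agent.Helper10_EU.StageW
import Pool.Agent.Helper8_EU.HK
import Pool.Agent.Helper8_EU.Circ
import Pool.Agent.Helper80_EU.Free2
import Pool.Agent.Helper80_EU.Free3
import Pool.Agent.Helper42_EU.Harr
import Pool.Agent.Helper80_EU.Free1
import Pool.Agent.Helper8_EU.Xsys

/-! # Wiring of the modules -/

open Set Metric Topology unitInterval

noncomputable section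

namespace Pool.Agent.EU

universe u v

section wire

variable {X : Type u} [MetricSpace X] [CompactSpace X] [ConnectedSpace X]
  [LocallyConnectedSpace X] [Nontrivial X] {ι : Type v} (𝓔 : EdgeSys X ι)

theorem w_arc : 𝓔.ArcStmt := H55.arc 𝓔 (H98.y1 𝓔) H11.pathArc

theorem w_rl : 𝓔.RLStmt := H55.rl 𝓔 (H98.y1 𝓔) (H98.y2 𝓔) H98.touch (H98.thin_arc 𝓔)
  (H98.thin_union 𝓔) (H11.arcDich 𝓔)

theorem w_stepB : 𝓔.StepBStmt := H55.stepB 𝓔 (H55.net 𝓔 (H98.y1 𝓔) (H98.y2 𝓔)) (w_rl 𝓔)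
  (w_arc 𝓔) (H42.fg1 (H11.subArc' 𝓔) (H11.arcDich 𝓔)) (H42.fg2 (H11.subArc' 𝓔) (H11.arcDich 𝓔))
  (H98.y3 𝓔) (H11.null 𝓔) (H11.subArc' 𝓔) (H98.thin_arc 𝓔) (H98.thin_union 𝓔)

theorem w_deco : 𝓔.DecoStmt := H97.deco (H98.thin_arc 𝓔) (H98.thin_union 𝓔) (H98.dh 𝓔)

theorem w_top : 𝓔.TopStmt := EdgeSys.top_stmt (w_stepB 𝓔) (w_deco 𝓔) (H75.stage X)
  (H97.fine (H11.arcDich 𝓔) (H11.arcRuns 𝓔)) H97.richArc (w_arc 𝓔) (H11.arcDich 𝓔)
  (H11.parAdd 𝓔) (H11.parChain 𝓔)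

theorem w_bot : 𝓔.BotStmt := H91.bot 𝓔 (H11.null 𝓔) (H98.y2 𝓔) (H98.y3 𝓔)
  (H91.parComp 𝓔 (H11.null 𝓔) H98.sep)

theorem w_contFull : 𝓔.ContFullStmt := H13.contFull 𝓔 (H11.arcRuns 𝓔)

theorem w_run : 𝓔.RunStmt := EdgeSys.Tower.run_stmt (w_contFull 𝓔) (H10.stageW 𝓔)

theorem w_hk : 𝓔.HKStmt := H8.hk (H13.cont 𝓔) (w_contFull 𝓔) (H75.tame 𝓔) (H75.cross 𝓔)
  (H97.nonRich H98.sep) (H11.null 𝓔) (H11.crossFin 𝓔) H97.pieces

theorem w_seq : 𝓔.SeqStmt := H97.seq (H11.null 𝓔) (w_top 𝓔) (w_bot 𝓔)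
  (H97.along (H11.arcDich 𝓔) (H11.arcRuns 𝓔)) (w_run 𝓔) (w_contFull 𝓔) (w_hk 𝓔)

theorem w_limit : 𝓔.LimitStmt := H55.limit 𝓔

theorem w_oracle2 : 𝓔.Oracle2Stmt := H55.oracle2 𝓔 (w_arc 𝓔) H11.pathArc (H98.thin_arc 𝓔)
  (H98.thin_union 𝓔)

/-- every edge system with even cuts has an edge-wise Eulerian tour -/
theorem w_tour (h : 𝓔.EvenCuts) : ∃ g : C(I, X), 𝓔.IsTour univ g :=
  w_limit 𝓔 univ (w_seq 𝓔 univ (oracle1 𝓔) h)

/-- every edge system with even cuts has an edge-wise Eulerian tour which spends a dense set of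
times in the edges or outside of the closure of the edges -/
theorem w_tour2 (h : 𝓔.EvenCuts) : ∃ g : C(I, X), 𝓔.IsTour (closure (⋃ i, 𝓔.o i))ᶜ g := by
  obtain ⟨t1, ht1⟩ := w_tour 𝓔 h
  exact w_limit 𝓔 _ (w_seq 𝓔 _ (w_oracle2 𝓔 t1 ht1) h)

end wire

/-- every Peano continuum with more than one point and with the even-cut property is Eulerian -/
theorem main (X : Type u) [MetricSpace X] [CompactSpace X] [ConnectedSpace X]
    [LocallyConnectedSpace X] [Nontrivial X] (h : EvenCutProperty X) : Eulerian X :=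
  main_of X (fun _ 𝓔 => w_seq 𝓔) (fun _ 𝓔 => w_limit 𝓔) (fun _ 𝓔 => w_oracle2 𝓔)
    (fun _ 𝓔 => H42.harr H11.pathArc) H80.free2 H80.free3 (H8.xsys H80.free1) H8.circ h

end Pool.Agent.EU
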